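import Mathlib
import Pool.Agent.TMS.Mob

/-!
# Solutions with few places: definitions and basic facts

`ord v x` (exponent of the finite place `v`), `hgt x` (unnormalised height) are from
`Pool.Agent.H7.Abc.Height`; `ln v = log N v` from `Pool.Agent.AbcE.Defs`; `supp x`, `rad x` from
`Pool.Agent.TMS.Defs`.
-/

namespace Pool.Agent.TM2

open NumberField IsDedekindDomain Pool.Agent.H7.Abc Pool.Agent.AbcE Pool.Agent.TMS

/-- `x - 1` has no zeros outside `T` and the exponents of `x` outside `T` are multiples of `e`. -/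
def XX2 (K : Type*) [Field K] [NumberField K] (e : ℕ)
    (T : Finset (HeightOneSpectrum (𝓞 K))) : Set K :=
  {x | x ≠ 0 ∧ x ≠ 1 ∧ ∀ v, v ∉ T → ord v (x - 1) ≤ 0 ∧ (e : ℤ) ∣ ord v x}

section energy

open Classical in
/-- The energy: the number of pairs of elements of `X` with the same value of `f`. -/
noncomputable def nrg {α G : Type*} (X : Finset α) (f : α → G) : ℕ :=
  ((X ×ˢ X).filter (fun p => f p.1 = f p.2)).card

open Classical in
/-- The number of pairs of `q`-tuples of elements of `V` with the same sum of `b`. -/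
noncomputable def mom {α G : Type*} [AddCommMonoid G] (V : Finset α) (b : α → G) (q : ℕ) : ℕ :=
  nrg (Fintype.piFinset (fun _ : Fin q => V)) (fun a => ∑ i, b (a i))

end energy

section

variable {K : Type*} [Field K] [NumberField K]

open Classical in
/-- The support of `x` as a finite set (for `x ≠ 0, 1`). -/
noncomputable def fs (x : K) : Finset (HeightOneSpectrum (𝓞 K)) :=
  if h : (supp x).Finite then h.toFinset else ∅

/-- The part of a place of the support: `0` for a zero of `x`, `2` for a pole of `x`, `1`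
otherwise (a zero of `x - 1`). -/
noncomputable def prt (x : K) (v : HeightOneSpectrum (𝓞 K)) : Fin 3 :=
  if 0 < ord v x then 0 else if ord v x < 0 then 2 else 1

/-- The multiplicity of a place of the support. -/
noncomputable def mlt (x : K) (v : HeightOneSpectrum (𝓞 K)) : ℕ :=
  max (ord v x).natAbs (ord v (x - 1)).natAbs

/-- `v` enumerates the support of `x`. -/
def Lst (x : K) {j : ℕ} (v : Fin j → HeightOneSpectrum (𝓞 K)) : Prop :=
  Function.Injective v ∧ Set.range v = supp x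

/-- `s` is a unit at the places of `F`. -/
def UnitAt (F : Finset (HeightOneSpectrum (𝓞 K))) (s : K) : Prop :=
  s ≠ 0 ∧ ∀ l ∈ F, ord l s = 0

open Classical in
/-- The weight of a place. -/
noncomputable def wgt (C : ℝ) (F : Finset (HeightOneSpectrum (𝓞 K))) (p : Fin 3) (s m q : ℕ) : ℝ :=
  if p = 2 then C * Real.exp s else
    ((∏ l ∈ F, (Nat.gcd m (Ideal.absNorm l.asIdeal - 1) : ℝ)) *
      ((q.factorial : ℝ) * (C * Real.exp s) ^ q)) ^ (1 / (2 * (q : ℝ)))

end

open Classical in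
/-- Balanced generators: a class and a base place for every place `v` (depending only on the class
of `v` and on `⌊log N v⌋`), and `β v` with divisor `v - base`, bounded at all infinite places. -/
structure Gens (K : Type*) [Field K] [NumberField K] where
  /-- the bound -/
  C0 : ℝ
  hC0 : 0 ≤ C0
  /-- the number of classes -/
  Mc : ℕ
  /-- the class -/
  cl : HeightOneSpectrum (𝓞 K) → Fin Mc
  /-- the base places -/
  base : Fin Mc → ℕ → HeightOneSpectrum (𝓞 K)
  /-- the generators -/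
  β : HeightOneSpectrum (𝓞 K) → K
  hβ0 : ∀ v, β v ≠ 0
  hβ : ∀ v u, ord u (β v) = (if u = v then 1 else 0) - (if u = base (cl v) ⌊ln v⌋₊ then 1 else 0)
  hw : ∀ v, ∀ w : InfinitePlace K, |Real.log (w (β v))| ≤ C0

section

variable {K : Type*} [Field K] [NumberField K]

/-- `∏ i, β (v i) ^ a i` -/
noncomputable def bp (g : Gens K) {j : ℕ} (v : Fin j → HeightOneSpectrum (𝓞 K)) (a : Fin j → ℤ) : K :=
  ∏ i, g.β (v i) ^ a i

/-- The exponents for `x`. -/
def ex1 {j : ℕ} (p : Fin j → Fin 3) (m : Fin j → ℕ) (i : Fin j) : ℤ :=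
  if p i = 0 then -(m i : ℤ) else if p i = 2 then (m i : ℤ) else 0

/-- The exponents for `1 - x`. -/
def ex2 {j : ℕ} (p : Fin j → Fin 3) (m : Fin j → ℕ) (i : Fin j) : ℤ :=
  if p i = 1 then -(m i : ℤ) else if p i = 2 then (m i : ℤ) else 0

/-- `x` has the data `(p, c, s, m)`: `v` enumerates the support of `x`, and the `i`-th place is in
part `p i`, has class `c i`, `⌊log N v⌋ = s i`, multiplicity `≡ m i` modulo `L`, and is not in `F`. -/
structure Dat (g : Gens K) (F : Finset (HeightOneSpectrum (𝓞 K))) (L : ℕ) {j : ℕ}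
    (p : Fin j → Fin 3) (c : Fin j → Fin g.Mc) (s m : Fin j → ℕ) (x : K)
    (v : Fin j → HeightOneSpectrum (𝓞 K)) : Prop where
  x0 : x ≠ 0
  x1 : x ≠ 1
  lst : Lst x v
  hp : ∀ i, prt x (v i) = p i
  hc : ∀ i, g.cl (v i) = c i
  hs : ∀ i, ⌊ln (v i)⌋₊ = s i
  hm : ∀ i, mlt x (v i) ≡ m i [MOD L]
  hF : ∀ i, v i ∉ F

/-- Residue data modulo the places of `F`: `r` is multiplicative on `F`-units and separates
residue classes. -/
structure Res {G : Type} [AddCommGroup G] [Fintype G] (F : Finset (HeightOneSpectrum (𝓞 K)))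
    (r : K → G) : Prop where
  mul : ∀ s t : K, UnitAt F s → UnitAt F t → r (s * t) = r s + r t
  eq_iff : ∀ s t : K, UnitAt F s → UnitAt F t →
    (r s = r t ↔ ∀ l ∈ F, FinitePlace.mk l (s - t) < 1)
  ker : ∀ n : ℕ, (Nat.card {a : G // n • a = 0} : ℝ) ≤
    ∏ l ∈ F, (Nat.gcd n (Ideal.absNorm l.asIdeal - 1) : ℝ)
  exp : ∀ n : ℕ, (∀ l ∈ F, (Ideal.absNorm l.asIdeal - 1) ∣ n) → ∀ a : G, n • a = 0

/-! ### Basic facts (proved) -/

private theorem df_pos_iff (v : HeightOneSpectrum (𝓞 K)) {x : K} (hx : x ≠ 0) :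
    0 < ord v x ↔ FinitePlace.mk v x < 1 := by
  rw [mk_eq_zpow v hx, zpow_lt_one_iff_right₀ (one_lt_norm v)]
  omega

private theorem df_neg_iff (v : HeightOneSpectrum (𝓞 K)) {x : K} (hx : x ≠ 0) :
    ord v x < 0 ↔ 1 < FinitePlace.mk v x := by
  rw [mk_eq_zpow v hx, one_lt_zpow_iff_right₀ (one_lt_norm v)]
  omega

theorem ord_neg' (v : HeightOneSpectrum (𝓞 K)) (x : K) : ord v (-x) = ord v x := by
  unfold ord
  rw [Valuation.map_neg]

theorem ord_one' (v : HeightOneSpectrum (𝓞 K)) : ord v (1 : K) = 0 := by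
  unfold ord
  rw [Valuation.map_one]
  simp

theorem ord_inv' (v : HeightOneSpectrum (𝓞 K)) {x : K} (hx : x ≠ 0) : ord v x⁻¹ = -ord v x := by
  rw [← one_div, ord_div v one_ne_zero hx, ord_one', zero_sub]

theorem ord_mul' (v : HeightOneSpectrum (𝓞 K)) {x y : K} (hx : x ≠ 0) (hy : y ≠ 0) :
    ord v (x * y) = ord v x + ord v y := by
  have h := ord_div v hx (inv_ne_zero hy)
  rw [div_inv_eq_mul, ord_inv' v hy] at h
  rw [h]
  ring

theorem ord_pow' (v : HeightOneSpectrum (𝓞 K)) {x : K} (hx : x ≠ 0) (n : ℕ) :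
    ord v (x ^ n) = n * ord v x := by
  induction n with
  | zero => simp [ord_one']
  | succ n ih =>
    rw [pow_succ, ord_mul' v (pow_ne_zero _ hx) hx, ih]
    push_cast
    ring

theorem ord_zpow' (v : HeightOneSpectrum (𝓞 K)) {x : K} (hx : x ≠ 0) (n : ℤ) :
    ord v (x ^ n) = n * ord v x := by
  obtain ⟨k, rfl | rfl⟩ := n.eq_nat_or_neg
  · rw [zpow_natCast, ord_pow' v hx]
  · rw [zpow_neg, zpow_natCast, ord_inv' v (pow_ne_zero _ hx), ord_pow' v hx]
    ring

theorem ord_prod' {ι : Type*} (v : HeightOneSpectrum (𝓞 K)) (s : Finset ι) (f : ι → K)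
    (hf : ∀ i ∈ s, f i ≠ 0) : ord v (∏ i ∈ s, f i) = ∑ i ∈ s, ord v (f i) := by
  classical
  induction s using Finset.induction_on with
  | empty => simp [ord_one']
  | insert a s ha ih =>
    rw [Finset.prod_insert ha, Finset.sum_insert ha, ord_mul' v (hf a (Finset.mem_insert_self _ _))
      (Finset.prod_ne_zero_iff.2 fun i hi => hf i (Finset.mem_insert_of_mem hi)),
      ih fun i hi => hf i (Finset.mem_insert_of_mem hi)]

theorem ord_cases (v : HeightOneSpectrum (𝓞 K)) {x : K} (hx : x ≠ 0) (hx1 : x ≠ 1) :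
    (0 < ord v x ∧ ord v (x - 1) = 0) ∨ (ord v x = 0 ∧ 0 ≤ ord v (x - 1)) ∨
      (ord v x < 0 ∧ ord v (x - 1) = ord v x) := by
  have hx1' : x - 1 ≠ 0 := sub_ne_zero.2 hx1
  rcases lt_trichotomy (FinitePlace.mk v x) 1 with h | h | h
  · left
    refine ⟨(df_pos_iff v hx).2 h, (ord_eq_zero_iff v hx1').2 ?_⟩
    have h1 := fp_sub_le (FinitePlace.mk v) x 1
    have h2 := fp_sub_le (FinitePlace.mk v) x (x - 1)
    rw [sub_sub_cancel, map_one] at h2
    rw [map_one, max_eq_right h.le] at h1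
    rcases le_max_iff.1 h2 with h3 | h3
    · linarith
    · exact le_antisymm h1 h3
  · right; left
    refine ⟨(ord_eq_zero_iff v hx).2 h, ?_⟩
    have h1 := fp_sub_le (FinitePlace.mk v) x 1
    rw [map_one, h, max_self] at h1
    by_contra hcon
    push Not at hcon
    have := (df_neg_iff v hx1').1 hcon
    linarith
  · right; right
    refine ⟨(df_neg_iff v hx).2 h, ?_⟩
    have h1 := fp_sub_le (FinitePlace.mk v) x 1
    have h2 := FinitePlace.add_le (FinitePlace.mk v) (x - 1) 1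
    rw [sub_add_cancel, map_one] at h2
    rw [map_one, max_eq_left h.le] at h1
    have h4 : FinitePlace.mk v (x - 1) = FinitePlace.mk v x := by
      rcases le_max_iff.1 h2 with h3 | h3
      · exact le_antisymm h1 h3
      · linarith
    have h5 : Real.log (FinitePlace.mk v (x - 1)) = Real.log (FinitePlace.mk v x) := by rw [h4]
    rw [log_mk v hx1', log_mk v hx] at h5
    have h6 := log_norm_pos v
    have h7 : (ord v (x - 1) : ℝ) = (ord v x : ℝ) := by
      have := mul_right_cancel₀ h6.ne' h5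
      linarith
    exact_mod_cast h7

theorem coe_fs {x : K} (hx : x ≠ 0) (hx1 : x ≠ 1) :
    ((fs x : Finset (HeightOneSpectrum (𝓞 K))) : Set (HeightOneSpectrum (𝓞 K))) = supp x := by
  unfold fs
  rw [dif_pos (supp_finite hx hx1), Set.Finite.coe_toFinset]

theorem mem_fs {x : K} (hx : x ≠ 0) (hx1 : x ≠ 1) {v : HeightOneSpectrum (𝓞 K)} :
    v ∈ fs x ↔ ord v x ≠ 0 ∨ ord v (x - 1) ≠ 0 := by
  rw [← Finset.mem_coe, coe_fs hx hx1]
  rfl

theorem rad_fs {x : K} (hx : x ≠ 0) (hx1 : x ≠ 1) : rad x = ∑ v ∈ fs x, ln v :=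
  rad_eq hx hx1 _ (coe_fs hx hx1).symm

theorem ln_pos (v : HeightOneSpectrum (𝓞 K)) : 0 < ln v := log_norm_pos v

theorem prt_eq_zero {x : K} {v : HeightOneSpectrum (𝓞 K)} : prt x v = 0 ↔ 0 < ord v x := by
  unfold prt
  split_ifs <;> simp_all

theorem prt_eq_two {x : K} {v : HeightOneSpectrum (𝓞 K)} : prt x v = 2 ↔ ord v x < 0 := by
  unfold prt
  split_ifs with h1 h2
  · constructor
    · intro h; exact absurd h (by decide)
    · intro h; omega
  · exact iff_of_true rfl h2
  · constructor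
    · intro h; exact absurd h (by decide)
    · intro h; exact absurd h h2

theorem prt_eq_one {x : K} {v : HeightOneSpectrum (𝓞 K)} : prt x v = 1 ↔ ord v x = 0 := by
  unfold prt
  split_ifs with h1 h2
  · constructor
    · intro h; exact absurd h (by decide)
    · intro h; omega
  · constructor
    · intro h; exact absurd h (by decide)
    · intro h; omega
  · simp only [true_iff]
    omega

/-- zeros of `x` -/
theorem mlt_zero {x : K} (hx : x ≠ 0) (hx1 : x ≠ 1) {v : HeightOneSpectrum (𝓞 K)}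
    (h : prt x v = 0) : (mlt x v : ℤ) = ord v x ∧ ord v (x - 1) = 0 := by
  rw [prt_eq_zero] at h
  have h1 := ord_cases v hx hx1
  unfold mlt
  omega

/-- zeros of `x - 1` -/
theorem mlt_one {x : K} (hx : x ≠ 0) (hx1 : x ≠ 1) {v : HeightOneSpectrum (𝓞 K)}
    (h : prt x v = 1) : (mlt x v : ℤ) = ord v (x - 1) ∧ ord v x = 0 := by
  rw [prt_eq_one] at h
  have h1 := ord_cases v hx hx1
  unfold mlt
  omega

/-- poles of `x` -/
theorem mlt_two {x : K} (hx : x ≠ 0) (hx1 : x ≠ 1) {v : HeightOneSpectrum (𝓞 K)}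
    (h : prt x v = 2) : (mlt x v : ℤ) = -ord v x ∧ ord v (x - 1) = ord v x := by
  rw [prt_eq_two] at h
  have h1 := ord_cases v hx hx1
  unfold mlt
  omega

theorem Lst.image_eq {x : K} (hx : x ≠ 0) (hx1 : x ≠ 1) {j : ℕ}
    {v : Fin j → HeightOneSpectrum (𝓞 K)} (h : Lst x v) [DecidableEq (HeightOneSpectrum (𝓞 K))] :
    Finset.univ.image v = fs x := by
  rw [← Finset.coe_inj, coe_fs hx hx1, Finset.coe_image, Finset.coe_univ, Set.image_univ, h.2]

theorem Lst.card_eq {x : K} (hx : x ≠ 0) (hx1 : x ≠ 1) {j : ℕ}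
    {v : Fin j → HeightOneSpectrum (𝓞 K)} (h : Lst x v) : (fs x).card = j := by
  classical
  rw [← h.image_eq hx hx1, Finset.card_image_of_injective _ h.1, Finset.card_univ, Fintype.card_fin]

theorem Lst.sum_eq {x : K} (hx : x ≠ 0) (hx1 : x ≠ 1) {j : ℕ}
    {v : Fin j → HeightOneSpectrum (𝓞 K)} (h : Lst x v) (f : HeightOneSpectrum (𝓞 K) → ℝ) :
    ∑ v ∈ fs x, f v = ∑ i, f (v i) := by
  classical
  rw [← h.image_eq hx hx1, Finset.sum_image fun a _ b _ hab => h.1 hab]

theorem exists_lst {x : K} (hx : x ≠ 0) (hx1 : x ≠ 1) {j : ℕ} (hj : (fs x).card = j) :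
    ∃ v : Fin j → HeightOneSpectrum (𝓞 K), Lst x v := by
  subst hj
  refine ⟨fun i => ((fs x).equivFin.symm i).1, ?_, ?_⟩
  · intro a b hab
    exact (fs x).equivFin.symm.injective (Subtype.ext hab)
  · rw [← coe_fs hx hx1]
    ext v
    constructor
    · rintro ⟨i, rfl⟩
      exact ((fs x).equivFin.symm i).2
    · intro hv
      exact ⟨(fs x).equivFin ⟨v, hv⟩, by simp⟩

end

end Pool.Agent.TM2
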