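import Mathlib
import Pool.Agent.TM2.Defs
import Pool.Agent.AbcF.Balanced

/-!
# Bet (size 1)

From `AbcF.balanced` applied to the sets `X = {v}`, `Y = {u}` (`LN {v} = ln v`, see `AbcF/Defs.lean`): `cl v := cl {v}`, `base c s` := some
place `v` with `cl {v} = c`, `⌊ln v⌋₊ = s` if there is one, otherwise any place (there is one); for a place `v` and
`u = base (cl v) ⌊ln v⌋₊`: `cl {v} = cl {u}` and `|ln v - ln u| < 1` since the floors agree (`ln > 0`). `β v` := the `ξ` of `balanced`.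
-/

namespace Pool.Agent.TM2

open NumberField IsDedekindDomain Pool.Agent.H7.Abc Pool.Agent.AbcE Pool.Agent.TMS

theorem exists_gens (K : Type) [Field K] [NumberField K] : Nonempty (Gens K) := by
  classical
  obtain ⟨C, M, cl, hC, h⟩ := Pool.Agent.AbcF.balanced K
  have hne : Nonempty (HeightOneSpectrum (𝓞 K)) := by
    obtain ⟨m, hm⟩ := Ideal.exists_maximal (𝓞 K)
    exact ⟨⟨m, hm.isPrime, Ring.ne_bot_of_isMaximal_of_not_isField hm
      (RingOfIntegers.not_isField K)⟩⟩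
  obtain ⟨v0⟩ := hne
  let base : Fin M → ℕ → HeightOneSpectrum (𝓞 K) := fun c s =>
    if hh : ∃ v : HeightOneSpectrum (𝓞 K), cl {v} = c ∧ ⌊ln v⌋₊ = s then hh.choose else v0
  have hbase : ∀ v : HeightOneSpectrum (𝓞 K), cl {base (cl {v}) ⌊ln v⌋₊} = cl {v} ∧
      ⌊ln (base (cl {v}) ⌊ln v⌋₊)⌋₊ = ⌊ln v⌋₊ := by
    intro v
    have hh : ∃ w : HeightOneSpectrum (𝓞 K), cl {w} = cl {v} ∧ ⌊ln w⌋₊ = ⌊ln v⌋₊ := ⟨v, rfl, rfl⟩
    have he : base (cl {v}) ⌊ln v⌋₊ = hh.choose := dif_pos hh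
    rw [he]
    exact hh.choose_spec
  have hex : ∀ v : HeightOneSpectrum (𝓞 K), ∃ ξ : K, ξ ≠ 0 ∧
      (∀ u, ord u ξ = (if u = v then 1 else 0) -
        (if u = base (cl {v}) ⌊ln v⌋₊ then 1 else 0)) ∧
      ∀ w : InfinitePlace K, |Real.log (w ξ)| ≤ C := by
    intro v
    obtain ⟨h1, h2⟩ := hbase v
    have hLN : ∀ u : HeightOneSpectrum (𝓞 K), Pool.Agent.AbcF.LN {u} = ln u := fun u =>
      Finset.sum_singleton _ _
    have h3 : |Pool.Agent.AbcF.LN {v} - Pool.Agent.AbcF.LN {base (cl {v}) ⌊ln v⌋₊}| ≤ 1 := by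
      rw [hLN, hLN, abs_le]
      have a1 := Nat.floor_le (ln_pos v).le
      have a2 := Nat.lt_floor_add_one (ln v)
      have a3 := Nat.floor_le (ln_pos (base (cl {v}) ⌊ln v⌋₊)).le
      have a4 := Nat.lt_floor_add_one (ln (base (cl {v}) ⌊ln v⌋₊))
      rw [h2] at a3 a4
      constructor <;> linarith
    obtain ⟨ξ, b1, b2, b3⟩ := h {v} {base (cl {v}) ⌊ln v⌋₊} h1.symm h3
    refine ⟨ξ, b1, fun u => ?_, b3⟩
    rw [b2 u]
    simp only [Finset.mem_singleton]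
  choose β h1 h2 h3 using hex
  exact ⟨{ C0 := C, hC0 := hC.le, Mc := M, cl := fun v => cl {v}, base := base, β := β
           hβ0 := h1, hβ := fun v u => h2 v u, hw := h3 }⟩

end Pool.Agent.TM2
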