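import Mathlib
import Pool.Agent.TM2.Defs

/-!
# ColC (size 3)

For `x ∈ S` choose `v x : Fin j → places` with `Lst x (v x)` (`exists_lst`). Colour of `x`: for each `i : Fin j` the tuple
`(prt x (v i), g.cl (v i), ⌊ln (v i)⌋₊ ∈ Fin (⌊R⌋₊ + 1), mlt x (v i) % L ∈ Fin L, (v i if v i ∈ F, else none) ∈ Option F)`; `ln (v i) ≤ rad x ≤ R` (`rad_fs`,
`Lst.sum_eq`, `ln_pos`). The number of colours is `(3 * Mc * (⌊R⌋₊ + 1) * L * (F.card + 1)) ^ j` (`Fintype.card_pi_const`, `Fintype.card_option`).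
For a fixed colour `γ` the class `X` satisfies the hypothesis `hcls` with `D` = the bases `g.base (c i) (s i)` and the places `l ∈ F` with
`γ i = some l` for some `i` (`D.card ≤ 2 j`): if `v i ∈ F` then `v i ∈ D`, so `v i ∉ F \ D`; `m i` = the residue. So `S.card ≤ (number of colours) * B`
(`Finset.card_eq_sum_card_fiberwise` over `Finset.univ`).
-/

namespace Pool.Agent.TM2

open NumberField IsDedekindDomain Pool.Agent.H7.Abc Pool.Agent.AbcE Pool.Agent.TMS

open Classical in
theorem col_card {K : Type} [Field K] [NumberField K] (g : Gens K)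
    (F : Finset (HeightOneSpectrum (𝓞 K))) (L : ℕ) (hL : 1 ≤ L) (R : ℝ) (hR : 1 ≤ R) (j : ℕ)
    (B : ℝ) (hB0 : 0 ≤ B) (S : Finset K)
    (hS : ∀ x ∈ S, x ≠ 0 ∧ x ≠ 1 ∧ rad x ≤ R ∧ (fs x).card = j)
    (hcls : ∀ (p : Fin j → Fin 3) (c : Fin j → Fin g.Mc) (s m : Fin j → ℕ)
      (D : Finset (HeightOneSpectrum (𝓞 K))), D.card ≤ 2 * j →
      (∀ i, g.base (c i) (s i) ∉ F \ D) → ∀ X : Finset K, X ⊆ S →
      (∀ x ∈ X, ∃ v : Fin j → HeightOneSpectrum (𝓞 K), Dat g (F \ D) L p c s m x v) →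
      (X.card : ℝ) ≤ B) :
    (S.card : ℝ) ≤ (3 * (g.Mc : ℝ) * (R + 1) * L * (F.card + 1)) ^ j * B := by
  have hlst : ∀ x : {x // x ∈ S}, ∃ v : Fin j → HeightOneSpectrum (𝓞 K), Lst x.1 v := fun x =>
    exists_lst (hS x.1 x.2).1 (hS x.1 x.2).2.1 (hS x.1 x.2).2.2.2
  choose v hv using hlst
  have hln : ∀ (x : {x // x ∈ S}) (i : Fin j), ⌊ln (v x i)⌋₊ < ⌊R⌋₊ + 1 := by
    intro x i
    have h1 : ln (v x i) ≤ R := by
      calc ln (v x i) ≤ ∑ i, ln (v x i) :=
            Finset.single_le_sum (f := fun i => ln (v x i)) (fun i _ => (ln_pos _).le)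
              (Finset.mem_univ i)
        _ = rad x.1 := by
            rw [rad_fs (hS x.1 x.2).1 (hS x.1 x.2).2.1,
              (hv x).sum_eq (hS x.1 x.2).1 (hS x.1 x.2).2.1]
        _ ≤ R := (hS x.1 x.2).2.2.1
    exact Nat.lt_succ_of_le (Nat.floor_le_floor h1)
  have hmod : ∀ n : ℕ, n % L < L := fun n => Nat.mod_lt _ hL
  let T := Fin 3 × Fin g.Mc × Fin (⌊R⌋₊ + 1) × Fin L × Option {l // l ∈ F}
  let col : {x // x ∈ S} → Fin j → T := fun x i =>
    (prt x.1 (v x i), g.cl (v x i), ⟨⌊ln (v x i)⌋₊, hln x i⟩, ⟨mlt x.1 (v x i) % L, hmod _⟩,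
      if h : v x i ∈ F then some ⟨v x i, h⟩ else none)
  have hT : Fintype.card T = 3 * (g.Mc * ((⌊R⌋₊ + 1) * (L * (F.card + 1)))) := by
    simp only [T, Fintype.card_prod, Fintype.card_fin, Fintype.card_option, Fintype.card_coe]
  have hfib : ∀ γ : Fin j → T,
      (((S.attach.filter (fun x => col x = γ)).card : ℕ) : ℝ) ≤ B := by
    intro γ
    let X : Finset K := (S.attach.filter (fun x => col x = γ)).image Subtype.val
    have hX : X.card = (S.attach.filter (fun x => col x = γ)).card :=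
      Finset.card_image_of_injective _ Subtype.val_injective
    rw [← hX]
    let D1 : Finset (HeightOneSpectrum (𝓞 K)) :=
      Finset.univ.image (fun i : Fin j => g.base (γ i).2.1 ((γ i).2.2.1 : ℕ))
    let D2 : Finset (HeightOneSpectrum (𝓞 K)) :=
      Finset.univ.biUnion (fun i : Fin j => ((γ i).2.2.2.2).elim ∅ (fun l => {l.1}))
    have hD1 : D1.card ≤ j := by
      refine Finset.card_image_le.trans ?_
      rw [Finset.card_univ, Fintype.card_fin]
    have hD2 : D2.card ≤ j := by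
      refine Finset.card_biUnion_le.trans ?_
      calc ∑ i : Fin j, (((γ i).2.2.2.2).elim ∅ (fun l => {l.1}) :
            Finset (HeightOneSpectrum (𝓞 K))).card ≤ ∑ _i : Fin j, 1 := by
            apply Finset.sum_le_sum
            intro i _
            rcases (γ i).2.2.2.2 with _ | l
            · simp
            · simp
        _ = j := by simp
    refine hcls (fun i => (γ i).1) (fun i => (γ i).2.1) (fun i => ((γ i).2.2.1 : ℕ))
      (fun i => ((γ i).2.2.2.1 : ℕ)) (D1 ∪ D2) ?_ ?_ X ?_ ?_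
    · have := Finset.card_union_le D1 D2
      omega
    · intro i hi
      rw [Finset.mem_sdiff] at hi
      apply hi.2
      exact Finset.mem_union_left _ (Finset.mem_image.2 ⟨i, Finset.mem_univ i, rfl⟩)
    · intro x hx
      obtain ⟨y, _, rfl⟩ := Finset.mem_image.1 hx
      exact y.2
    · intro x hx
      obtain ⟨y, hy, rfl⟩ := Finset.mem_image.1 hx
      have hc : col y = γ := (Finset.mem_filter.1 hy).2
      have hci : ∀ i, γ i = (prt y.1 (v y i), g.cl (v y i), ⟨⌊ln (v y i)⌋₊, hln y i⟩,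
          ⟨mlt y.1 (v y i) % L, hmod _⟩,
          if h : v y i ∈ F then some ⟨v y i, h⟩ else none) := fun i => by rw [← hc]
      refine ⟨v y, ⟨(hS y.1 y.2).1, (hS y.1 y.2).2.1, hv y, ?_, ?_, ?_, ?_, ?_⟩⟩
      · intro i
        simp only [hci i]
      · intro i
        simp only [hci i]
      · intro i
        simp only [hci i]
      · intro i
        simp only [hci i]
        exact (Nat.mod_modEq _ _).symm
      · intro i hi
        rw [Finset.mem_sdiff] at hi
        apply hi.2
        apply Finset.mem_union_right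
        refine Finset.mem_biUnion.2 ⟨i, Finset.mem_univ i, ?_⟩
        rw [hci i]
        simp only [dif_pos hi.1, Option.elim_some, Finset.mem_singleton]
  have hcard : (S.card : ℝ) = ∑ γ : Fin j → T,
      (((S.attach.filter (fun x => col x = γ)).card : ℕ) : ℝ) := by
    rw [← Finset.card_attach (s := S), Finset.card_eq_sum_card_fiberwise (f := col)
      (t := (Finset.univ : Finset (Fin j → T))) (fun _ _ => Finset.mem_coe.2 (Finset.mem_univ _))]
    push_cast
    rfl
  have hflo : ((⌊R⌋₊ : ℕ) : ℝ) ≤ R := Nat.floor_le (by linarith)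
  calc (S.card : ℝ) = ∑ γ : Fin j → T,
        (((S.attach.filter (fun x => col x = γ)).card : ℕ) : ℝ) := hcard
    _ ≤ ∑ _γ : Fin j → T, B := Finset.sum_le_sum fun γ _ => hfib γ
    _ = ((Fintype.card T : ℝ)) ^ j * B := by
        rw [Finset.sum_const, Finset.card_univ, Fintype.card_fun, Fintype.card_fin, nsmul_eq_mul]
        push_cast
        rfl
    _ ≤ (3 * (g.Mc : ℝ) * (R + 1) * L * (F.card + 1)) ^ j * B := by
        apply mul_le_mul_of_nonneg_right _ hB0
        apply pow_le_pow_left₀ (by positivity)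
        rw [hT]
        push_cast
        have h1 : (0 : ℝ) ≤ g.Mc := by positivity
        have h2 : (0 : ℝ) ≤ (L : ℝ) * (F.card + 1) := by positivity
        calc (3 : ℝ) * (g.Mc * ((⌊R⌋₊ + 1) * (L * (F.card + 1))))
            ≤ 3 * (g.Mc * ((R + 1) * (L * (F.card + 1)))) := by gcongr
          _ = 3 * (g.Mc : ℝ) * (R + 1) * L * (F.card + 1) := by ring

end Pool.Agent.TM2
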