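import Mathlib
import Pool.Agent.TM2.Defs

/-!
# KerG (size 3)

`log gcd(m, N) = ∑_{r | N prime} min (v_r m, v_r N) log r` (`v_r` = `padicValNat`/`factorization`; for `m = 0` the gcd is `N`:
read `v_r 0 = ∞`). For `r` odd: `min (v_r m, v_r N) ≤ v_r N * [r ∣ m]`; for `r = 2`: `min (v_2 m, v_2 N) ≤ v_2 N * [4 ∣ m and 4 ∣ N] + 1`.
So `∑ ω i log gcd(m i, N) ≤ ∑_{r odd} v_r(N) log r * ∑_{r ∣ m i} ω i + v_2(N) log 2 * ([4 ∣ N] ∑_{4 ∣ m i} ω i) + (∑ ω i) log 2
≤ M * ∑_r v_r(N) log r + (∑ ω i) log 2 = M log N + (∑ ω i) log 2`.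
(A possible way to write it: prove `gcd (m, N) ≤ 2 * ∏_{r ∈ N.primeFactors, (r ≠ 2 ∧ r ∣ m) ∨ (r = 2 ∧ 4 ∣ m ∧ 4 ∣ N)} r ^ (v_r N)`
by divisibility, take logarithms, sum, and exchange the sums; `log N = ∑_{r ∈ N.primeFactors} v_r N log r`.)
-/

namespace Pool.Agent.TM2

open NumberField IsDedekindDomain Pool.Agent.H7.Abc Pool.Agent.AbcE Pool.Agent.TMS

private theorem KerG_log (N m : ℕ) (hN : 1 ≤ N) :
    Real.log (Nat.gcd m N : ℝ) ≤ Real.log 2 +
      ∑ r ∈ N.primeFactors, (if (r ≠ 2 ∧ r ∣ m) ∨ (r = 2 ∧ 4 ∣ m ∧ 4 ∣ N) then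
        (N.factorization r : ℝ) * Real.log r else 0) := by
  have hN0 : N ≠ 0 := by omega
  obtain ⟨g, hg⟩ : ∃ g, g = Nat.gcd m N := ⟨_, rfl⟩
  have hg0 : g ≠ 0 := by rw [hg]; exact Nat.gcd_ne_zero_right hN0
  have hgN : g ∣ N := by rw [hg]; exact Nat.gcd_dvd_right m N
  have hgm : g ∣ m := by rw [hg]; exact Nat.gcd_dvd_left m N
  rw [← hg]
  have h1 : Real.log (g : ℝ) = ∑ r ∈ N.primeFactors, (g.factorization r : ℝ) * Real.log r := by
    rw [Real.log_nat_eq_sum_factorization, Finsupp.sum]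
    refine Finset.sum_subset ?_ ?_
    · rw [Nat.support_factorization]
      exact Nat.primeFactors_mono hgN hN0
    · intro r _ hr
      rw [Finsupp.notMem_support_iff] at hr
      rw [hr]
      simp
  have h2 : ∀ r ∈ N.primeFactors, (g.factorization r : ℝ) * Real.log r ≤
      (if r = 2 then Real.log 2 else 0) +
        (if (r ≠ 2 ∧ r ∣ m) ∨ (r = 2 ∧ 4 ∣ m ∧ 4 ∣ N) then
          (N.factorization r : ℝ) * Real.log r else 0) := by
    intro r hr
    have hrp : r.Prime := Nat.prime_of_mem_primeFactors hr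
    have hlog : 0 ≤ Real.log r := Real.log_natCast_nonneg r
    have hlog2 : 0 ≤ Real.log 2 := Real.log_nonneg (by norm_num)
    have hle : (g.factorization r : ℝ) ≤ (N.factorization r : ℝ) := by
      exact_mod_cast (Nat.factorization_le_iff_dvd hg0 hN0).2 hgN r
    by_cases hc : (r ≠ 2 ∧ r ∣ m) ∨ (r = 2 ∧ 4 ∣ m ∧ 4 ∣ N)
    · rw [if_pos hc]
      have h3 : (0 : ℝ) ≤ (if r = 2 then Real.log 2 else 0) := by
        split_ifs
        · exact hlog2
        · exact le_rfl
      have h4 := mul_le_mul_of_nonneg_right hle hlog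
      linarith
    · rw [if_neg hc, add_zero]
      by_cases hr2 : r = 2
      · subst hr2
        rw [if_pos rfl]
        have h5 : g.factorization 2 ≤ 1 := by
          by_contra hcon
          push Not at hcon
          have h6 : 2 ^ 2 ∣ g := (Nat.Prime.pow_dvd_iff_le_factorization hrp hg0).2 hcon
          apply hc
          right
          exact ⟨rfl, by simpa using h6.trans hgm, by simpa using h6.trans hgN⟩
        have h7 : (g.factorization 2 : ℝ) ≤ 1 := by exact_mod_cast h5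
        have h8 := mul_le_mul_of_nonneg_right h7 hlog2
        push_cast at h8 ⊢
        linarith
      · rw [if_neg hr2]
        have h5 : ¬ r ∣ g := by
          intro h6
          exact hc (Or.inl ⟨hr2, h6.trans hgm⟩)
        rw [Nat.factorization_eq_zero_of_not_dvd h5]
        simp
  rw [h1]
  refine (Finset.sum_le_sum h2).trans ?_
  rw [Finset.sum_add_distrib]
  refine add_le_add ?_ le_rfl
  rw [Finset.sum_ite_eq']
  split_ifs
  · exact le_rfl
  · exact Real.log_nonneg (by norm_num)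

theorem ker_gcd {ι : Type} (I : Finset ι) (m : ι → ℕ) (ω : ι → ℝ) (hω : ∀ i ∈ I, 0 ≤ ω i) (N : ℕ)
    (hN : 1 ≤ N) (M : ℝ) (hM0 : 0 ≤ M)
    (hM : ∀ e : ℕ, (e = 4 ∨ (e.Prime ∧ e ≠ 2)) → e ∣ N →
      ∑ i ∈ I.filter (fun i => e ∣ m i), ω i ≤ M) :
    ∑ i ∈ I, ω i * Real.log (Nat.gcd (m i) N : ℝ) ≤
      M * Real.log N + (∑ i ∈ I, ω i) * Real.log 2 := by
  have hN0 : N ≠ 0 := by omega
  have hlogN : Real.log N = ∑ r ∈ N.primeFactors, (N.factorization r : ℝ) * Real.log r := by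
    rw [Real.log_nat_eq_sum_factorization, Finsupp.sum, Nat.support_factorization]
  have h1 : ∀ i ∈ I, ω i * Real.log (Nat.gcd (m i) N : ℝ) ≤ ω i * Real.log 2 +
      ∑ r ∈ N.primeFactors, (if (r ≠ 2 ∧ r ∣ m i) ∨ (r = 2 ∧ 4 ∣ m i ∧ 4 ∣ N) then ω i else 0) *
        ((N.factorization r : ℝ) * Real.log r) := by
    intro i hi
    have h2 := mul_le_mul_of_nonneg_left (KerG_log N (m i) hN) (hω i hi)
    rw [mul_add, Finset.mul_sum] at h2
    refine h2.trans (le_of_eq ?_)
    congr 1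
    refine Finset.sum_congr rfl fun r _ => ?_
    split_ifs
    · rfl
    · rw [mul_zero, zero_mul]
  refine (Finset.sum_le_sum h1).trans ?_
  rw [Finset.sum_add_distrib, Finset.sum_comm, ← Finset.sum_mul, add_comm]
  refine add_le_add ?_ le_rfl
  rw [hlogN, Finset.mul_sum]
  refine Finset.sum_le_sum fun r hr => ?_
  rw [← Finset.sum_mul]
  have hrp : r.Prime := Nat.prime_of_mem_primeFactors hr
  have hrN : r ∣ N := Nat.dvd_of_mem_primeFactors hr
  refine mul_le_mul_of_nonneg_right ?_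
    (mul_nonneg (Nat.cast_nonneg _) (Real.log_natCast_nonneg r))
  rw [← Finset.sum_filter]
  by_cases hr2 : r = 2
  · by_cases h4 : 4 ∣ N
    · refine le_trans (le_of_eq ?_) (hM 4 (Or.inl rfl) h4)
      congr 1
      refine Finset.filter_congr fun i _ => ?_
      constructor
      · rintro (⟨h5, -⟩ | ⟨-, h5, -⟩)
        · exact absurd hr2 h5
        · exact h5
      · intro h5
        exact Or.inr ⟨hr2, h5, h4⟩
    · refine le_trans (le_of_eq ?_) hM0
      refine Finset.sum_eq_zero fun i hi => ?_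
      rw [Finset.mem_filter] at hi
      rcases hi.2 with ⟨h5, -⟩ | ⟨-, -, h5⟩
      · exact absurd hr2 h5
      · exact absurd h5 h4
  · refine le_trans (le_of_eq ?_) (hM r (Or.inr ⟨hrp, hr2⟩) hrN)
    congr 1
    refine Finset.filter_congr fun i _ => ?_
    constructor
    · rintro (⟨-, h5⟩ | ⟨h5, -⟩)
      · exact h5
      · exact absurd h5 hr2
    · intro h5
      exact Or.inl ⟨hr2, h5⟩

end Pool.Agent.TM2
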