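import Mathlib
import Pool.Agent.TM2.Defs
import Pool.Agent.TM2.KerG

/-!
# NumP (size 4)

We may assume `ε ≤ 1`. Let `Z = ∑_{l ∈ F} ln l`, `A = 2 (1 + ε) / ε * ...` large (`A ≥ 4 (1 + ε) / ε`), `η = ε / (40 C)`, `R0` large (`R ≥ 3 C`, ...).
`q i = ⌊(Z - 2 C) / (s i + C)⌋₊`: then `q (s i + C) + C ≤ Z - C < Z`, and (all `s i ≤ R`) `q i ≥ (Z - 2 C) / (s i + C) - 1 ≥ Y / (s i + C)` with
`Y = Z - 3 C - R ≥ Z / (1 + ε)` (as `Z ≥ A R`); in particular `q i ≥ 1`, and `1 / q i ≤ (1 + ε) (s i + C) / Z`. So for every set `I` of indices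
`∑_{I} 1 / q i ≤ (1 + ε) (∑_{I} s i + j C) / Z`; for all indices this is `≤ (1 + ε) 2 R / (A R) ≤ 1` (`j C ≤ C η R ≤ R`; `j ≤ η R` since `log Z ≥ 0`).
Logarithms of the weights: `p i = 2`: `log C + s i`. `p i ≠ 2`: `(1 / (2 q)) ∑_l log gcd (m i, N_l - 1) + (1 / (2 q)) log q! + (log C + s i) / 2`, and
`log q! ≤ q log q ≤ q log Z` (`q ≤ Z`). Sum over `i`:
`≤ ∑_{p = 2} s i + (1/2) ∑_{p ≠ 2} s i + j (log C + log Z) + (1/2) ∑_l ∑_{p i ≠ 2} (1 / q i) log gcd (m i, N_l - 1)`.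
The first two terms are `(1/2) ∑ s i + (1/2) ∑_{p = 2} s i ≤ R / 2 + R / 6`. For each `l ∈ F` apply `ker_gcd` with `N = N_l - 1 ≥ 1`,
`ω i = 1 / q i`, `I = {p i ≠ 2}`, `M = (1 + ε) (2/9 R + j C) / Z`; sum over `l` (`log (N_l - 1) ≤ ln l`): `M * Z + (∑ ω) * F.card * log 2`, and
`F.card ≤ η Z` (`1 ≤ η ln l`), `∑ ω ≤ (1 + ε) (R + j C) / Z`. Total: `(2/3) R + (1/2) (1 + ε) (2/9 R + j C) + (1/2) (1 + ε) η (R + j C) + j (log C + log Z)
≤ (7/9) R + ε R` (`j (1 + log Z) ≤ η R`, `log C ≤ C`, `j C ≤ C η R`).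
-/

namespace Pool.Agent.TM2

open NumberField IsDedekindDomain Pool.Agent.H7.Abc Pool.Agent.AbcE Pool.Agent.TMS

private theorem nump_absNorm_two {K : Type} [Field K] [NumberField K]
    (l : HeightOneSpectrum (𝓞 K)) : 2 ≤ Ideal.absNorm l.asIdeal := by
  have h0 : Ideal.absNorm l.asIdeal ≠ 0 := by
    rw [Ne, Ideal.absNorm_eq_zero_iff]
    exact l.ne_bot
  have h1 : Ideal.absNorm l.asIdeal ≠ 1 := by
    rw [Ne, Ideal.absNorm_eq_one_iff]
    exact l.isPrime.ne_top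
  omega

private theorem nump_log_fact (q : ℕ) (Z : ℝ) (hq : 1 ≤ q) (hqZ : (q : ℝ) ≤ Z) :
    Real.log (q.factorial : ℝ) ≤ q * Real.log Z := by
  have hq0 : (0 : ℝ) < q := by exact_mod_cast hq
  have h1 : (q.factorial : ℝ) ≤ (q : ℝ) ^ q := by exact_mod_cast Nat.factorial_le_pow q
  have h2 : (0 : ℝ) < (q.factorial : ℝ) := by exact_mod_cast q.factorial_pos
  calc Real.log (q.factorial : ℝ) ≤ Real.log ((q : ℝ) ^ q) := Real.log_le_log h2 h1
    _ = q * Real.log q := by rw [Real.log_pow]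
    _ ≤ q * Real.log Z := by
        apply mul_le_mul_of_nonneg_left (Real.log_le_log hq0 hqZ) hq0.le

private theorem nump_log_wgt {K : Type} [Field K] [NumberField K] (C : ℝ) (hC : 1 ≤ C)
    (F : Finset (HeightOneSpectrum (𝓞 K))) (p : Fin 3) (hp : p ≠ 2) (s m q : ℕ) (hq : 1 ≤ q)
    (Z : ℝ) (hqZ : (q : ℝ) ≤ Z) :
    0 < wgt C F p s m q ∧ Real.log (wgt C F p s m q) ≤
      (1/2) * ((1 / (q:ℝ)) * ∑ l ∈ F, Real.log (Nat.gcd m (Ideal.absNorm l.asIdeal - 1) : ℝ)) +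
      (1/2) * Real.log Z + (Real.log C + s) / 2 := by
  have hq0 : (0 : ℝ) < q := by exact_mod_cast hq
  have hC0 : 0 < C := by linarith
  have hg : ∀ l ∈ F, (0:ℝ) < (Nat.gcd m (Ideal.absNorm l.asIdeal - 1) : ℝ) := by
    intro l _
    have h2 := nump_absNorm_two l
    have h3 : 0 < Nat.gcd m (Ideal.absNorm l.asIdeal - 1) := Nat.gcd_pos_of_pos_right _ (by omega)
    exact_mod_cast h3
  have hP : 0 < ∏ l ∈ F, (Nat.gcd m (Ideal.absNorm l.asIdeal - 1) : ℝ) := Finset.prod_pos hg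
  have hf : (0:ℝ) < (q.factorial : ℝ) := by exact_mod_cast q.factorial_pos
  have hE : 0 < C * Real.exp s := mul_pos hC0 (Real.exp_pos _)
  have hB : 0 < (∏ l ∈ F, (Nat.gcd m (Ideal.absNorm l.asIdeal - 1) : ℝ)) *
      ((q.factorial : ℝ) * (C * Real.exp s) ^ q) := mul_pos hP (mul_pos hf (pow_pos hE q))
  have hw : wgt C F p s m q = ((∏ l ∈ F, (Nat.gcd m (Ideal.absNorm l.asIdeal - 1) : ℝ)) *
      ((q.factorial : ℝ) * (C * Real.exp s) ^ q)) ^ (1 / (2 * (q : ℝ))) := by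
    unfold wgt
    rw [if_neg hp]
  rw [hw]
  refine ⟨Real.rpow_pos_of_pos hB _, ?_⟩
  rw [Real.log_rpow hB, Real.log_mul hP.ne' (mul_pos hf (pow_pos hE q)).ne',
    Real.log_mul hf.ne' (pow_pos hE q).ne', Real.log_pow, Real.log_mul hC0.ne' (Real.exp_pos _).ne',
    Real.log_exp, Real.log_prod (fun l hl => (hg l hl).ne')]
  have h1 := nump_log_fact q Z hq hqZ
  set G := ∑ l ∈ F, Real.log (Nat.gcd m (Ideal.absNorm l.asIdeal - 1) : ℝ)
  have h2 : 1 / (2 * (q:ℝ)) * (G + (Real.log (q.factorial:ℝ) + q * (Real.log C + s)))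
      = (1/2) * ((1/(q:ℝ)) * G) + (1/(2*(q:ℝ))) * Real.log (q.factorial : ℝ) + (Real.log C + s)/2 := by
    field_simp
    ring
  rw [h2]
  have h3 : (1/(2*(q:ℝ))) * Real.log (q.factorial : ℝ) ≤ (1/2) * Real.log Z := by
    calc (1/(2*(q:ℝ))) * Real.log (q.factorial : ℝ) ≤ (1/(2*(q:ℝ))) * (q * Real.log Z) :=
          mul_le_mul_of_nonneg_left h1 (by positivity)
      _ = (1/2) * Real.log Z := by field_simp
  linarith

private theorem nump_final (R C ε J lZ lC X S S2 _Z : ℝ) (hR : 1 ≤ R) (hC : 1 ≤ C) (hε : 0 < ε)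
    (hε1 : ε ≤ 1) (hJ0 : 0 ≤ J) (hJC : J * C ≤ ε / 40 * R) (hJZ : J * lZ ≤ ε / 40 * R)
    (hlC : lC ≤ C) (hS : S ≤ R) (hS2 : S2 ≤ R / 3)
    (hX : X ≤ (1 + ε) * (2 / 9 * R + J * C) + (1 + ε) * (R + J * C) * (ε / 40)) :
    (1/2) * S + (1/2) * S2 + J * lC + J * lZ + (1/2) * X ≤ (7/9 + ε) * R := by
  have h1 : J * lC ≤ ε / 40 * R := (mul_le_mul_of_nonneg_left hlC hJ0).trans hJC
  have h2 : (1 + ε) * (2 / 9 * R + J * C) ≤ (1+ε) * (2/9*R) + 2 * (ε / 40 * R) := by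
    have h3 : (1+ε) * (J*C) ≤ 2 * (ε / 40 * R) := by
      have h4 : 0 ≤ J * C := by positivity
      calc (1+ε) * (J*C) ≤ 2 * (J * C) := by nlinarith
        _ ≤ _ := by linarith
    nlinarith
  have hR0 : 0 < R := by linarith
  have h5 : (1 + ε) * (R + J * C) * (ε / 40) ≤ 4 * R * (ε / 40) := by
    apply mul_le_mul_of_nonneg_right _ (by positivity)
    have h6 : J * C ≤ R := by nlinarith
    have h7 : 0 ≤ J * C := by positivity
    nlinarith
  have h8 : 0 < ε * R := by positivity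
  nlinarith

theorem num_pure {K : Type} [Field K] [NumberField K] (C ε : ℝ) (hC : 1 ≤ C) (hε : 0 < ε) :
    ∃ A η R0 : ℝ, 1 ≤ A ∧ 0 < η ∧ η ≤ 1 ∧ 1 ≤ R0 ∧
      ∀ (R : ℝ) (F : Finset (HeightOneSpectrum (𝓞 K))) (j : ℕ) (p : Fin j → Fin 3)
      (s m : Fin j → ℕ), R0 ≤ R → A * R ≤ ∑ l ∈ F, ln l → (∀ l ∈ F, 1 ≤ η * ln l) →
      ((j : ℝ) + 1) * (1 + Real.log (∑ l ∈ F, ln l)) ≤ η * R →
      ∑ i, (s i : ℝ) ≤ R → ∑ i ∈ Finset.univ.filter (fun i => p i = 2), (s i : ℝ) ≤ R / 3 →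
      (∀ e : ℕ, (e = 4 ∨ (e.Prime ∧ e ≠ 2)) → (∃ l ∈ F, e ∣ Ideal.absNorm l.asIdeal - 1) →
        ∑ i ∈ Finset.univ.filter (fun i => p i ≠ 2 ∧ e ∣ m i), (s i : ℝ) ≤ 2 / 9 * R) →
      ∃ q : Fin j → ℕ, (∀ i, 1 ≤ q i ∧ (q i : ℝ) * (s i + C) + C < ∑ l ∈ F, ln l) ∧
        (∑ i ∈ Finset.univ.filter (fun i => p i ≠ 2), (1 / (q i : ℝ)) ≤ 1) ∧
        ∏ i, wgt C F (p i) (s i) (m i) (q i) ≤ Real.exp ((7 / 9 + ε) * R) := by
  classical
  set ε' : ℝ := min ε 1 with hε'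
  have he0 : 0 < ε' := lt_min hε one_pos
  have he1 : ε' ≤ 1 := min_le_right _ _
  have heε : ε' ≤ ε := min_le_left _ _
  have hC0 : 0 < C := by linarith
  have hA8 : 8 ≤ 4 * (1 + ε') / ε' := by
    rw [le_div_iff₀ he0]; linarith
  refine ⟨4 * (1 + ε') / ε', ε' / (40 * C), max 1 (3 * C), by linarith, by positivity, ?_,
    le_max_left _ _, ?_⟩
  · rw [div_le_one (by positivity)]; linarith
  intro R F j p s m hR hAZ hF hJ hs hs2 hs29
  set Z : ℝ := ∑ l ∈ F, ln l with hZdef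
  have hR1 : 1 ≤ R := (le_max_left _ _).trans hR
  have hR3 : 3 * C ≤ R := (le_max_right _ _).trans hR
  have hR0 : 0 < R := by linarith
  have hZ8 : 8 * R ≤ Z := (mul_le_mul_of_nonneg_right hA8 hR0.le).trans hAZ
  have hZ0 : 0 < Z := by linarith
  have hZ1 : 1 ≤ Z := by linarith
  have hlZ : 0 ≤ Real.log Z := Real.log_nonneg hZ1
  have hJ0 : (0:ℝ) ≤ (j:ℝ) := Nat.cast_nonneg j
  have hη0 : 0 < ε' / (40 * C) := by positivity
  have hCη : C * (ε' / (40 * C)) = ε' / 40 := by field_simp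
  have hη40 : ε' / (40 * C) ≤ ε' / 40 := by
    rw [← hCη]
    nlinarith
  have hJL : (j:ℝ) + j * Real.log Z ≤ ε' / (40 * C) * R := by nlinarith
  have hJη : (j:ℝ) ≤ ε' / (40 * C) * R := by
    have : 0 ≤ (j:ℝ) * Real.log Z := mul_nonneg hJ0 hlZ
    linarith
  have hJlog : (j:ℝ) * Real.log Z ≤ ε' / 40 * R := by
    have h1 : ε' / (40 * C) * R ≤ ε' / 40 * R := mul_le_mul_of_nonneg_right hη40 hR0.le
    linarith
  have hJC : (j:ℝ) * C ≤ ε' / 40 * R := by
    calc (j:ℝ) * C ≤ (ε' / (40 * C) * R) * C := mul_le_mul_of_nonneg_right hJη hC0.le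
      _ = (C * (ε' / (40 * C))) * R := by ring
      _ = ε' / 40 * R := by rw [hCη]
  have hJCR : (j:ℝ) * C ≤ R := by nlinarith
  have hsR : ∀ i, (s i : ℝ) ≤ R := fun i =>
    (Finset.single_le_sum (f := fun i => (s i : ℝ)) (fun i _ => Nat.cast_nonneg _)
      (Finset.mem_univ i)).trans hs
  have hs0 : ∀ i, (0:ℝ) ≤ (s i : ℝ) := fun i => Nat.cast_nonneg _
  have hd : ∀ i, 0 < (s i : ℝ) + C := fun i => by have := hs0 i; linarith
  set q : Fin j → ℕ := fun i => ⌊(Z - 2 * C) / (s i + C)⌋₊ with hq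
  have hZ2 : 0 ≤ Z - 2 * C := by linarith
  have hqup : ∀ i, (q i : ℝ) * (s i + C) ≤ Z - 2 * C := fun i => by
    have h1 : (q i : ℝ) ≤ (Z - 2 * C) / (s i + C) := Nat.floor_le (div_nonneg hZ2 (hd i).le)
    rwa [le_div_iff₀ (hd i)] at h1
  have hY : Z / (1 + ε') ≤ Z - 3 * C - R := by
    rw [div_le_iff₀ (by linarith)]
    have h1 : 4 * (1 + ε') * R ≤ ε' * Z := by
      have h2 := hAZ
      rw [div_mul_eq_mul_div, div_le_iff₀ he0] at h2
      linarith
    nlinarith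
  have hY0 : 0 < Z - 3 * C - R := lt_of_lt_of_le (by positivity) hY
  have hqlo : ∀ i, (Z - 3 * C - R) / (s i + C) ≤ q i := fun i => by
    have h1 : (Z - 2 * C) / (s i + C) < q i + 1 := Nat.lt_floor_add_one _
    rw [div_lt_iff₀ (hd i)] at h1
    rw [div_le_iff₀ (hd i)]
    have h2 := hsR i
    nlinarith
  have hqpos : ∀ i, (0:ℝ) < q i := fun i => lt_of_lt_of_le (div_pos hY0 (hd i)) (hqlo i)
  have hq1 : ∀ i, 1 ≤ q i := fun i => by exact_mod_cast hqpos i
  have hinv : ∀ i, 1 / (q i : ℝ) ≤ (1 + ε') * (s i + C) / Z := fun i => by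
    have h1 : Z / (1 + ε') / (s i + C) ≤ q i :=
      (div_le_div_of_nonneg_right hY (hd i).le).trans (hqlo i)
    have h2 : (1 + ε') * (s i + C) / Z = 1 / (Z / (1 + ε') / (s i + C)) := by
      have := (hd i).ne'
      field_simp
    rw [h2]
    exact one_div_le_one_div_of_le (div_pos (by positivity) (hd i)) h1
  have hsumInv : ∀ I : Finset (Fin j), ∑ i ∈ I, (1 / (q i : ℝ)) ≤
      (1 + ε') * (∑ i ∈ I, (s i : ℝ) + j * C) / Z := fun I => by
    have hcard : (I.card : ℝ) ≤ j := by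
      have h1 := Finset.card_le_univ I
      rw [Fintype.card_fin] at h1
      exact_mod_cast h1
    calc ∑ i ∈ I, (1 / (q i : ℝ)) ≤ ∑ i ∈ I, (1 + ε') * (s i + C) / Z :=
          Finset.sum_le_sum (fun i _ => hinv i)
      _ = (1 + ε') * (∑ i ∈ I, (s i : ℝ) + I.card * C) / Z := by
          rw [← Finset.sum_div, ← Finset.mul_sum, Finset.sum_add_distrib, Finset.sum_const,
            nsmul_eq_mul]
      _ ≤ _ := by
          apply div_le_div_of_nonneg_right _ hZ0.le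
          apply mul_le_mul_of_nonneg_left _ (by linarith)
          have := mul_le_mul_of_nonneg_right hcard hC0.le
          linarith
  have hqZ : ∀ i, (q i : ℝ) ≤ Z := fun i => by
    have h1 := hqup i
    have h2 := hs0 i
    have h3 := (hqpos i).le
    nlinarith
  have hsub : ∀ I : Finset (Fin j), ∑ i ∈ I, (s i : ℝ) ≤ R := fun I =>
    (Finset.sum_le_sum_of_subset_of_nonneg (Finset.subset_univ I)
      (fun i _ _ => hs0 i)).trans hs
  refine ⟨q, fun i => ⟨hq1 i, ?_⟩, ?_, ?_⟩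
  · have h1 := hqup i
    linarith
  · refine (hsumInv _).trans ?_
    rw [div_le_one hZ0]
    have h1 := hsub (Finset.univ.filter (fun i => p i ≠ 2))
    have h2 : 4 * (1 + ε') * R ≤ Z := by
      have h3 : 4 * (1 + ε') ≤ 4 * (1 + ε') / ε' := by
        rw [le_div_iff₀ he0]; nlinarith
      exact (mul_le_mul_of_nonneg_right h3 hR0.le).trans hAZ
    nlinarith
  -- the main estimate
  set I : Finset (Fin j) := Finset.univ.filter (fun i => p i ≠ 2) with hI
  set I2 : Finset (Fin j) := Finset.univ.filter (fun i => p i = 2) with hI2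
  set G : Fin j → ℝ := fun i =>
    ∑ l ∈ F, Real.log (Nat.gcd (m i) (Ideal.absNorm l.asIdeal - 1) : ℝ) with hG
  have hw2 : ∀ i ∈ I2, 0 < wgt C F (p i) (s i) (m i) (q i) ∧
      Real.log (wgt C F (p i) (s i) (m i) (q i)) = Real.log C + s i := by
    intro i hi
    have hp : p i = 2 := (Finset.mem_filter.1 hi).2
    have hw : wgt C F (p i) (s i) (m i) (q i) = C * Real.exp (s i) := by
      unfold wgt; rw [if_pos hp]
    rw [hw]
    refine ⟨mul_pos hC0 (Real.exp_pos _), ?_⟩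
    rw [Real.log_mul hC0.ne' (Real.exp_pos _).ne', Real.log_exp]
  have hw1 : ∀ i ∈ I, 0 < wgt C F (p i) (s i) (m i) (q i) ∧
      Real.log (wgt C F (p i) (s i) (m i) (q i)) ≤
      (1/2) * ((1 / (q i:ℝ)) * G i) + (1/2) * Real.log Z + (Real.log C + s i) / 2 := by
    intro i hi
    exact nump_log_wgt C hC F (p i) (Finset.mem_filter.1 hi).2 (s i) (m i) (q i) (hq1 i) Z (hqZ i)
  have hpos : ∀ i, 0 < wgt C F (p i) (s i) (m i) (q i) := fun i => by
    by_cases h : p i = 2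
    · exact (hw2 i (Finset.mem_filter.2 ⟨Finset.mem_univ i, h⟩)).1
    · exact (hw1 i (Finset.mem_filter.2 ⟨Finset.mem_univ i, h⟩)).1
  have hsplit : ∀ f : Fin j → ℝ, ∑ i, f i = ∑ i ∈ I2, f i + ∑ i ∈ I, f i := fun f =>
    (Finset.sum_filter_add_sum_filter_not Finset.univ (fun i => p i = 2) f).symm
  have hlC0 : 0 ≤ Real.log C := Real.log_nonneg hC
  have hlCC : Real.log C ≤ C := (Real.log_le_sub_one_of_pos hC0).trans (by linarith)
  have hgcd : ∑ i ∈ I, (1 / (q i:ℝ)) * G i ≤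
      (1 + ε') * (2 / 9 * R + j * C) + (1 + ε') * (R + j * C) * (ε' / 40) := by
    set M : ℝ := (1 + ε') * (2 / 9 * R + j * C) / Z with hM
    have hM0 : 0 ≤ M := by positivity
    have hω0 : ∀ i ∈ I, (0:ℝ) ≤ 1 / (q i : ℝ) := fun i _ => by
      have := hqpos i
      positivity
    have hl : ∀ l ∈ F, ∑ i ∈ I, (1 / (q i:ℝ)) *
        Real.log (Nat.gcd (m i) (Ideal.absNorm l.asIdeal - 1) : ℝ) ≤
        M * ln l + (∑ i ∈ I, (1 / (q i:ℝ))) * Real.log 2 := by
      intro l hlF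
      have hN2 := nump_absNorm_two l
      have hker := ker_gcd I m (fun i => 1 / (q i : ℝ)) hω0 (Ideal.absNorm l.asIdeal - 1)
        (by omega) M hM0 (fun e he heN => by
          have h1 : I.filter (fun i => e ∣ m i) =
              Finset.univ.filter (fun i => p i ≠ 2 ∧ e ∣ m i) := by
            rw [hI, Finset.filter_filter]
          refine (hsumInv _).trans ?_
          rw [h1]
          have h2 := hs29 e he ⟨l, hlF, heN⟩
          rw [hM]
          apply div_le_div_of_nonneg_right _ hZ0.le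
          apply mul_le_mul_of_nonneg_left _ (by linarith)
          linarith)
      refine hker.trans ?_
      have h3 : Real.log ((Ideal.absNorm l.asIdeal - 1 : ℕ) : ℝ) ≤ ln l := by
        unfold ln
        apply Real.log_le_log
        · have : 0 < Ideal.absNorm l.asIdeal - 1 := by omega
          exact_mod_cast this
        · exact_mod_cast Nat.sub_le _ _
      have h4 := mul_le_mul_of_nonneg_left h3 hM0
      linarith
    have hcardF : (F.card : ℝ) ≤ ε' / (40 * C) * Z := by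
      calc (F.card : ℝ) = ∑ l ∈ F, (1:ℝ) := by simp
        _ ≤ ∑ l ∈ F, ε' / (40 * C) * ln l := Finset.sum_le_sum hF
        _ = ε' / (40 * C) * Z := by rw [← Finset.mul_sum]
    have hω := hsumInv I
    have hωR : ∑ i ∈ I, (1 / (q i : ℝ)) ≤ (1 + ε') * (R + j * C) / Z := by
      refine hω.trans ?_
      apply div_le_div_of_nonneg_right _ hZ0.le
      apply mul_le_mul_of_nonneg_left _ (by linarith)
      have := hsub I
      linarith
    have hωn : 0 ≤ ∑ i ∈ I, (1 / (q i : ℝ)) := Finset.sum_nonneg hω0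
    have hlog2 : Real.log 2 ≤ 1 := by
      have := Real.log_two_lt_d9
      linarith
    have hlog20 : 0 ≤ Real.log 2 := Real.log_nonneg (by norm_num)
    calc ∑ i ∈ I, (1 / (q i:ℝ)) * G i
        = ∑ l ∈ F, ∑ i ∈ I, (1 / (q i:ℝ)) *
            Real.log (Nat.gcd (m i) (Ideal.absNorm l.asIdeal - 1) : ℝ) := by
          rw [Finset.sum_comm]
          exact Finset.sum_congr rfl (fun i _ => by rw [hG, Finset.mul_sum])
      _ ≤ ∑ l ∈ F, (M * ln l + (∑ i ∈ I, (1 / (q i:ℝ))) * Real.log 2) := Finset.sum_le_sum hl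
      _ = M * Z + F.card * ((∑ i ∈ I, (1 / (q i:ℝ))) * Real.log 2) := by
          rw [Finset.sum_add_distrib, ← Finset.mul_sum, Finset.sum_const, nsmul_eq_mul]
      _ ≤ (1 + ε') * (2 / 9 * R + j * C) + (1 + ε') * (R + j * C) * (ε' / 40) := by
          have h1 : M * Z = (1 + ε') * (2 / 9 * R + j * C) := by
            rw [hM, div_mul_cancel₀ _ hZ0.ne']
          have h2 : (∑ i ∈ I, (1 / (q i:ℝ))) * Real.log 2 ≤ (1 + ε') * (R + j * C) / Z := by
            calc (∑ i ∈ I, (1 / (q i:ℝ))) * Real.log 2 ≤ (∑ i ∈ I, (1 / (q i:ℝ))) * 1 :=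
                  mul_le_mul_of_nonneg_left hlog2 hωn
              _ ≤ _ := by rw [mul_one]; exact hωR
          have h3 : F.card * ((∑ i ∈ I, (1 / (q i:ℝ))) * Real.log 2) ≤
              (ε' / (40 * C) * Z) * ((1 + ε') * (R + j * C) / Z) := by
            apply mul_le_mul hcardF h2 (mul_nonneg hωn hlog20) (by positivity)
          have h4 : (ε' / (40 * C) * Z) * ((1 + ε') * (R + j * C) / Z) =
              (ε' / (40 * C)) * ((1 + ε') * (R + j * C)) := by
            field_simp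
          have h5 : (ε' / (40 * C)) * ((1 + ε') * (R + j * C)) ≤
              (ε' / 40) * ((1 + ε') * (R + j * C)) :=
            mul_le_mul_of_nonneg_right hη40 (by positivity)
          rw [h1]
          linarith
  have hsum : ∑ i, Real.log (wgt C F (p i) (s i) (m i) (q i)) ≤
      (1/2) * (∑ i, (s i : ℝ)) + (1/2) * (∑ i ∈ I2, (s i : ℝ)) + j * Real.log C +
        j * Real.log Z + (1/2) * (∑ i ∈ I, (1 / (q i:ℝ)) * G i) := by
    rw [hsplit]
    have h1 : ∑ i ∈ I2, Real.log (wgt C F (p i) (s i) (m i) (q i)) =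
        I2.card * Real.log C + ∑ i ∈ I2, (s i : ℝ) := by
      rw [Finset.sum_congr rfl (fun i hi => (hw2 i hi).2), Finset.sum_add_distrib,
        Finset.sum_const, nsmul_eq_mul]
    have h2 : ∑ i ∈ I, Real.log (wgt C F (p i) (s i) (m i) (q i)) ≤
        (1/2) * (∑ i ∈ I, (1 / (q i:ℝ)) * G i) + I.card * ((1/2) * Real.log Z) +
          (I.card * Real.log C + ∑ i ∈ I, (s i : ℝ)) / 2 := by
      calc ∑ i ∈ I, Real.log (wgt C F (p i) (s i) (m i) (q i))
          ≤ ∑ i ∈ I, ((1/2) * ((1 / (q i:ℝ)) * G i) + (1/2) * Real.log Z +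
              (Real.log C + s i) / 2) := Finset.sum_le_sum (fun i hi => (hw1 i hi).2)
        _ = _ := by
          rw [Finset.sum_add_distrib, Finset.sum_add_distrib, ← Finset.mul_sum, Finset.sum_const,
            nsmul_eq_mul, ← Finset.sum_div, Finset.sum_add_distrib, Finset.sum_const, nsmul_eq_mul]
    have h3 : (I2.card : ℝ) + I.card = j := by
      have h4 : I2.card + I.card = j := by
        have := Finset.card_filter_add_card_filter_not (s := (Finset.univ : Finset (Fin j)))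
          (fun i => p i = 2)
        rw [Finset.card_univ, Fintype.card_fin] at this
        exact this
      exact_mod_cast h4
    have h5 : (0:ℝ) ≤ I2.card := Nat.cast_nonneg _
    have h6 : (0:ℝ) ≤ I.card := Nat.cast_nonneg _
    rw [h1, hsplit (fun i => (s i : ℝ))]
    have h7 : (I2.card : ℝ) * Real.log C + I.card * Real.log C = j * Real.log C := by
      rw [← add_mul, h3]
    have h8 : (I2.card : ℝ) * Real.log Z + I.card * Real.log Z = j * Real.log Z := by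
      rw [← add_mul, h3]
    have h9 : 0 ≤ (I2.card : ℝ) * Real.log Z := mul_nonneg h5 hlZ
    have h10 : 0 ≤ (I.card : ℝ) * Real.log Z := mul_nonneg h6 hlZ
    have h11 : 0 ≤ (I.card : ℝ) * Real.log C := mul_nonneg h6 hlC0
    linarith
  have hfin := nump_final R C ε' j (Real.log Z) (Real.log C)
    (∑ i ∈ I, (1 / (q i:ℝ)) * G i) (∑ i, (s i : ℝ)) (∑ i ∈ I2, (s i : ℝ)) Z hR1 hC he0 he1 hJ0
    hJC hJlog hlCC hs hs2 hgcd
  have hprod : ∏ i, wgt C F (p i) (s i) (m i) (q i) =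
      Real.exp (∑ i, Real.log (wgt C F (p i) (s i) (m i) (q i))) := by
    rw [Real.exp_sum]
    exact Finset.prod_congr rfl (fun i _ => (Real.exp_log (hpos i)).symm)
  rw [hprod]
  apply Real.exp_le_exp.2
  have hlast : (7 / 9 + ε') * R ≤ (7 / 9 + ε) * R :=
    mul_le_mul_of_nonneg_right (by linarith) hR0.le
  linarith

end Pool.Agent.TM2
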