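import Mathlib
import Pool.Agent.TM2.Defs

/-!
# DivE (size 3)

(1) `x`, `1 - x` are `F`-units: `Set.range v = supp x` (`Dat.lst`) and `v i ∉ F`, so `l ∈ F` is not in the support. `β (v i)` is an
`F`-unit by `g.hβ` and `hb` (`g.base (g.cl (v i)) ⌊ln (v i)⌋₊ = g.base (c i) (s i)` by `Dat.hc`, `Dat.hs`).
(2) Let `u` be a place different from all the bases. `ord u (bp g v a) = ∑ i, a i * ord u (β (v i)) = ∑ i, a i * [u = v i]`
(`ord_prod'`, `ord_zpow'`). If `u ∉ supp x` then `ord u x = 0`, `ord u (1 - x) = 0` and `u ≠ v i` for all `i`: the sums are `0`.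
If `u = v i` (exactly one `i`, `v` is injective): `ord u (x * bp g v (ex1 p m)) = ord u x + ex1 p m i`: for `p i = 0`: `ord u x = mlt x u ≡ m i` and
`ex1 = -m i`; for `p i = 2`: `ord u x = -mlt x u`, `ex1 = m i`; for `p i = 1`: `ord u x = 0`, `ex1 = 0` (`mlt_zero`, `mlt_one`, `mlt_two`).
Similarly for `1 - x` (`ord u (1 - x) = ord u (x - 1)`, `ord_neg'`): `p i = 0`: `0 + 0`; `p i = 1`: `mlt - m i`; `p i = 2`: `-mlt + m i`.
-/

namespace Pool.Agent.TM2

open NumberField IsDedekindDomain Pool.Agent.H7.Abc Pool.Agent.AbcE Pool.Agent.TMS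

private theorem de_one_sub {K : Type} [Field K] [NumberField K] (u : HeightOneSpectrum (𝓞 K))
    (x : K) : ord u (1 - x) = ord u (x - 1) := by
  rw [← neg_sub, ord_neg']

private theorem de_bp_ne {K : Type} [Field K] [NumberField K] (g : Gens K) {j : ℕ}
    (v : Fin j → HeightOneSpectrum (𝓞 K)) (a : Fin j → ℤ) : bp g v a ≠ 0 :=
  Finset.prod_ne_zero_iff.2 fun i _ => zpow_ne_zero _ (g.hβ0 (v i))

private theorem de_ord_bp {K : Type} [Field K] [NumberField K] (g : Gens K) {j : ℕ}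
    (v : Fin j → HeightOneSpectrum (𝓞 K)) (a : Fin j → ℤ) (u : HeightOneSpectrum (𝓞 K)) :
    ord u (bp g v a) = ∑ i, a i * ord u (g.β (v i)) := by
  unfold bp
  rw [ord_prod' u _ _ fun i _ => zpow_ne_zero _ (g.hβ0 (v i))]
  exact Finset.sum_congr rfl fun i _ => ord_zpow' u (g.hβ0 (v i)) _

private theorem de_notin {K : Type} [Field K] [NumberField K] {x : K} {j : ℕ}
    {v : Fin j → HeightOneSpectrum (𝓞 K)} (hx : x ≠ 0) (hx1 : x ≠ 1) (hl : Lst x v)
    {u : HeightOneSpectrum (𝓞 K)} (hu : ∀ i, u ≠ v i) : ord u x = 0 ∧ ord u (x - 1) = 0 := by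
  have h1 : u ∉ supp x := by
    rw [← hl.2]
    rintro ⟨i, hi⟩
    exact hu i hi.symm
  have h2 : u ∉ fs x := by
    rw [← Finset.mem_coe, coe_fs hx hx1]
    exact h1
  rw [mem_fs hx hx1] at h2
  push Not at h2
  exact h2

theorem div_units {K : Type} [Field K] [NumberField K] {g : Gens K}
    {F : Finset (HeightOneSpectrum (𝓞 K))} {L j : ℕ} {p : Fin j → Fin 3} {c : Fin j → Fin g.Mc}
    {s m : Fin j → ℕ} {x : K} {v : Fin j → HeightOneSpectrum (𝓞 K)} (hD : Dat g F L p c s m x v)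
    (hb : ∀ i, g.base (c i) (s i) ∉ F) :
    UnitAt F x ∧ UnitAt F (1 - x) ∧ (∀ i, UnitAt F (g.β (v i))) ∧
      ∀ a : Fin j → ℤ, UnitAt F (bp g v a) := by
  have h0 : ∀ l ∈ F, ∀ i, l ≠ v i := by
    intro l hl i h
    rw [h] at hl
    exact hD.hF i hl
  have hβ : ∀ i, UnitAt F (g.β (v i)) := by
    intro i
    refine ⟨g.hβ0 _, fun l hl => ?_⟩
    have h1 : l ≠ g.base (c i) (s i) := by
      intro h
      rw [h] at hl
      exact hb i hl
    rw [g.hβ, if_neg (h0 l hl i), hD.hc, hD.hs, if_neg h1, sub_zero]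
  refine ⟨⟨hD.x0, fun l hl => (de_notin hD.x0 hD.x1 hD.lst (h0 l hl)).1⟩,
    ⟨sub_ne_zero.2 hD.x1.symm, fun l hl => ?_⟩, hβ, fun a => ⟨de_bp_ne g v a, fun l hl => ?_⟩⟩
  · rw [de_one_sub]
    exact (de_notin hD.x0 hD.x1 hD.lst (h0 l hl)).2
  · rw [de_ord_bp]
    exact Finset.sum_eq_zero fun i _ => by rw [(hβ i).2 l hl, mul_zero]

theorem div_dvd {K : Type} [Field K] [NumberField K] {g : Gens K}
    {F : Finset (HeightOneSpectrum (𝓞 K))} {L j : ℕ} {p : Fin j → Fin 3} {c : Fin j → Fin g.Mc}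
    {s m : Fin j → ℕ} {x : K} {v : Fin j → HeightOneSpectrum (𝓞 K)} (hD : Dat g F L p c s m x v)
    (u : HeightOneSpectrum (𝓞 K)) (hu : ∀ i, u ≠ g.base (c i) (s i)) :
    (L : ℤ) ∣ ord u (x * bp g v (ex1 p m)) ∧ (L : ℤ) ∣ ord u ((1 - x) * bp g v (ex2 p m)) := by
  classical
  have h1x : (1 : K) - x ≠ 0 := sub_ne_zero.2 hD.x1.symm
  have hβ : ∀ i, ord u (g.β (v i)) = if u = v i then 1 else 0 := by
    intro i
    rw [g.hβ, hD.hc, hD.hs, if_neg (hu i), sub_zero]
  have hbp : ∀ a : Fin j → ℤ, ord u (bp g v a) = ∑ i, a i * (if u = v i then 1 else 0) := by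
    intro a
    rw [de_ord_bp]
    exact Finset.sum_congr rfl fun i _ => by rw [hβ i]
  rw [ord_mul' u hD.x0 (de_bp_ne g v _), ord_mul' u h1x (de_bp_ne g v _), hbp, hbp, de_one_sub]
  by_cases hv : ∃ i, u = v i
  · obtain ⟨i, hi⟩ := hv
    have hs : ∀ a : Fin j → ℤ, ∑ k, a k * (if u = v k then 1 else 0) = a i := by
      intro a
      rw [Finset.sum_eq_single i]
      · rw [if_pos hi, mul_one]
      · intro k _ hk
        rw [if_neg, mul_zero]
        intro h
        exact hk (hD.lst.1 (h.symm.trans hi))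
      · intro h
        exact absurd (Finset.mem_univ i) h
    rw [hs, hs]
    have hm : (L : ℤ) ∣ (m i : ℤ) - (mlt x (v i) : ℤ) := (Nat.modEq_iff_dvd.1 (hD.hm i))
    have hp := hD.hp i
    rw [hi]
    have h3 : ∀ q : Fin 3, q = 0 ∨ q = 1 ∨ q = 2 := by decide
    rcases h3 (p i) with h | h | h
    · rw [h] at hp
      obtain ⟨e1, e2⟩ := mlt_zero hD.x0 hD.x1 hp
      have a1 : ex1 p m i = -(m i : ℤ) := by
        unfold ex1
        rw [if_pos h]
      have a2 : ex2 p m i = 0 := by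
        unfold ex2
        rw [h]
        simp
      rw [a1, a2, ← e1, e2]
      refine ⟨?_, by simp⟩
      have := dvd_neg.2 hm
      rw [neg_sub] at this
      exact this
    · rw [h] at hp
      obtain ⟨e1, e2⟩ := mlt_one hD.x0 hD.x1 hp
      have a1 : ex1 p m i = 0 := by
        unfold ex1
        rw [h]
        simp
      have a2 : ex2 p m i = -(m i : ℤ) := by
        unfold ex2
        rw [if_pos h]
      rw [a1, a2, ← e1, e2]
      refine ⟨by simp, ?_⟩
      have := dvd_neg.2 hm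
      rw [neg_sub] at this
      exact this
    · rw [h] at hp
      obtain ⟨e1, e2⟩ := mlt_two hD.x0 hD.x1 hp
      have a1 : ex1 p m i = (m i : ℤ) := by
        unfold ex1
        rw [h]
        simp
      have a2 : ex2 p m i = (m i : ℤ) := by
        unfold ex2
        rw [h]
        simp
      have e3 : ord (v i) x = -(mlt x (v i) : ℤ) := by omega
      rw [a1, a2, e2, e3, neg_add_eq_sub]
      exact ⟨hm, hm⟩
  · push Not at hv
    obtain ⟨e1, e2⟩ := de_notin hD.x0 hD.x1 hD.lst hv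
    have hs : ∀ a : Fin j → ℤ, ∑ k, a k * (if u = v k then 1 else 0) = 0 := fun a =>
      Finset.sum_eq_zero fun k _ => by rw [if_neg (hv k), mul_zero]
    rw [hs, hs, e1, e2]
    simp

end Pool.Agent.TM2
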