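import Mathlib
import Pool.Agent.TM2.DivE

/-!
# ClsR (size 3)

Write `b i = r (β (v i))`, `b' i = r (β (v' i))`. `r` is multiplicative on `F`-units (so `r 1 = 0`, `r (s⁻¹) = -r s`, `r (s ^ n) = n • r s`,
`r (∏) = ∑`): `r (x * bp g v (ex1 p m)) = r x + ∑ i, ex1 p m i • b i = r x - ∑_{p i = 0} m i • b i + ∑_{p i = 2} m i • b i`, and
`r ((1 - x) * bp g v (ex2 p m)) = r (1 - x) - ∑_{p i = 1} m i • b i + ∑_{p i = 2} m i • b i` (all elements are `F`-units: `div_units`). By `hC` the
sums over `p i = 2` agree for `v` and `v'`. So `h1` gives: `∑_{p i = 0} m i • b i = ∑_{p i = 0} m i • b' i` iff `r x = r x'`, and `h2`: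
`∑_{p i = 1} m i • b i = ∑_{p i = 1} m i • b' i` iff `r (1 - x) = r (1 - x')`. By `Res.eq_iff` both are equivalent to
`∀ l ∈ F, |x - x'|_l < 1` (`(1 - x) - (1 - x') = -(x - x')`).
-/

namespace Pool.Agent.TM2

open NumberField IsDedekindDomain Pool.Agent.H7.Abc Pool.Agent.AbcE Pool.Agent.TMS

section

variable {K : Type} [Field K] [NumberField K] {F : Finset (HeightOneSpectrum (𝓞 K))}
  {G : Type} [AddCommGroup G] [Fintype G] {r : K → G}

private theorem clsr_unit_one : UnitAt F (1 : K) :=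
  ⟨one_ne_zero, fun l _ => ord_one' l⟩

private theorem clsr_unit_mul {s t : K} (hs : UnitAt F s) (ht : UnitAt F t) : UnitAt F (s * t) :=
  ⟨mul_ne_zero hs.1 ht.1, fun l hl => by rw [ord_mul' l hs.1 ht.1, hs.2 l hl, ht.2 l hl, add_zero]⟩

private theorem clsr_unit_inv {s : K} (hs : UnitAt F s) : UnitAt F s⁻¹ :=
  ⟨inv_ne_zero hs.1, fun l hl => by rw [ord_inv' l hs.1, hs.2 l hl, neg_zero]⟩

private theorem clsr_unit_zpow {s : K} (hs : UnitAt F s) (n : ℤ) : UnitAt F (s ^ n) :=
  ⟨zpow_ne_zero n hs.1, fun l hl => by rw [ord_zpow' l hs.1, hs.2 l hl, mul_zero]⟩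

private theorem clsr_unit_prod {ι : Type*} (I : Finset ι) (f : ι → K)
    (hf : ∀ i ∈ I, UnitAt F (f i)) : UnitAt F (∏ i ∈ I, f i) := by
  classical
  induction I using Finset.induction_on with
  | empty => rw [Finset.prod_empty]; exact clsr_unit_one
  | insert a I ha ih =>
    rw [Finset.prod_insert ha]
    exact clsr_unit_mul (hf a (Finset.mem_insert_self _ _))
      (ih fun i hi => hf i (Finset.mem_insert_of_mem hi))

private theorem clsr_one (hr : Res F r) : r 1 = 0 := by
  have h := hr.mul 1 1 clsr_unit_one clsr_unit_one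
  rw [mul_one] at h
  exact left_eq_add.1 h

private theorem clsr_inv (hr : Res F r) {s : K} (hs : UnitAt F s) : r s⁻¹ = -r s := by
  have h := hr.mul s s⁻¹ hs (clsr_unit_inv hs)
  rw [mul_inv_cancel₀ hs.1, clsr_one hr] at h
  exact (neg_eq_of_add_eq_zero_right h.symm).symm

private theorem clsr_pow (hr : Res F r) {s : K} (hs : UnitAt F s) (n : ℕ) :
    r (s ^ n) = n • r s := by
  induction n with
  | zero => rw [pow_zero, clsr_one hr, zero_smul]
  | succ n ih =>
    have hu : UnitAt F (s ^ n) := by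
      have := clsr_unit_zpow hs (n : ℤ)
      rwa [zpow_natCast] at this
    rw [pow_succ, hr.mul _ _ hu hs, ih, succ_nsmul]

private theorem clsr_zpow (hr : Res F r) {s : K} (hs : UnitAt F s) (n : ℤ) :
    r (s ^ n) = n • r s := by
  obtain ⟨k, rfl | rfl⟩ := n.eq_nat_or_neg
  · rw [zpow_natCast, clsr_pow hr hs, natCast_zsmul]
  · have hu : UnitAt F (s ^ k) := by
      have := clsr_unit_zpow hs (k : ℤ)
      rwa [zpow_natCast] at this
    rw [zpow_neg, zpow_natCast, clsr_inv hr hu, clsr_pow hr hs, neg_smul, natCast_zsmul]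

private theorem clsr_prod (hr : Res F r) {ι : Type*} (I : Finset ι) (f : ι → K)
    (hf : ∀ i ∈ I, UnitAt F (f i)) : r (∏ i ∈ I, f i) = ∑ i ∈ I, r (f i) := by
  classical
  induction I using Finset.induction_on with
  | empty => rw [Finset.prod_empty, Finset.sum_empty, clsr_one hr]
  | insert a I ha ih =>
    rw [Finset.prod_insert ha, Finset.sum_insert ha,
      hr.mul _ _ (hf a (Finset.mem_insert_self _ _))
        (clsr_unit_prod I f fun i hi => hf i (Finset.mem_insert_of_mem hi)),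
      ih fun i hi => hf i (Finset.mem_insert_of_mem hi)]

private theorem clsr_bp (hr : Res F r) (g : Gens K) {j : ℕ}
    (v : Fin j → HeightOneSpectrum (𝓞 K)) (hβ : ∀ i, UnitAt F (g.β (v i))) (a : Fin j → ℤ) :
    r (bp g v a) = ∑ i, a i • r (g.β (v i)) := by
  unfold bp
  rw [clsr_prod hr _ _ fun i _ => clsr_unit_zpow (hβ i) (a i)]
  exact Finset.sum_congr rfl fun i _ => clsr_zpow hr (hβ i) (a i)

/-- The sum with the exponents `-m` on part `k` and `m` on part `2`. -/
private theorem clsr_sum {j : ℕ} (p : Fin j → Fin 3) (m : Fin j → ℕ) (b : Fin j → G) (k : Fin 3)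
    (hk : k ≠ 2) :
    ∑ i, (if p i = k then -(m i : ℤ) else if p i = 2 then (m i : ℤ) else 0) • b i =
      -(∑ i ∈ Finset.univ.filter (fun i => p i = k), m i • b i) +
        ∑ i ∈ Finset.univ.filter (fun i => p i = 2), m i • b i := by
  rw [← Finset.sum_neg_distrib, Finset.sum_filter, Finset.sum_filter, ← Finset.sum_add_distrib]
  refine Finset.sum_congr rfl fun i _ => ?_
  by_cases h1 : p i = k
  · have h2 : p i ≠ 2 := by rw [h1]; exact hk
    rw [if_pos h1, if_pos h1, if_neg h2, add_zero, neg_smul, natCast_zsmul]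
  · rw [if_neg h1, if_neg h1, zero_add]
    by_cases h2 : p i = 2
    · rw [if_pos h2, if_pos h2, natCast_zsmul]
    · rw [if_neg h2, if_neg h2, zero_smul]

private theorem clsr_mk_neg (l : HeightOneSpectrum (𝓞 K)) (y : K) :
    FinitePlace.mk l (-y) = FinitePlace.mk l y := by
  have h1 : FinitePlace.mk l (-1 : K) = 1 := by
    have h2 : FinitePlace.mk l (-1 : K) * FinitePlace.mk l (-1 : K) = 1 := by
      rw [← map_mul, neg_mul_neg, one_mul, map_one]
    have h3 : 0 ≤ FinitePlace.mk l (-1 : K) := apply_nonneg _ _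
    nlinarith
  rw [← neg_one_mul, map_mul, h1, one_mul]

end

theorem class_iff {K : Type} [Field K] [NumberField K] {g : Gens K}
    {F : Finset (HeightOneSpectrum (𝓞 K))} {L j : ℕ} {p : Fin j → Fin 3} {c : Fin j → Fin g.Mc}
    {s m : Fin j → ℕ} {x x' : K} {v v' : Fin j → HeightOneSpectrum (𝓞 K)}
    (hD : Dat g F L p c s m x v) (hD' : Dat g F L p c s m x' v')
    (hb : ∀ i, g.base (c i) (s i) ∉ F) {G : Type} [AddCommGroup G] [Fintype G] {r : K → G}
    (hr : Res F r)
    (h1 : r (x * bp g v (ex1 p m)) = r (x' * bp g v' (ex1 p m)))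
    (h2 : r ((1 - x) * bp g v (ex2 p m)) = r ((1 - x') * bp g v' (ex2 p m)))
    (hC : ∀ i, p i = 2 → v i = v' i) :
    (∑ i ∈ Finset.univ.filter (fun i => p i = 0), m i • r (g.β (v i)) =
        ∑ i ∈ Finset.univ.filter (fun i => p i = 0), m i • r (g.β (v' i))) ↔
      (∑ i ∈ Finset.univ.filter (fun i => p i = 1), m i • r (g.β (v i)) =
        ∑ i ∈ Finset.univ.filter (fun i => p i = 1), m i • r (g.β (v' i))) := by
  obtain ⟨hx, h1x, hβ, hbp⟩ := div_units hD hb
  obtain ⟨hx', h1x', hβ', hbp'⟩ := div_units hD' hb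
  have e2 : ∑ i ∈ Finset.univ.filter (fun i => p i = 2), m i • r (g.β (v i)) =
      ∑ i ∈ Finset.univ.filter (fun i => p i = 2), m i • r (g.β (v' i)) :=
    Finset.sum_congr rfl fun i hi => by rw [hC i (Finset.mem_filter.1 hi).2]
  have a1 : ∀ v : Fin j → HeightOneSpectrum (𝓞 K),
      ∑ i, ex1 p m i • r (g.β (v i)) =
        -(∑ i ∈ Finset.univ.filter (fun i => p i = 0), m i • r (g.β (v i))) +
          ∑ i ∈ Finset.univ.filter (fun i => p i = 2), m i • r (g.β (v i)) :=
    fun v => clsr_sum p m (fun i => r (g.β (v i))) 0 (by decide)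
  have a2 : ∀ v : Fin j → HeightOneSpectrum (𝓞 K),
      ∑ i, ex2 p m i • r (g.β (v i)) =
        -(∑ i ∈ Finset.univ.filter (fun i => p i = 1), m i • r (g.β (v i))) +
          ∑ i ∈ Finset.univ.filter (fun i => p i = 2), m i • r (g.β (v i)) :=
    fun v => clsr_sum p m (fun i => r (g.β (v i))) 1 (by decide)
  rw [hr.mul _ _ hx (hbp _), hr.mul _ _ hx' (hbp' _), clsr_bp hr g v hβ, clsr_bp hr g v' hβ',
    a1, a1, e2, ← add_assoc, ← add_assoc] at h1
  rw [hr.mul _ _ h1x (hbp _), hr.mul _ _ h1x' (hbp' _), clsr_bp hr g v hβ, clsr_bp hr g v' hβ',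
    a2, a2, e2, ← add_assoc, ← add_assoc] at h2
  have k1 := add_right_cancel h1
  have k2 := add_right_cancel h2
  have i1 : (∑ i ∈ Finset.univ.filter (fun i => p i = 0), m i • r (g.β (v i)) =
      ∑ i ∈ Finset.univ.filter (fun i => p i = 0), m i • r (g.β (v' i))) ↔ r x = r x' := by
    constructor
    · intro h
      rw [h] at k1
      exact add_right_cancel k1
    · intro h
      rw [h] at k1
      exact neg_injective (add_left_cancel k1)
  have i2 : (∑ i ∈ Finset.univ.filter (fun i => p i = 1), m i • r (g.β (v i)) =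
      ∑ i ∈ Finset.univ.filter (fun i => p i = 1), m i • r (g.β (v' i))) ↔
        r (1 - x) = r (1 - x') := by
    constructor
    · intro h
      rw [h] at k2
      exact add_right_cancel k2
    · intro h
      rw [h] at k2
      exact neg_injective (add_left_cancel k2)
  rw [i1, i2, hr.eq_iff _ _ hx hx', hr.eq_iff _ _ h1x h1x']
  have e3 : (1 - x) - (1 - x') = -(x - x') := by ring
  rw [e3]
  simp only [clsr_mk_neg]

end Pool.Agent.TM2
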