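import Mathlib
import Pool.Agent.TM2.Defs

/-!
# MomK (size 4)

Let `b = fun v => r (g.β v)`. Count pairs `(a, a')` of `q`-tuples of elements of `V` with `∑ r (β (a i)) = ∑ r (β (a' i))`.
The `β v`, `v ∈ V`, are `F`-units (`g.hβ`: the divisor is `v - base`, and `v, base ∉ F`), so (`Res.mul`; `r 1 = 0`) `r (∏ β (a i)) =
r (∏ β (a' i))`, and with `γ = ∏ β (a i) / ∏ β (a' i)`: `|γ - 1|_l < 1` for `l ∈ F` (`Res.eq_iff`), i.e. `ord l (γ - 1) ≥ 1` if `γ ≠ 1`.
Suppose `γ ≠ 1`. Then `∑_{l ∈ F} ln l ≤ ∑_{l ∈ F} ord l (γ - 1) ln l ≤ hgt (γ - 1) ≤ hgt γ + d log 2` (`hgt_inv`, `hgt_sub_one`;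
the finite part of `hgt (γ - 1)⁻¹`, `sum_le_finsum'`). The base places cancel: `ord u γ = #{i | a i = u} - #{i | a' i = u}`, so the poles of `γ`
are among the `a' i`: the finite part of `hgt γ` is at most `∑ i, ln (a' i) ≤ q (s + 1)` (`⌊ln v⌋₊ = s`), the infinite part at most
`∑_w mult w * |log w γ| ≤ d * 2 q C0` (`g.hw`, `InfinitePlace.sum_mult_eq`). Contradiction with `hq`. So `γ = 1` and
`#{i | a i = u} = #{i | a' i = u}` for all `u`: `a'` is a permutation of `a`. For each `a` there are at most `q!` such `a'`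
(`a' = a ∘ σ`), so the number of pairs is at most `V.card ^ q * q!`.
-/

namespace Pool.Agent.TM2

open NumberField IsDedekindDomain Pool.Agent.H7.Abc Pool.Agent.AbcE Pool.Agent.TMS

private theorem MomK_unit_prod {K : Type} [Field K] [NumberField K] {ι : Type*}
    (F : Finset (HeightOneSpectrum (𝓞 K))) (t : Finset ι) (f : ι → K)
    (h : ∀ i ∈ t, UnitAt F (f i)) : UnitAt F (∏ i ∈ t, f i) := by
  refine ⟨Finset.prod_ne_zero_iff.2 fun i hi => (h i hi).1, fun l hl => ?_⟩
  rw [ord_prod' l t f fun i hi => (h i hi).1]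
  exact Finset.sum_eq_zero fun i hi => (h i hi).2 l hl

private theorem MomK_unit_one {K : Type} [Field K] [NumberField K]
    (F : Finset (HeightOneSpectrum (𝓞 K))) : UnitAt F (1 : K) :=
  ⟨one_ne_zero, fun l _ => ord_one' l⟩

private theorem MomK_res_prod {K : Type} [Field K] [NumberField K] {G : Type} [AddCommGroup G]
    [Fintype G] (F : Finset (HeightOneSpectrum (𝓞 K))) (r : K → G) (hr : Res F r) {ι : Type*}
    (t : Finset ι) (f : ι → K) (h : ∀ i ∈ t, UnitAt F (f i)) :
    r (∏ i ∈ t, f i) = ∑ i ∈ t, r (f i) := by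
  classical
  induction t using Finset.induction_on with
  | empty =>
    rw [Finset.prod_empty, Finset.sum_empty]
    have h1 := hr.mul 1 1 (MomK_unit_one F) (MomK_unit_one F)
    rw [mul_one] at h1
    exact left_eq_add.1 h1
  | insert a s ha ih =>
    have h1 : ∀ i ∈ s, UnitAt F (f i) := fun i hi => h i (Finset.mem_insert_of_mem hi)
    rw [Finset.prod_insert ha, Finset.sum_insert ha,
      hr.mul _ _ (h a (Finset.mem_insert_self _ _)) (MomK_unit_prod F s f h1), ih h1]

private theorem MomK_perm {α : Type*} {q : ℕ} (a a' : Fin q → α)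
    (h : ∀ u, Nat.card {i // a' i = u} = Nat.card {i // a i = u}) :
    ∃ σ : Equiv.Perm (Fin q), a' = a ∘ σ := by
  classical
  let e : (u : α) → {i // a' i = u} ≃ {i // a i = u} := fun u =>
    Fintype.equivOfCardEq (by
      have := h u
      rwa [Nat.card_eq_fintype_card, Nat.card_eq_fintype_card] at this)
  refine ⟨(Equiv.sigmaFiberEquiv a').symm.trans
    ((Equiv.sigmaCongrRight e).trans (Equiv.sigmaFiberEquiv a)), ?_⟩
  funext i
  exact (e (a' i) ⟨i, rfl⟩).2.symm

private theorem MomK_key {K : Type} [Field K] [NumberField K] (g : Gens K) {G : Type}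
    [AddCommGroup G] [Fintype G] (F : Finset (HeightOneSpectrum (𝓞 K))) (r : K → G)
    (hr : Res F r) (c : Fin g.Mc) (s q : ℕ) (V : Finset (HeightOneSpectrum (𝓞 K)))
    (hV : ∀ v ∈ V, g.cl v = c ∧ ⌊ln v⌋₊ = s ∧ v ∉ F) (hb : g.base c s ∉ F)
    (hq : (q : ℝ) * (s + 1 + 2 * Module.finrank ℚ K * g.C0) + Module.finrank ℚ K * Real.log 2 <
      ∑ l ∈ F, ln l) (a a' : Fin q → HeightOneSpectrum (𝓞 K)) (ha : ∀ i, a i ∈ V)
    (ha' : ∀ i, a' i ∈ V) (hsum : ∑ i, r (g.β (a i)) = ∑ i, r (g.β (a' i))) :
    ∃ σ : Equiv.Perm (Fin q), a' = a ∘ σ := by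
  classical
  have hU : ∀ v ∈ V, UnitAt F (g.β v) := by
    intro v hv
    refine ⟨g.hβ0 v, fun l hl => ?_⟩
    obtain ⟨h1, h2, h3⟩ := hV v hv
    have e1 : l ≠ v := fun h => h3 (h ▸ hl)
    have e2 : l ≠ g.base c s := fun h => hb (h ▸ hl)
    rw [g.hβ, h1, h2, if_neg e1, if_neg e2]
    rfl
  obtain ⟨P, hP⟩ : ∃ P : K, P = ∏ i, g.β (a i) := ⟨_, rfl⟩
  obtain ⟨P', hP'⟩ : ∃ P' : K, P' = ∏ i, g.β (a' i) := ⟨_, rfl⟩
  have hPU : UnitAt F P := hP ▸ MomK_unit_prod F _ _ fun i _ => hU _ (ha i)
  have hPU' : UnitAt F P' := hP' ▸ MomK_unit_prod F _ _ fun i _ => hU _ (ha' i)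
  have hrP : r P = r P' := by
    rw [hP, hP', MomK_res_prod F r hr _ _ fun i _ => hU _ (ha i),
      MomK_res_prod F r hr _ _ fun i _ => hU _ (ha' i), hsum]
  have hlt := (hr.eq_iff P P' hPU hPU').1 hrP
  -- exponents
  have hord : ∀ u, ord u (P / P') = (Nat.card {i // a i = u} : ℤ) - Nat.card {i // a' i = u} := by
    intro u
    rw [ord_div u hPU.1 hPU'.1, hP, hP', ord_prod' u _ _ fun i _ => g.hβ0 _,
      ord_prod' u _ _ fun i _ => g.hβ0 _]
    have h1 : ∀ b : Fin q → HeightOneSpectrum (𝓞 K), (∀ i, b i ∈ V) →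
        ∑ i, ord u (g.β (b i)) = (Nat.card {i // b i = u} : ℤ) -
          q * (if u = g.base c s then 1 else 0) := by
      intro b hbV
      have h2 : ∀ i, ord u (g.β (b i)) = (if b i = u then 1 else 0) -
          (if u = g.base c s then 1 else 0) := by
        intro i
        obtain ⟨h3, h4, -⟩ := hV _ (hbV i)
        rw [g.hβ, h3, h4]
        congr 1
        by_cases h5 : b i = u
        · rw [if_pos h5.symm, if_pos h5]
        · rw [if_neg (fun h => h5 h.symm), if_neg h5]
      rw [Finset.sum_congr rfl fun i _ => h2 i, Finset.sum_sub_distrib, Finset.sum_const,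
        Finset.card_univ, Fintype.card_fin, nsmul_eq_mul]
      congr 1
      rw [Finset.sum_boole, Nat.card_eq_fintype_card, Fintype.card_subtype]
    rw [h1 a ha, h1 a' ha']
    ring
  have hγ0 : P / P' ≠ 0 := div_ne_zero hPU.1 hPU'.1
  have hγ : P / P' = 1 := by
    by_contra hne
    have hne' : P / P' - 1 ≠ 0 := sub_ne_zero.2 hne
    -- lower bound
    have h1 : ∑ l ∈ F, ln l ≤ hgt (P / P' - 1) := by
      rw [← hgt_inv]
      refine le_trans (Finset.sum_le_sum fun l hl => ?_) (sum_finite_le (inv_ne_zero hne') F)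
      have h2 : FinitePlace.mk l P' = 1 := (ord_eq_zero_iff l hPU'.1).1 (hPU'.2 l hl)
      have h3 : FinitePlace.mk l (P / P' - 1) < 1 := by
        have h4 : P / P' - 1 = (P - P') / P' := by
          rw [sub_div, div_self hPU'.1]
        rw [h4, map_div₀, h2, div_one]
        exact hlt l hl
      have h5 : 0 < ord l (P / P' - 1) := by
        rw [mk_eq_zpow l hne', zpow_lt_one_iff_right₀ (one_lt_norm l)] at h3
        omega
      have h6 : Real.log (FinitePlace.mk l (P / P' - 1)⁻¹) = (ord l (P / P' - 1) : ℝ) * ln l := by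
        rw [mk_inv, Real.log_inv, log_mk l hne']
        unfold ln
        ring
      have h7 : (1 : ℝ) ≤ (ord l (P / P' - 1) : ℝ) := by exact_mod_cast h5
      have h8 := ln_pos l
      calc ln l ≤ (ord l (P / P' - 1) : ℝ) * ln l := by nlinarith
        _ = Real.log (FinitePlace.mk l (P / P' - 1)⁻¹) := h6.symm
        _ ≤ Real.log (max 1 (FinitePlace.mk l (P / P' - 1)⁻¹)) :=
          Real.log_le_log (FinitePlace.pos_iff.2 (inv_ne_zero hne')) (le_max_right _ _)
    have h2 := hgt_sub_one (P / P')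
    -- the infinite part
    have h3 : ∑ w : InfinitePlace K, (w.mult : ℝ) * Real.log (max 1 (w (P / P'))) ≤
        Module.finrank ℚ K * (2 * q * g.C0) := by
      have h4 : ∀ w : InfinitePlace K, Real.log (max 1 (w (P / P'))) ≤ 2 * q * g.C0 := by
        intro w
        have h5 : ∀ b : Fin q → HeightOneSpectrum (𝓞 K),
            |Real.log (w (∏ i, g.β (b i)))| ≤ q * g.C0 := by
          intro b
          rw [map_prod, Real.log_prod fun i _ => (InfinitePlace.pos_iff.2 (g.hβ0 _)).ne']
          refine (Finset.abs_sum_le_sum_abs _ _).trans ?_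
          refine (Finset.sum_le_sum fun i _ => g.hw (b i) w).trans ?_
          rw [Finset.sum_const, Finset.card_univ, Fintype.card_fin, nsmul_eq_mul]
        have hC0 := g.hC0
        rcases le_total 1 (w (P / P')) with h6 | h6
        · rw [max_eq_right h6, map_div₀, Real.log_div (InfinitePlace.pos_iff.2 hPU.1).ne'
            (InfinitePlace.pos_iff.2 hPU'.1).ne', hP, hP']
          have h7 := abs_le.1 (h5 a)
          have h8 := abs_le.1 (h5 a')
          linarith [h7.2, h8.1]
        · rw [max_eq_left h6, Real.log_one]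
          positivity
      calc ∑ w : InfinitePlace K, (w.mult : ℝ) * Real.log (max 1 (w (P / P')))
          ≤ ∑ w : InfinitePlace K, (w.mult : ℝ) * (2 * q * g.C0) :=
            Finset.sum_le_sum fun w _ => mul_le_mul_of_nonneg_left (h4 w) (Nat.cast_nonneg _)
        _ = Module.finrank ℚ K * (2 * q * g.C0) := by
            rw [← Finset.sum_mul, ← Nat.cast_sum, InfinitePlace.sum_mult_eq]
    -- the finite part
    have h4 : ∑ᶠ v : HeightOneSpectrum (𝓞 K), Real.log (max 1 (FinitePlace.mk v (P / P'))) ≤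
        q * (s + 1) := by
      have h5 : ∀ u, Real.log (max 1 (FinitePlace.mk u (P / P'))) ≤
          (Nat.card {i // a' i = u} : ℝ) * ln u := by
        intro u
        have h6 := ln_pos u
        rcases le_total 1 (FinitePlace.mk u (P / P')) with h7 | h7
        · rw [max_eq_right h7, log_mk u hγ0]
          change -(ord u (P / P') : ℝ) * ln u ≤ _
          refine mul_le_mul_of_nonneg_right ?_ h6.le
          rw [hord u]
          push_cast
          have : (0 : ℝ) ≤ Nat.card {i // a i = u} := Nat.cast_nonneg _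
          linarith
        · rw [max_eq_left h7, Real.log_one]
          positivity
      rw [finsum_eq_sum_of_support_subset (s := Finset.univ.image a') _ (by
        intro u hu
        rw [Function.mem_support] at hu
        by_contra hcon
        apply hu
        have h6 : Nat.card {i // a' i = u} = 0 := by
          rw [Nat.card_eq_zero]
          left
          refine ⟨fun i => hcon ?_⟩
          rw [Finset.coe_image, Finset.coe_univ, Set.image_univ]
          exact ⟨i.1, i.2⟩
        have h7 := h5 u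
        rw [h6, Nat.cast_zero, zero_mul] at h7
        exact le_antisymm h7 (log_max_nonneg _))]
      calc ∑ u ∈ Finset.univ.image a', Real.log (max 1 (FinitePlace.mk u (P / P')))
          ≤ ∑ u ∈ Finset.univ.image a', (Nat.card {i // a' i = u} : ℝ) * ln u :=
            Finset.sum_le_sum fun u _ => h5 u
        _ = ∑ i, ln (a' i) := by
            rw [← Finset.sum_fiberwise_of_maps_to (s := Finset.univ) (t := Finset.univ.image a')
              (g := a') (fun i _ => Finset.mem_image_of_mem _ (Finset.mem_univ i))]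
            refine Finset.sum_congr rfl fun u _ => ?_
            rw [Finset.sum_congr rfl (g := fun _ => ln u) (fun i hi => by
              rw [(Finset.mem_filter.1 hi).2]), Finset.sum_const, nsmul_eq_mul,
              Nat.card_eq_fintype_card, Fintype.card_subtype]
        _ ≤ ∑ i : Fin q, ((s : ℝ) + 1) := by
            refine Finset.sum_le_sum fun i _ => ?_
            have h6 := Nat.lt_floor_add_one (ln (a' i))
            rw [(hV _ (ha' i)).2.1] at h6
            exact h6.le
        _ = q * (s + 1) := by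
            rw [Finset.sum_const, Finset.card_univ, Fintype.card_fin, nsmul_eq_mul]
    have h5 : hgt (P / P') ≤ Module.finrank ℚ K * (2 * q * g.C0) + q * (s + 1) := by
      unfold hgt
      linarith
    nlinarith
  refine MomK_perm a a' fun u => ?_
  have h1 := hord u
  rw [hγ, ord_one'] at h1
  omega

theorem moment_le {K : Type} [Field K] [NumberField K] (g : Gens K) {G : Type} [AddCommGroup G]
    [Fintype G] (F : Finset (HeightOneSpectrum (𝓞 K))) (r : K → G) (hr : Res F r)
    (c : Fin g.Mc) (s q : ℕ) (V : Finset (HeightOneSpectrum (𝓞 K)))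
    (hV : ∀ v ∈ V, g.cl v = c ∧ ⌊ln v⌋₊ = s ∧ v ∉ F) (hb : g.base c s ∉ F)
    (hq : (q : ℝ) * (s + 1 + 2 * Module.finrank ℚ K * g.C0) + Module.finrank ℚ K * Real.log 2 <
      ∑ l ∈ F, ln l) :
    (mom V (fun v => r (g.β v)) q : ℝ) ≤ (q.factorial : ℝ) * (V.card : ℝ) ^ q := by
  classical
  unfold mom nrg
  have hsub : ((Fintype.piFinset (fun _ : Fin q => V) ×ˢ
      Fintype.piFinset (fun _ : Fin q => V)).filter (fun p =>
        ∑ i, r (g.β (p.1 i)) = ∑ i, r (g.β (p.2 i)))) ⊆
      ((Fintype.piFinset (fun _ : Fin q => V)) ×ˢ (Finset.univ : Finset (Equiv.Perm (Fin q)))).image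
        (fun p => (p.1, p.1 ∘ p.2)) := by
    rintro ⟨a, a'⟩ h
    rw [Finset.mem_filter, Finset.mem_product, Fintype.mem_piFinset, Fintype.mem_piFinset] at h
    obtain ⟨σ, hσ⟩ := MomK_key g F r hr c s q V hV hb hq a a' h.1.1 h.1.2 h.2
    rw [Finset.mem_image]
    refine ⟨(a, σ), ?_, ?_⟩
    · rw [Finset.mem_product, Fintype.mem_piFinset]
      exact ⟨h.1.1, Finset.mem_univ _⟩
    · rw [hσ]
  have h1 := (Finset.card_le_card hsub).trans Finset.card_image_le
  rw [Finset.card_product, Fintype.card_piFinset, Finset.prod_const, Finset.card_univ,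
    Fintype.card_fin, Finset.card_univ, Fintype.card_perm, Fintype.card_fin] at h1
  have h2 : ((V.card ^ q * q.factorial : ℕ) : ℝ) = (q.factorial : ℝ) * (V.card : ℝ) ^ q := by
    push_cast
    ring
  rw [← h2]
  refine le_trans (le_of_eq ?_) (Nat.cast_le.2 h1)
  congr 2

end Pool.Agent.TM2
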