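import Mathlib
import Pool.Agent.TM2.Defs

/-!
# CSp (size 2)

Cauchy-Schwarz. Let `Γ = P.image (fun p => f p.1)`; for `c ∈ Γ` let `N c = #{p ∈ P | f p.1 = c}`, `X c = #{x ∈ X | f x = c}`
and choose `p₀ ∈ P` with `f p₀.1 = c`, `d c = h p₀.2`, `Y c = #{y ∈ Y | h y = d c}`. By `hiff`, `N c ≤ X c * Y c` and `d` is
injective on `Γ`. So `P.card = ∑ c ∈ Γ, N c ≤ ∑ X c * Y c ≤ sqrt (∑ X c ^ 2) * sqrt (∑ Y c ^ 2)`, and
`∑ c ∈ Γ, X c ^ 2 ≤ nrg X f`, `∑ c ∈ Γ, Y c ^ 2 ≤ nrg Y h` (the pairs with the same value; disjoint for different `c`).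
(`Finset.sum_mul_sq_le_sq_mul_sq`: `(∑ X c * Y c) ^ 2 ≤ (∑ X c ^ 2) * (∑ Y c ^ 2)`.)
-/

namespace Pool.Agent.TM2

open NumberField IsDedekindDomain Pool.Agent.H7.Abc Pool.Agent.AbcE Pool.Agent.TMS

theorem cs_pairs {α β G H : Type} (P : Finset (α × β)) (X : Finset α) (Y : Finset β) (f : α → G)
    (h : β → H) (hX : ∀ p ∈ P, p.1 ∈ X) (hY : ∀ p ∈ P, p.2 ∈ Y)
    (hiff : ∀ p ∈ P, ∀ p' ∈ P, (f p.1 = f p'.1 ↔ h p.2 = h p'.2)) :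
    (P.card : ℝ) ^ 2 ≤ (nrg X f : ℝ) * nrg Y h := by
  classical
  obtain ⟨Xc, hXc⟩ : ∃ Xc : G → Finset α, Xc = fun c => X.filter (fun x => f x = c) := ⟨_, rfl⟩
  obtain ⟨Yc, hYc⟩ : ∃ Yc : G → Finset β,
      Yc = fun c => Y.filter (fun y => ∃ p ∈ P, f p.1 = c ∧ h p.2 = h y) := ⟨_, rfl⟩
  have mX : ∀ c x, x ∈ Xc c ↔ x ∈ X ∧ f x = c := by
    intro c x
    rw [hXc, Finset.mem_filter]
  have mY : ∀ c y, y ∈ Yc c ↔ y ∈ Y ∧ ∃ p ∈ P, f p.1 = c ∧ h p.2 = h y := by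
    intro c y
    rw [hYc, Finset.mem_filter]
  obtain ⟨Γ, hΓ⟩ : ∃ Γ : Finset G, Γ = P.image (fun p => f p.1) := ⟨_, rfl⟩
  have h1 : P.card ≤ ∑ c ∈ Γ, (Xc c).card * (Yc c).card := by
    rw [Finset.card_eq_sum_card_image (fun p => f p.1) P, ← hΓ]
    refine Finset.sum_le_sum fun c _ => ?_
    rw [← Finset.card_product]
    refine Finset.card_le_card fun p hp => ?_
    obtain ⟨hp1, hp2⟩ := Finset.mem_filter.1 hp
    exact Finset.mem_product.2 ⟨(mX _ _).2 ⟨hX p hp1, hp2⟩,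
      (mY _ _).2 ⟨hY p hp1, p, hp1, hp2, rfl⟩⟩
  have h2 : ∑ c ∈ Γ, (Xc c).card ^ 2 ≤ nrg X f := by
    have e1 : ∀ c ∈ Γ, (Xc c).card ^ 2 = (Xc c ×ˢ Xc c).card := by
      intro c _
      rw [Finset.card_product, sq]
    rw [Finset.sum_congr rfl e1, ← Finset.card_biUnion]
    · unfold nrg
      refine Finset.card_le_card fun q hq => ?_
      obtain ⟨c, _, hc⟩ := Finset.mem_biUnion.1 hq
      obtain ⟨ha, hb⟩ := Finset.mem_product.1 hc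
      obtain ⟨ha1, ha2⟩ := (mX _ _).1 ha
      obtain ⟨hb1, hb2⟩ := (mX _ _).1 hb
      exact Finset.mem_filter.2 ⟨Finset.mem_product.2 ⟨ha1, hb1⟩, ha2.trans hb2.symm⟩
    · intro c _ c' _ hcc
      refine Finset.disjoint_left.2 fun q hq hq' => hcc ?_
      have := ((mX _ _).1 (Finset.mem_product.1 hq).1).2
      have := ((mX _ _).1 (Finset.mem_product.1 hq').1).2
      simp_all
  have h3 : ∑ c ∈ Γ, (Yc c).card ^ 2 ≤ nrg Y h := by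
    have e1 : ∀ c ∈ Γ, (Yc c).card ^ 2 = (Yc c ×ˢ Yc c).card := by
      intro c _
      rw [Finset.card_product, sq]
    rw [Finset.sum_congr rfl e1, ← Finset.card_biUnion]
    · unfold nrg
      refine Finset.card_le_card fun q hq => ?_
      obtain ⟨c, _, hc⟩ := Finset.mem_biUnion.1 hq
      obtain ⟨ha, hb⟩ := Finset.mem_product.1 hc
      obtain ⟨ha1, p, hp, hpc, hpy⟩ := (mY _ _).1 ha
      obtain ⟨hb1, p', hp', hpc', hpy'⟩ := (mY _ _).1 hb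
      refine Finset.mem_filter.2 ⟨Finset.mem_product.2 ⟨ha1, hb1⟩, ?_⟩
      rw [← hpy, ← hpy']
      exact (hiff p hp p' hp').1 (hpc.trans hpc'.symm)
    · intro c _ c' _ hcc
      refine Finset.disjoint_left.2 fun q hq hq' => hcc ?_
      obtain ⟨_, p, hp, hpc, hpy⟩ := (mY _ _).1 (Finset.mem_product.1 hq).1
      obtain ⟨_, p', hp', hpc', hpy'⟩ := (mY _ _).1 (Finset.mem_product.1 hq').1
      rw [← hpc, ← hpc']
      exact (hiff p hp p' hp').2 (hpy.trans hpy'.symm)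
  have h4 : (P.card : ℝ) ≤ ∑ c ∈ Γ, ((Xc c).card : ℝ) * ((Yc c).card : ℝ) := by
    exact_mod_cast h1
  have h5 : ∑ c ∈ Γ, ((Xc c).card : ℝ) ^ 2 ≤ (nrg X f : ℝ) := by
    exact_mod_cast h2
  have h6 : ∑ c ∈ Γ, ((Yc c).card : ℝ) ^ 2 ≤ (nrg Y h : ℝ) := by
    exact_mod_cast h3
  calc (P.card : ℝ) ^ 2 ≤ (∑ c ∈ Γ, ((Xc c).card : ℝ) * ((Yc c).card : ℝ)) ^ 2 :=
        pow_le_pow_left₀ (Nat.cast_nonneg _) h4 2
    _ ≤ (∑ c ∈ Γ, ((Xc c).card : ℝ) ^ 2) * ∑ c ∈ Γ, ((Yc c).card : ℝ) ^ 2 :=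
        Finset.sum_mul_sq_le_sq_mul_sq _ _ _
    _ ≤ (nrg X f : ℝ) * nrg Y h :=
        mul_le_mul h5 h6 (Finset.sum_nonneg fun c _ => sq_nonneg _) (Nat.cast_nonneg _)

end Pool.Agent.TM2
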