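import Mathlib
import Pool.Agent.TM2.Defs

/-!
# ChA (size 2)

The energy by characters. `nrg X f` is the number of pairs `(x, y) ∈ X × X` with `f x = f y`.
`‖∑ x, ψ (f x)‖ ^ 2 = ∑ x, ∑ y, ψ (f x) * conj (ψ (f y)) = ∑ x, ∑ y, ψ (f x - f y)` (a character of a finite
group has values of norm one: `AddChar.norm_apply`, `AddChar.map_neg_eq_conj`, `AddChar.map_sub_eq_div`...).
Exchange the sums and use `∑ ψ, ψ a = if a = 0 then card G else 0` (`AddChar.sum_apply_eq_ite`;
`AddChar.card_eq : card (AddChar G ℂ) = card G`). `Fintype (AddChar G ℂ)` is found by instance search.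
-/

namespace Pool.Agent.TM2

open NumberField IsDedekindDomain Pool.Agent.H7.Abc Pool.Agent.AbcE Pool.Agent.TMS

theorem energy_char {G : Type} [AddCommGroup G] [Fintype G] {α : Type} (X : Finset α) (f : α → G) :
    (nrg X f : ℝ) * Fintype.card G = ∑ ψ : AddChar G ℂ, ‖∑ x ∈ X, ψ (f x)‖ ^ 2 := by
  classical
  have h1 : ∀ ψ : AddChar G ℂ, ((‖∑ x ∈ X, ψ (f x)‖ ^ 2 : ℝ) : ℂ) =
      ∑ x ∈ X, ∑ y ∈ X, ψ (f x - f y) := by
    intro ψ
    rw [Complex.ofReal_pow, ← Complex.mul_conj', map_sum, Finset.sum_mul_sum]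
    refine Finset.sum_congr rfl fun x _ => Finset.sum_congr rfl fun y _ => ?_
    rw [sub_eq_add_neg, AddChar.map_add_eq_mul, AddChar.map_neg_eq_conj]
  have h2 : ((∑ ψ : AddChar G ℂ, ‖∑ x ∈ X, ψ (f x)‖ ^ 2 : ℝ) : ℂ) =
      ((nrg X f : ℝ) * Fintype.card G : ℝ) := by
    rw [Complex.ofReal_sum]
    simp_rw [h1]
    rw [Finset.sum_comm]
    have h3 : ∀ x ∈ X, ∑ ψ : AddChar G ℂ, ∑ y ∈ X, ψ (f x - f y) =
        ∑ y ∈ X, if f x = f y then (Fintype.card G : ℂ) else 0 := by
      intro x _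
      rw [Finset.sum_comm]
      refine Finset.sum_congr rfl fun y _ => ?_
      rw [AddChar.sum_apply_eq_ite]
      simp only [sub_eq_zero]
    rw [Finset.sum_congr rfl h3, ← Finset.sum_product' X X
      (fun x y => if f x = f y then (Fintype.card G : ℂ) else 0), ← Finset.sum_filter,
      Finset.sum_const, nsmul_eq_mul]
    unfold nrg
    push_cast
    congr!
  exact_mod_cast h2.symm

end Pool.Agent.TM2
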