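import Mathlib
import Pool.Agent.TM2.Defs

/-!
# ChB (size 2)

The map `ψ ↦ ψ ^ n` on the (finite) dual group is a homomorphism; each of its fibres is empty or a coset of
`{ψ | ψ ^ n = 1}`, so it has at most `N = #{ψ | ψ ^ n = 1}` elements, and `∑ ψ, Φ (ψ ^ n) ≤ N * ∑ ψ, Φ ψ`.
`N ≤ #{a : G | n • a = 0}` (in fact equal): `(ψ ^ n) a = ψ (n • a)` (`AddChar.pow_apply`, `AddChar.map_nsmul_eq_pow`), so
`ψ ^ n = 1` iff `∑ a, ψ (n • a) = card G` (values of norm one), and `∑ a, ψ (n • a) = ∑ a, (ψ ^ n) a` is `0` otherwise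
(`AddChar.sum_eq_ite` or `AddChar.sum_eq_zero_of_ne_one`); hence
`N * card G = ∑ ψ, ∑ a, ψ (n • a) = ∑ a, ∑ ψ, ψ (n • a) = card G * #{a | n • a = 0}` (`AddChar.sum_apply_eq_ite`).
(The group structure of `AddChar G ℂ` is written multiplicatively here: `ψ ^ n`, `1`.)
-/

namespace Pool.Agent.TM2

open NumberField IsDedekindDomain Pool.Agent.H7.Abc Pool.Agent.AbcE Pool.Agent.TMS

theorem tors_char {G : Type} [AddCommGroup G] [Fintype G] (n : ℕ) (Φ : AddChar G ℂ → ℝ)
    (hΦ : ∀ ψ, 0 ≤ Φ ψ) :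
    ∑ ψ : AddChar G ℂ, Φ (ψ ^ n) ≤
      (Nat.card {a : G // n • a = 0} : ℝ) * ∑ ψ : AddChar G ℂ, Φ ψ := by
  classical
  have hG : (Fintype.card G : ℂ) ≠ 0 := by
    exact_mod_cast Fintype.card_ne_zero
  have hN : ((Finset.univ.filter fun ψ : AddChar G ℂ => ψ ^ n = 1).card : ℂ) *
      (Fintype.card G : ℂ) = (Nat.card {a : G // n • a = 0} : ℂ) * (Fintype.card G : ℂ) := by
    calc ((Finset.univ.filter fun ψ : AddChar G ℂ => ψ ^ n = 1).card : ℂ) *
          (Fintype.card G : ℂ)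
        = ∑ ψ : AddChar G ℂ, ∑ a : G, (ψ ^ n) a := by
          have h1 : ∀ ψ : AddChar G ℂ, ∑ a : G, (ψ ^ n) a =
              if ψ ^ n = 1 then (Fintype.card G : ℂ) else 0 := by
            intro ψ
            rw [AddChar.sum_eq_ite]
            rfl
          rw [Finset.sum_congr rfl fun ψ _ => h1 ψ, Finset.sum_ite, Finset.sum_const_zero,
            add_zero, Finset.sum_const, nsmul_eq_mul]
      _ = ∑ a : G, ∑ ψ : AddChar G ℂ, ψ (n • a) := by
          rw [Finset.sum_comm]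
          refine Finset.sum_congr rfl fun a _ => Finset.sum_congr rfl fun ψ _ => ?_
          rw [AddChar.pow_apply, AddChar.map_nsmul_eq_pow]
      _ = (Nat.card {a : G // n • a = 0} : ℂ) * (Fintype.card G : ℂ) := by
          rw [Finset.sum_congr rfl fun a _ => AddChar.sum_apply_eq_ite (n • a), Finset.sum_ite,
            Finset.sum_const_zero, add_zero, Finset.sum_const, nsmul_eq_mul,
            Nat.card_eq_fintype_card, Fintype.card_subtype]
  have hN' : (Finset.univ.filter fun ψ : AddChar G ℂ => ψ ^ n = 1).card =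
      Nat.card {a : G // n • a = 0} := by
    exact_mod_cast mul_right_cancel₀ hG hN
  have hfib : ∀ φ : AddChar G ℂ, (Finset.univ.filter fun ψ : AddChar G ℂ => ψ ^ n = φ).card ≤
      Nat.card {a : G // n • a = 0} := by
    intro φ
    rcases (Finset.univ.filter fun ψ : AddChar G ℂ => ψ ^ n = φ).eq_empty_or_nonempty with h | h
    · rw [h]
      simp
    · obtain ⟨ψ₀, hψ₀⟩ := h
      rw [Finset.mem_filter] at hψ₀
      rw [← hN']
      refine Finset.card_le_card_of_injOn (fun ψ => ψ * ψ₀⁻¹) ?_ ?_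
      · intro ψ hψ
        simp only [Finset.coe_filter, Finset.mem_univ, true_and, Set.mem_ofPred_eq] at hψ ⊢
        rw [mul_pow, inv_pow, hψ, hψ₀.2, mul_inv_cancel]
      · intro a _ b _ hab
        exact mul_right_cancel hab
  calc ∑ ψ : AddChar G ℂ, Φ (ψ ^ n)
      = ∑ φ : AddChar G ℂ, ∑ ψ ∈ Finset.univ.filter (fun ψ : AddChar G ℂ => ψ ^ n = φ),
          Φ (ψ ^ n) := by
        rw [Finset.sum_fiberwise]
    _ = ∑ φ : AddChar G ℂ,
          ((Finset.univ.filter fun ψ : AddChar G ℂ => ψ ^ n = φ).card : ℝ) * Φ φ := by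
        refine Finset.sum_congr rfl fun φ _ => ?_
        rw [← nsmul_eq_mul, ← Finset.sum_const]
        refine Finset.sum_congr rfl fun ψ hψ => ?_
        rw [(Finset.mem_filter.1 hψ).2]
    _ ≤ ∑ φ : AddChar G ℂ, (Nat.card {a : G // n • a = 0} : ℝ) * Φ φ := by
        refine Finset.sum_le_sum fun φ _ => mul_le_mul_of_nonneg_right ?_ (hΦ φ)
        exact_mod_cast hfib φ
    _ = _ := by rw [Finset.mul_sum]

end Pool.Agent.TM2
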