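import Mathlib
import Pool.Agent.TM2.Defs

/-!
# Hld (size 2)

Hölder's inequality for averages, from the weighted AM-GM inequality. For every `ψ` put `a i = F i ψ ^ q i / D i ≥ 0`,
weights `w i = 1 / q i`, and one more weight `1 - ∑ w i ≥ 0` with the value `1`:
`∏ i, (a i) ^ (w i) ≤ ∑ i, w i * a i + (1 - ∑ w i)` (`Real.geom_mean_le_arith_mean_weighted` on `Option ι` or by
using `Real.geom_mean_le_arith_mean2_weighted` in an induction), and `∏ i, (a i) ^ (w i) = (∏ F i ψ) / ∏ (D i) ^ (1 / q i)`.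
Sum over `ψ`: `∑ ψ, ∏ F i ψ / ∏ (D i) ^ (1 / q i) ≤ ∑ i, w i * card Ψ + (1 - ∑ w i) card Ψ = card Ψ`.
-/

namespace Pool.Agent.TM2

open NumberField IsDedekindDomain Pool.Agent.H7.Abc Pool.Agent.AbcE Pool.Agent.TMS

theorem holder_avg {Ψ ι : Type} [Fintype Ψ] [Fintype ι] (F : ι → Ψ → ℝ) (q : ι → ℕ) (D : ι → ℝ)
    (hF : ∀ i ψ, 0 ≤ F i ψ) (hq : ∀ i, 1 ≤ q i) (hD : ∀ i, 0 < D i)
    (hsum : ∑ i, (1 / (q i : ℝ)) ≤ 1)
    (hm : ∀ i, ∑ ψ, F i ψ ^ q i ≤ D i * Fintype.card Ψ) :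
    ∑ ψ, ∏ i, F i ψ ≤ (∏ i, D i ^ (1 / (q i : ℝ))) * Fintype.card Ψ := by
  classical
  set P : ℝ := ∏ i, D i ^ (1 / (q i : ℝ)) with hP
  have hP0 : 0 ≤ P := Finset.prod_nonneg fun i _ => Real.rpow_nonneg (hD i).le _
  have hq0 : ∀ i, (0 : ℝ) ≤ 1 / (q i : ℝ) := fun i => by positivity
  have hpt : ∀ ψ, ∏ i, F i ψ ≤
      P * (∑ i, (1 / (q i : ℝ)) * (F i ψ ^ q i / D i) + (1 - ∑ i, (1 / (q i : ℝ)))) := by
    intro ψ
    have h := Real.geom_mean_le_arith_mean_weighted (Finset.univ : Finset (Option ι))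
      (fun o => o.elim (1 - ∑ i, (1 / (q i : ℝ))) (fun i => 1 / (q i : ℝ)))
      (fun o => o.elim 1 (fun i => F i ψ ^ q i / D i))
      (by
        intro o _
        cases o with
        | none => simpa using hsum
        | some i => exact hq0 i)
      (by
        rw [Fintype.sum_option]
        simp)
      (by
        intro o _
        cases o with
        | none => exact zero_le_one
        | some i => exact div_nonneg (pow_nonneg (hF i ψ) _) (hD i).le)
    rw [Fintype.prod_option, Fintype.sum_option] at h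
    simp only [Option.elim_none, Option.elim_some, Real.one_rpow, one_mul, mul_one] at h
    have hprod : ∏ i, F i ψ = P * ∏ i, (F i ψ ^ q i / D i) ^ (1 / (q i : ℝ)) := by
      rw [hP, ← Finset.prod_mul_distrib]
      refine Finset.prod_congr rfl fun i _ => ?_
      rw [← Real.mul_rpow (hD i).le (div_nonneg (pow_nonneg (hF i ψ) _) (hD i).le),
        mul_div_cancel₀ _ (hD i).ne', one_div,
        Real.pow_rpow_inv_natCast (hF i ψ) (by have := hq i; omega)]
    rw [hprod]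
    refine mul_le_mul_of_nonneg_left ?_ hP0
    linarith
  calc ∑ ψ, ∏ i, F i ψ
      ≤ ∑ ψ, P * (∑ i, (1 / (q i : ℝ)) * (F i ψ ^ q i / D i) + (1 - ∑ i, (1 / (q i : ℝ)))) :=
        Finset.sum_le_sum fun ψ _ => hpt ψ
    _ = P * (∑ i, (1 / (q i : ℝ)) * ((∑ ψ, F i ψ ^ q i) / D i) +
          (1 - ∑ i, (1 / (q i : ℝ))) * Fintype.card Ψ) := by
        rw [← Finset.mul_sum, Finset.sum_add_distrib, Finset.sum_comm]
        congr 2
        · refine Finset.sum_congr rfl fun i _ => ?_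
          rw [Finset.sum_div, Finset.mul_sum]
        · rw [Finset.sum_const, Finset.card_univ, nsmul_eq_mul]
          ring
    _ ≤ P * (∑ i, (1 / (q i : ℝ)) * (Fintype.card Ψ : ℝ) +
          (1 - ∑ i, (1 / (q i : ℝ))) * Fintype.card Ψ) := by
        refine mul_le_mul_of_nonneg_left ?_ hP0
        have hle : ∑ i, (1 / (q i : ℝ)) * ((∑ ψ, F i ψ ^ q i) / D i) ≤
            ∑ i, (1 / (q i : ℝ)) * (Fintype.card Ψ : ℝ) := by
          refine Finset.sum_le_sum fun i _ => mul_le_mul_of_nonneg_left ?_ (hq0 i)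
          rw [div_le_iff₀ (hD i), mul_comm]
          exact hm i
        linarith
    _ = P * Fintype.card Ψ := by
        rw [← Finset.sum_mul]
        ring

end Pool.Agent.TM2
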