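import Mathlib
import Pool.Agent.TM2.ChA

/-!
# MoC (size 2)

The moments of a character sum. `(∑ v ∈ V, ψ (b v)) ^ q = ∑ a ∈ V^q, ∏ i, ψ (b (a i)) = ∑ a ∈ V^q, ψ (∑ i, b (a i))`
(`Finset.sum_pow'`/`Finset.prod_univ_sum` with `Fintype.piFinset`, `Fin.prod_const`; `AddChar.map_sum_eq_prod`), so
`‖∑ v ∈ V, ψ (b v)‖ ^ (2 q) = ‖∑ a ∈ V^q, ψ (∑ i, b (a i))‖ ^ 2`; then `energy_char` for `X = V^q`.
-/

namespace Pool.Agent.TM2

open NumberField IsDedekindDomain Pool.Agent.H7.Abc Pool.Agent.AbcE Pool.Agent.TMS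

theorem moment_char {G : Type} [AddCommGroup G] [Fintype G] {α : Type} (V : Finset α) (b : α → G)
    (q : ℕ) :
    ∑ ψ : AddChar G ℂ, ‖∑ v ∈ V, ψ (b v)‖ ^ (2 * q) = (mom V b q : ℝ) * Fintype.card G := by
  have h := energy_char (G := G) (Fintype.piFinset (fun _ : Fin q => V)) (fun a => ∑ i, b (a i))
  unfold mom
  rw [h]
  refine Finset.sum_congr rfl fun ψ _ => ?_
  have h1 : (∑ v ∈ V, ψ (b v)) ^ q =
      ∑ a ∈ Fintype.piFinset (fun _ : Fin q => V), ψ (∑ i, b (a i)) := by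
    have h2 := Finset.prod_univ_sum (fun _ : Fin q => V) (fun (_ : Fin q) (v : α) => ψ (b v))
    rw [Finset.prod_const, Finset.card_univ, Fintype.card_fin] at h2
    rw [h2]
    refine Finset.sum_congr rfl fun a _ => ?_
    have h3 : ∀ t : Finset (Fin q), ψ (∑ i ∈ t, b (a i)) = ∏ i ∈ t, ψ (b (a i)) := by
      classical
      intro t
      induction t using Finset.induction_on with
      | empty => simp
      | insert c t hc ih => rw [Finset.sum_insert hc, Finset.prod_insert hc, AddChar.map_add_eq_mul, ih]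
    exact (h3 Finset.univ).symm
  rw [← h1, norm_pow, ← pow_mul, mul_comm q 2]

end Pool.Agent.TM2
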