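import Mathlib
import Pool.Agent.TM2.ChA
import Pool.Agent.TM2.ChB
import Pool.Agent.TM2.Hld
import Pool.Agent.TM2.MoC

namespace Pool.Agent.TM2

open NumberField IsDedekindDomain Pool.Agent.H7.Abc Pool.Agent.AbcE Pool.Agent.TMS

private theorem Egy_sum {G : Type} [AddCommGroup G] {ι : Type} (s : Finset ι) (f : ι → G)
    (ψ : AddChar G ℂ) : ψ (∑ i ∈ s, f i) = ∏ i ∈ s, ψ (f i) := by
  classical
  induction s using Finset.induction_on with
  | empty => simp
  | insert a s ha ih => rw [Finset.sum_insert ha, Finset.prod_insert ha, AddChar.map_add_eq_mul, ih]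

theorem energy_holder {G : Type} [AddCommGroup G] [Fintype G] {α ι : Type} [Fintype ι]
    [DecidableEq ι] (V : ι → Finset α) (b : α → G) (n q : ι → ℕ) (B Kk : ι → ℝ)
    (hq : ∀ i, 1 ≤ q i) (hsum : ∑ i, (1 / (q i : ℝ)) ≤ 1) (hB : ∀ i, 0 < B i)
    (hKk : ∀ i, 0 < Kk i) (hm : ∀ i, (mom (V i) b (q i) : ℝ) ≤ B i)
    (hK : ∀ i, (Nat.card {a : G // n i • a = 0} : ℝ) ≤ Kk i) :
    (nrg (Fintype.piFinset V) (fun t => ∑ i, n i • b (t i)) : ℝ) ≤
      ∏ i, (Kk i * B i) ^ (1 / (q i : ℝ)) := by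
  classical
  have hG : (0 : ℝ) < Fintype.card G := by exact_mod_cast Fintype.card_pos
  have h1 := energy_char (Fintype.piFinset V) (fun t => ∑ i, n i • b (t i))
  have h2 : ∀ ψ : AddChar G ℂ, ‖∑ t ∈ Fintype.piFinset V, ψ (∑ i, n i • b (t i))‖ ^ 2 =
      ∏ i, ‖∑ v ∈ V i, (ψ ^ n i) (b v)‖ ^ 2 := by
    intro ψ
    have h3 : ∑ t ∈ Fintype.piFinset V, ψ (∑ i, n i • b (t i)) =
        ∏ i, ∑ v ∈ V i, (ψ ^ n i) (b v) := by
      rw [Finset.prod_univ_sum]
      refine Finset.sum_congr rfl fun t _ => ?_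
      rw [Egy_sum]
      refine Finset.prod_congr rfl fun i _ => ?_
      rw [AddChar.pow_apply, AddChar.map_nsmul_eq_pow]
    rw [h3, norm_prod, Finset.prod_pow]
  have h4 := holder_avg (Ψ := AddChar G ℂ) (fun i ψ => ‖∑ v ∈ V i, (ψ ^ n i) (b v)‖ ^ 2) q
    (fun i => Kk i * B i) (fun i ψ => by positivity) hq (fun i => mul_pos (hKk i) (hB i)) hsum
    (by
      intro i
      have h5 := tors_char (n i) (fun ψ : AddChar G ℂ => ‖∑ v ∈ V i, ψ (b v)‖ ^ (2 * q i))
        (fun ψ => by positivity)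
      have h6 := moment_char (V i) b (q i)
      have h7 : Fintype.card (AddChar G ℂ) = Fintype.card G := AddChar.card_eq
      rw [h7]
      calc ∑ ψ : AddChar G ℂ, (‖∑ v ∈ V i, (ψ ^ n i) (b v)‖ ^ 2) ^ q i
          = ∑ ψ : AddChar G ℂ, ‖∑ v ∈ V i, (ψ ^ n i) (b v)‖ ^ (2 * q i) := by
            refine Finset.sum_congr rfl fun ψ _ => ?_
            rw [← pow_mul]
        _ ≤ (Nat.card {a : G // n i • a = 0} : ℝ) *
            ∑ ψ : AddChar G ℂ, ‖∑ v ∈ V i, ψ (b v)‖ ^ (2 * q i) := h5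
        _ = (Nat.card {a : G // n i • a = 0} : ℝ) * ((mom (V i) b (q i) : ℝ) * Fintype.card G) := by
            rw [h6]
        _ ≤ Kk i * (B i * Fintype.card G) := by
            gcongr
            · exact (hKk i).le
            · exact hK i
            · exact hm i
        _ = Kk i * B i * Fintype.card G := by ring)
  have h7 : Fintype.card (AddChar G ℂ) = Fintype.card G := AddChar.card_eq
  rw [h7] at h4
  have h8 : (nrg (Fintype.piFinset V) (fun t => ∑ i, n i • b (t i)) : ℝ) * Fintype.card G ≤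
      (∏ i, (Kk i * B i) ^ (1 / (q i : ℝ))) * Fintype.card G := by
    rw [h1]
    refine le_trans (le_of_eq ?_) h4
    exact Finset.sum_congr rfl fun ψ _ => h2 ψ
  exact le_of_mul_le_mul_right h8 hG

end Pool.Agent.TM2
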