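import Mathlib
import Pool.Agent.TM2.Egy
import Pool.Agent.TM2.CSp

/-!
# PCt (size 3)

Let `I0, I1, I2` be the sets of indices with `p i = 0, 1, 2`. For `z : {i // p i = 2} → α` let `T z` be the set of `t ∈ T`
with `t i = z i` for all `i ∈ I2`; `T.card = ∑ z ∈ ∏_{I2} V i, (T z).card`. The map `t ↦ (t|I0, t|I1)` is injective on `T z`;
by `cs_pairs` (with `X = ∏_{I0} V i`, `f t = ∑_{I0} n i • b (t i)`, `Y`, `h` the same for `I1`; index types `{i // p i = 0}`,
`{i // p i = 1}`, `Fintype.piFinset (fun i : {i // p i = 0} => V i.1)`) and `energy_holder`: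
`(T z).card ^ 2 ≤ ∏_{I0} (Kk i B i) ^ (1 / q i) * ∏_{I1} (Kk i B i) ^ (1 / q i)`, i.e.
`(T z).card ≤ ∏_{I0 ∪ I1} (Kk i B i) ^ (1 / (2 q i))`. The number of `z` is `∏_{I2} (V i).card`.
(`∑_{i ∈ univ.filter (p i = 0)} F i = ∑ i : {i // p i = 0}, F i`: `Finset.sum_subtype`... )
-/

namespace Pool.Agent.TM2

open NumberField IsDedekindDomain Pool.Agent.H7.Abc Pool.Agent.AbcE Pool.Agent.TMS

private theorem PCt_sum {M : Type*} [AddCommMonoid M] {j : ℕ} (p : Fin j → Fin 3) (c : Fin 3)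
    (F : Fin j → M) :
    ∑ i : {i // p i = c}, F i.1 = ∑ i ∈ Finset.univ.filter (fun i => p i = c), F i :=
  (Finset.sum_subtype _ (fun i => by simp) F).symm

private theorem PCt_prod {M : Type*} [CommMonoid M] {j : ℕ} (p : Fin j → Fin 3) (c : Fin 3)
    (F : Fin j → M) :
    ∏ i : {i // p i = c}, F i.1 = ∏ i ∈ Finset.univ.filter (fun i => p i = c), F i :=
  (Finset.prod_subtype _ (fun i => by simp) F).symm

private theorem PCt_side {G : Type} [AddCommGroup G] [Fintype G] {α : Type} {j : ℕ}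
    (p : Fin j → Fin 3) (V : Fin j → Finset α) (b : α → G) (n q : Fin j → ℕ) (B Kk : Fin j → ℝ)
    (hq : ∀ i, p i ≠ 2 → 1 ≤ q i)
    (hsum : ∑ i ∈ Finset.univ.filter (fun i => p i ≠ 2), (1 / (q i : ℝ)) ≤ 1)
    (hB : ∀ i, p i ≠ 2 → 0 < B i) (hKk : ∀ i, p i ≠ 2 → 0 < Kk i)
    (hm : ∀ i, p i ≠ 2 → (mom (V i) b (q i) : ℝ) ≤ B i)
    (hK : ∀ i, p i ≠ 2 → (Nat.card {a : G // n i • a = 0} : ℝ) ≤ Kk i) (c : Fin 3) (hc : c ≠ 2) :
    (nrg (Fintype.piFinset (fun i : {i // p i = c} => V i.1))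
        (fun t => ∑ i, n i.1 • b (t i)) : ℝ) ≤
      (∏ i ∈ Finset.univ.filter (fun i => p i = c),
        (Kk i * B i) ^ (1 / (2 * (q i : ℝ)))) ^ 2 := by
  have hne : ∀ i : {i // p i = c}, p i.1 ≠ 2 := fun i => by rw [i.2]; exact hc
  have h := energy_holder (G := G) (α := α) (ι := {i // p i = c}) (fun i => V i.1) b
    (fun i => n i.1) (fun i => q i.1) (fun i => B i.1) (fun i => Kk i.1)
    (fun i => hq i.1 (hne i)) ?_ (fun i => hB i.1 (hne i)) (fun i => hKk i.1 (hne i))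
    (fun i => hm i.1 (hne i)) (fun i => hK i.1 (hne i))
  · refine h.trans (le_of_eq ?_)
    rw [← Finset.prod_pow,
      PCt_prod p c (fun i => (Kk i * B i) ^ (1 / (q i : ℝ)))]
    refine Finset.prod_congr rfl fun i hi => ?_
    have hi' : p i ≠ 2 := by
      rw [Finset.mem_filter] at hi
      rw [hi.2]
      exact hc
    have h0 : 0 ≤ Kk i * B i := (mul_pos (hKk i hi') (hB i hi')).le
    rw [← Real.rpow_natCast, ← Real.rpow_mul h0]
    congr 1
    push_cast
    ring
  · rw [PCt_sum p c (fun i => 1 / (q i : ℝ))]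
    refine le_trans ?_ hsum
    refine Finset.sum_le_sum_of_subset_of_nonneg ?_ (fun _ _ _ => by positivity)
    intro i hi
    rw [Finset.mem_filter] at hi ⊢
    exact ⟨hi.1, by rw [hi.2]; exact hc⟩

theorem pure_count {G : Type} [AddCommGroup G] [Fintype G] {α : Type} {j : ℕ} (p : Fin j → Fin 3)
    (V : Fin j → Finset α) (b : α → G) (n q : Fin j → ℕ) (B Kk : Fin j → ℝ)
    (hq : ∀ i, p i ≠ 2 → 1 ≤ q i)
    (hsum : ∑ i ∈ Finset.univ.filter (fun i => p i ≠ 2), (1 / (q i : ℝ)) ≤ 1)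
    (hB : ∀ i, p i ≠ 2 → 0 < B i) (hKk : ∀ i, p i ≠ 2 → 0 < Kk i)
    (hm : ∀ i, p i ≠ 2 → (mom (V i) b (q i) : ℝ) ≤ B i)
    (hK : ∀ i, p i ≠ 2 → (Nat.card {a : G // n i • a = 0} : ℝ) ≤ Kk i)
    (T : Finset (Fin j → α)) (hT : ∀ t ∈ T, ∀ i, t i ∈ V i)
    (hiff : ∀ t ∈ T, ∀ t' ∈ T, (∀ i, p i = 2 → t i = t' i) →
      ((∑ i ∈ Finset.univ.filter (fun i => p i = 0), n i • b (t i) =
          ∑ i ∈ Finset.univ.filter (fun i => p i = 0), n i • b (t' i)) ↔
        (∑ i ∈ Finset.univ.filter (fun i => p i = 1), n i • b (t i) =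
          ∑ i ∈ Finset.univ.filter (fun i => p i = 1), n i • b (t' i)))) :
    (T.card : ℝ) ≤ ∏ i, (if p i = 2 then ((V i).card : ℝ)
      else (Kk i * B i) ^ (1 / (2 * (q i : ℝ)))) := by
  classical
  have hg0 : ∀ i, p i ≠ 2 → 0 ≤ (Kk i * B i) ^ (1 / (2 * (q i : ℝ))) := fun i hi =>
    Real.rpow_nonneg (mul_pos (hKk i hi) (hB i hi)).le _
  obtain ⟨R0, hR0⟩ : ∃ R : ℝ, R = ∏ i ∈ Finset.univ.filter (fun i => p i = 0),
    (Kk i * B i) ^ (1 / (2 * (q i : ℝ))) := ⟨_, rfl⟩
  obtain ⟨R1, hR1⟩ : ∃ R : ℝ, R = ∏ i ∈ Finset.univ.filter (fun i => p i = 1),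
    (Kk i * B i) ^ (1 / (2 * (q i : ℝ))) := ⟨_, rfl⟩
  have hR0n : 0 ≤ R0 := by
    rw [hR0]
    refine Finset.prod_nonneg fun i hi => hg0 i ?_
    rw [(Finset.mem_filter.1 hi).2]
    decide
  have hR1n : 0 ≤ R1 := by
    rw [hR1]
    refine Finset.prod_nonneg fun i hi => hg0 i ?_
    rw [(Finset.mem_filter.1 hi).2]
    decide
  have key : ∀ z : {i // p i = 2} → α,
      ((T.filter (fun t => (fun i : {i // p i = 2} => t i.1) = z)).card : ℝ) ≤ R0 * R1 := by
    intro z
    obtain ⟨Tz, hTz⟩ : ∃ Tz, Tz = T.filter (fun t => (fun i : {i // p i = 2} => t i.1) = z) :=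
      ⟨_, rfl⟩
    rw [← hTz]
    have hmem : ∀ t ∈ Tz, t ∈ T ∧ ∀ i : {i // p i = 2}, t i.1 = z i := by
      intro t ht
      rw [hTz, Finset.mem_filter] at ht
      exact ⟨ht.1, fun i => congrFun ht.2 i⟩
    obtain ⟨e, he⟩ : ∃ e : (Fin j → α) → ({i // p i = 0} → α) × ({i // p i = 1} → α),
      e = fun t => (fun i => t i.1, fun i => t i.1) := ⟨_, rfl⟩
    have hinj : Set.InjOn e (Tz : Set (Fin j → α)) := by
      intro t ht t' ht' hee
      rw [he] at hee
      have h0 := congrArg Prod.fst hee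
      have h1 := congrArg Prod.snd hee
      funext i
      have h3 : p i = 0 ∨ p i = 1 ∨ p i = 2 := by
        generalize p i = c
        fin_cases c <;> simp
      rcases h3 with h3 | h3 | h3
      · exact congrFun h0 ⟨i, h3⟩
      · exact congrFun h1 ⟨i, h3⟩
      · have h4 := (hmem t (Finset.mem_coe.1 ht)).2 ⟨i, h3⟩
        have h5 := (hmem t' (Finset.mem_coe.1 ht')).2 ⟨i, h3⟩
        exact h4.trans h5.symm
    have hcard : (Tz.image e).card = Tz.card := Finset.card_image_of_injOn hinj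
    have h := cs_pairs (Tz.image e) (Fintype.piFinset (fun i : {i // p i = 0} => V i.1))
      (Fintype.piFinset (fun i : {i // p i = 1} => V i.1)) (fun t => ∑ i, n i.1 • b (t i))
      (fun t => ∑ i, n i.1 • b (t i)) ?_ ?_ ?_
    · rw [hcard] at h
      have h0 := PCt_side p V b n q B Kk hq hsum hB hKk hm hK 0 (by decide)
      have h1 := PCt_side p V b n q B Kk hq hsum hB hKk hm hK 1 (by decide)
      rw [← hR0] at h0
      rw [← hR1] at h1
      have h2 : (Tz.card : ℝ) ^ 2 ≤ (R0 * R1) ^ 2 := by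
        rw [mul_pow]
        exact h.trans (mul_le_mul h0 h1 (Nat.cast_nonneg _) (by positivity))
      exact (sq_le_sq₀ (Nat.cast_nonneg _) (mul_nonneg hR0n hR1n)).1 h2
    · intro x hx
      rw [Finset.mem_image] at hx
      obtain ⟨t, ht, rfl⟩ := hx
      rw [Fintype.mem_piFinset, he]
      intro i
      exact hT t (hmem t ht).1 i.1
    · intro x hx
      rw [Finset.mem_image] at hx
      obtain ⟨t, ht, rfl⟩ := hx
      rw [Fintype.mem_piFinset, he]
      intro i
      exact hT t (hmem t ht).1 i.1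
    · intro x hx x' hx'
      rw [Finset.mem_image] at hx hx'
      obtain ⟨t, ht, rfl⟩ := hx
      obtain ⟨t', ht', rfl⟩ := hx'
      have h2 := hiff t (hmem t ht).1 t' (hmem t' ht').1 (fun i hi =>
        ((hmem t ht).2 ⟨i, hi⟩).trans ((hmem t' ht').2 ⟨i, hi⟩).symm)
      rw [← PCt_sum p 0 (fun i => n i • b (t i)), ← PCt_sum p 0 (fun i => n i • b (t' i)),
        ← PCt_sum p 1 (fun i => n i • b (t i)), ← PCt_sum p 1 (fun i => n i • b (t' i))] at h2
      rw [he]
      exact h2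
  have hcard : T.card = ∑ z ∈ Fintype.piFinset (fun i : {i // p i = 2} => V i.1),
      (T.filter (fun t => (fun i : {i // p i = 2} => t i.1) = z)).card := by
    refine Finset.card_eq_sum_card_fiberwise (fun t ht => ?_)
    rw [Finset.mem_coe, Fintype.mem_piFinset]
    intro i
    exact hT t (Finset.mem_coe.1 ht) i.1
  rw [hcard]
  push_cast
  refine (Finset.sum_le_sum (fun z _ => key z)).trans (le_of_eq ?_)
  rw [Finset.sum_const, nsmul_eq_mul, Fintype.card_piFinset, hR0, hR1]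
  push_cast
  rw [PCt_prod p 2 (fun i => ((V i).card : ℝ))]
  have hsplit : ∀ F : Fin j → ℝ, ∏ i, F i =
      (∏ i ∈ Finset.univ.filter (fun i => p i = 2), F i) *
        ((∏ i ∈ Finset.univ.filter (fun i => p i = 0), F i) *
          ∏ i ∈ Finset.univ.filter (fun i => p i = 1), F i) := by
    intro F
    rw [← Finset.prod_filter_mul_prod_filter_not Finset.univ (fun i => p i = 2)]
    congr 1
    rw [← Finset.prod_filter_mul_prod_filter_not (Finset.univ.filter (fun i => ¬ p i = 2))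
      (fun i => p i = 0), Finset.filter_filter, Finset.filter_filter]
    congr 1
    · refine Finset.prod_congr (Finset.filter_congr fun i _ => ?_) (fun _ _ => rfl)
      generalize p i = c
      fin_cases c <;> decide
    · refine Finset.prod_congr (Finset.filter_congr fun i _ => ?_) (fun _ _ => rfl)
      generalize p i = c
      fin_cases c <;> decide
  rw [hsplit]
  congr 1
  · refine Finset.prod_congr rfl fun i hi => ?_
    rw [if_pos (Finset.mem_filter.1 hi).2]
  · congr 1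
    · refine Finset.prod_congr rfl fun i hi => ?_
      rw [if_neg]
      rw [(Finset.mem_filter.1 hi).2]
      decide
    · refine Finset.prod_congr rfl fun i hi => ?_
      rw [if_neg]
      rw [(Finset.mem_filter.1 hi).2]
      decide

end Pool.Agent.TM2
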