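import Mathlib
import Pool.Agent.TM2.Defs
import Pool.Agent.TMS.IdAsym

/-!
# VCn (size 1)

`{v | ⌊ln v⌋₊ = s} ⊆ {v | N v ≤ exp (s + 1)} = plc K (exp (s + 1))`; `plc_card_le`: at most `C exp (s + 1)` places.
-/

namespace Pool.Agent.TM2

open NumberField IsDedekindDomain Pool.Agent.H7.Abc Pool.Agent.AbcE Pool.Agent.TMS

theorem place_card (K : Type) [Field K] [NumberField K] :
    ∃ C : ℝ, 1 ≤ C ∧ ∀ s : ℕ, {v : HeightOneSpectrum (𝓞 K) | ⌊ln v⌋₊ = s}.Finite ∧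
      ({v : HeightOneSpectrum (𝓞 K) | ⌊ln v⌋₊ = s}.ncard : ℝ) ≤ C * Real.exp s := by
  obtain ⟨C1, hC1, H⟩ := plc_card_le K
  refine ⟨max 1 (C1 * Real.exp 1), le_max_left _ _, fun s => ?_⟩
  have hsub : {v : HeightOneSpectrum (𝓞 K) | ⌊ln v⌋₊ = s} ⊆
      (plc K (Real.exp ((s : ℝ) + 1)) : Set (HeightOneSpectrum (𝓞 K))) := by
    intro v hv
    change ⌊ln v⌋₊ = s at hv
    rw [Finset.mem_coe, mem_plc]
    have h1 : ln v < (s : ℝ) + 1 := by
      have := Nat.lt_floor_add_one (ln v)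
      rw [hv] at this
      exact this
    have hpos : (0 : ℝ) < (Ideal.absNorm v.asIdeal : ℝ) := by
      have hne : Ideal.absNorm v.asIdeal ≠ 0 := by
        rw [Ne, Ideal.absNorm_eq_zero_iff]
        exact v.ne_bot
      exact_mod_cast Nat.pos_of_ne_zero hne
    have h2 : Real.log (Ideal.absNorm v.asIdeal : ℝ) ≤ (s : ℝ) + 1 := h1.le
    exact (Real.log_le_iff_le_exp hpos).1 h2
  refine ⟨(Finset.finite_toSet _).subset hsub, ?_⟩
  have h3 : ({v : HeightOneSpectrum (𝓞 K) | ⌊ln v⌋₊ = s}.ncard : ℝ) ≤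
      ((plc K (Real.exp ((s : ℝ) + 1))).card : ℝ) := by
    have := Set.ncard_le_ncard hsub (Finset.finite_toSet _)
    rw [Set.ncard_coe_finset] at this
    exact_mod_cast this
  calc ({v : HeightOneSpectrum (𝓞 K) | ⌊ln v⌋₊ = s}.ncard : ℝ)
      ≤ ((plc K (Real.exp ((s : ℝ) + 1))).card : ℝ) := h3
    _ ≤ C1 * Real.exp ((s : ℝ) + 1) := H _ (Real.exp_pos _).le
    _ = (C1 * Real.exp 1) * Real.exp s := by rw [Real.exp_add]; ring
    _ ≤ max 1 (C1 * Real.exp 1) * Real.exp s :=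
      mul_le_mul_of_nonneg_right (le_max_right _ _) (Real.exp_pos _).le

end Pool.Agent.TM2
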