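import Mathlib
import Pool.Agent.TM2.PCt
import Pool.Agent.TM2.MomK
import Pool.Agent.TM2.ClsR
import Pool.Agent.TM2.VCn
import Pool.Agent.TMS.Block

/-!
# PerT (size 4)

Let `C` be larger than the constants of `supp_card` (TMS/Block), `place_card`, and `1 + 2 d C0`, `d log 2`, `1`.
For `x ∈ 𝒳` choose `v x` with `Dat` and the residues; `T = 𝒳.image v`; `V i = {v | g.cl v = c i ∧ ⌊ln v⌋₊ = s i ∧ v ∉ F}` (a finset,
`place_card`: `(V i).card ≤ C exp (s i)`). `pure_count` with `b v = r (g.β v)`, `n = m`, `B i = q! (C exp (s i)) ^ q` (`moment_le` and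
`(V i).card ≤ C exp (s i)`), `Kk i = ∏_{l ∈ F} gcd (m i, N_l - 1) > 0` (`Res.ker`; `N_l - 1 ≥ 1`), `hiff` from `class_iff`:
`T.card ≤ ∏ i, wgt C F (p i) (s i) (m i) (q i)` (for `p i = 2`: `(V i).card ≤ C exp (s i)`; `Finset.prod_le_prod`).
Each `t ∈ T` has at most `exp (C (j + 1))` preimages `x`: all have `supp x = range t`, a set of `j` places (`supp_card`, with
`S = Finset.univ.image t`). `𝒳.card ≤ ∑_{t ∈ T} #{x | v x = t}` (`Finset.card_le_mul_card_image`).
-/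

namespace Pool.Agent.TM2

open NumberField IsDedekindDomain Pool.Agent.H7.Abc Pool.Agent.AbcE Pool.Agent.TMS

theorem per_res {K : Type} [Field K] [NumberField K] (g : Gens K) :
    ∃ C : ℝ, 1 ≤ C ∧ ∀ (F : Finset (HeightOneSpectrum (𝓞 K))) (L j : ℕ) (p : Fin j → Fin 3)
      (c : Fin j → Fin g.Mc) (s m q : Fin j → ℕ), (∀ i, g.base (c i) (s i) ∉ F) →
      (∀ i, p i ≠ 2 → 1 ≤ q i ∧ (q i : ℝ) * (s i + C) + C < ∑ l ∈ F, ln l) →
      (∑ i ∈ Finset.univ.filter (fun i => p i ≠ 2), (1 / (q i : ℝ)) ≤ 1) →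
      ∀ (G : Type) [AddCommGroup G] [Fintype G] (r : K → G), Res F r →
      ∀ (ρ1 ρ2 : G) (𝒳 : Finset K),
      (∀ x ∈ 𝒳, ∃ v : Fin j → HeightOneSpectrum (𝓞 K), Dat g F L p c s m x v ∧
        r (x * bp g v (ex1 p m)) = ρ1 ∧ r ((1 - x) * bp g v (ex2 p m)) = ρ2) →
      (𝒳.card : ℝ) ≤ Real.exp (C * (j + 1)) * ∏ i, wgt C F (p i) (s i) (m i) (q i) := by
  classical
  obtain ⟨CS, hCS, hS⟩ := supp_card K
  obtain ⟨CP, hCP1, hP⟩ := place_card K
  obtain ⟨d, hd⟩ : ∃ d : ℝ, d = (Module.finrank ℚ K : ℝ) := ⟨_, rfl⟩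
  have hd0 : 0 ≤ d := by rw [hd]; exact Nat.cast_nonneg _
  have hl2 : 0 ≤ Real.log 2 := Real.log_nonneg (by norm_num)
  have hdC : 0 ≤ 2 * d * g.C0 := by have := g.hC0; positivity
  have hdl : 0 ≤ d * Real.log 2 := mul_nonneg hd0 hl2
  obtain ⟨C, hC⟩ : ∃ C : ℝ, C = 1 + CS + CP + 2 * d * g.C0 + d * Real.log 2 := ⟨_, rfl⟩
  refine ⟨C, by linarith, ?_⟩
  intro F L j p c s m q hbase hqF hsum G _ _ r hr ρ1 ρ2 𝒳 h𝒳
  have hC1 : 1 ≤ C := by linarith
  have hNpos : ∀ l : HeightOneSpectrum (𝓞 K), 0 < Ideal.absNorm l.asIdeal - 1 := by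
    intro l
    have h := one_lt_norm (K := K) l
    have h' : (1 : ℕ) < Ideal.absNorm l.asIdeal := by
      first
        | exact_mod_cast h
        | (simpa using h)
    omega
  have hKpos : ∀ i, (0 : ℝ) < ∏ l ∈ F, (Nat.gcd (m i) (Ideal.absNorm l.asIdeal - 1) : ℝ) := by
    intro i
    refine Finset.prod_pos fun l _ => ?_
    exact_mod_cast Nat.gcd_pos_of_pos_right _ (hNpos l)
  have hBpos : ∀ i, (0 : ℝ) < ((q i).factorial : ℝ) * (C * Real.exp (s i)) ^ (q i) := by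
    intro i
    have h1 : (0 : ℝ) < ((q i).factorial : ℝ) := by exact_mod_cast Nat.factorial_pos _
    have h2 : (0 : ℝ) < C * Real.exp (s i) := mul_pos (by linarith) (Real.exp_pos _)
    positivity
  have hw0 : ∀ i, 0 ≤ wgt C F (p i) (s i) (m i) (q i) := by
    intro i
    unfold wgt
    split_ifs
    · exact mul_nonneg (by linarith) (Real.exp_pos _).le
    · exact Real.rpow_nonneg (mul_nonneg (hKpos i).le (hBpos i).le) _
  rcases 𝒳.eq_empty_or_nonempty with hem | ⟨x₀, hx₀⟩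
  · rw [hem, Finset.card_empty, Nat.cast_zero]
    exact mul_nonneg (Real.exp_pos _).le (Finset.prod_nonneg fun i _ => hw0 i)
  have : Nonempty (Fin j → HeightOneSpectrum (𝓞 K)) := ⟨(h𝒳 x₀ hx₀).choose⟩
  choose! v hv using h𝒳
  obtain ⟨V, hV⟩ : ∃ V : Fin j → Finset (HeightOneSpectrum (𝓞 K)),
      V = fun i => (hP (s i)).1.toFinset.filter (fun u => g.cl u = c i ∧ u ∉ F) := ⟨_, rfl⟩
  have hVmem : ∀ i u, u ∈ V i ↔ (⌊ln u⌋₊ = s i ∧ (g.cl u = c i ∧ u ∉ F)) := by
    intro i u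
    rw [hV]
    simp only [Finset.mem_filter, Set.Finite.mem_toFinset, Set.mem_setOf_eq]
  have hVcard : ∀ i, ((V i).card : ℝ) ≤ C * Real.exp (s i) := by
    intro i
    have h1 : (V i).card ≤ {v : HeightOneSpectrum (𝓞 K) | ⌊ln v⌋₊ = s i}.ncard := by
      rw [Set.ncard_eq_toFinset_card _ (hP (s i)).1, hV]
      exact Finset.card_filter_le _ _
    have h2 : ((V i).card : ℝ) ≤ CP * Real.exp (s i) := le_trans (by exact_mod_cast h1) (hP (s i)).2
    refine h2.trans (mul_le_mul_of_nonneg_right (by linarith) (Real.exp_pos _).le)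
  have hVmem' : ∀ x ∈ 𝒳, ∀ i, v x i ∈ V i := by
    intro x hx i
    rw [hVmem]
    exact ⟨(hv x hx).1.hs i, (hv x hx).1.hc i, (hv x hx).1.hF i⟩
  have hT : ((𝒳.image v).card : ℝ) ≤ ∏ i, (if p i = 2 then ((V i).card : ℝ)
      else ((∏ l ∈ F, (Nat.gcd (m i) (Ideal.absNorm l.asIdeal - 1) : ℝ)) *
        (((q i).factorial : ℝ) * (C * Real.exp (s i)) ^ (q i))) ^ (1 / (2 * (q i : ℝ)))) := by
    refine pure_count p V (fun u => r (g.β u)) m q
      (fun i => ((q i).factorial : ℝ) * (C * Real.exp (s i)) ^ (q i))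
      (fun i => ∏ l ∈ F, (Nat.gcd (m i) (Ideal.absNorm l.asIdeal - 1) : ℝ))
      (fun i hi => (hqF i hi).1) hsum (fun i _ => hBpos i) (fun i _ => hKpos i) ?_
      (fun i _ => hr.ker (m i)) _ ?_ ?_
    · intro i hi
      have h1 : (mom (V i) (fun u => r (g.β u)) (q i) : ℝ) ≤
          ((q i).factorial : ℝ) * ((V i).card : ℝ) ^ (q i) := by
        refine moment_le g F r hr (c i) (s i) (q i) (V i) ?_ (hbase i) ?_
        · intro u hu
          rw [hVmem] at hu
          exact ⟨hu.2.1, hu.1, hu.2.2⟩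
        · obtain ⟨hq1, hq2⟩ := hqF i hi
          refine lt_of_le_of_lt ?_ hq2
          rw [← hd]
          have hq0 : (0 : ℝ) ≤ (q i : ℝ) := Nat.cast_nonneg _
          have h3 : (q i : ℝ) * ((s i : ℝ) + 1 + 2 * d * g.C0) ≤ (q i : ℝ) * ((s i : ℝ) + C) :=
            mul_le_mul_of_nonneg_left (by linarith) hq0
          linarith
      refine h1.trans ?_
      refine mul_le_mul_of_nonneg_left ?_ (Nat.cast_nonneg _)
      exact pow_le_pow_left₀ (Nat.cast_nonneg _) (hVcard i) _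
    · intro t ht i
      obtain ⟨x, hx, rfl⟩ := Finset.mem_image.1 ht
      exact hVmem' x hx i
    · intro t ht t' ht' hC2
      obtain ⟨x, hx, rfl⟩ := Finset.mem_image.1 ht
      obtain ⟨x', hx', rfl⟩ := Finset.mem_image.1 ht'
      exact class_iff (hv x hx).1 (hv x' hx').1 hbase hr
        ((hv x hx).2.1.trans (hv x' hx').2.1.symm) ((hv x hx).2.2.trans (hv x' hx').2.2.symm) hC2
  have hT2 : ((𝒳.image v).card : ℝ) ≤ ∏ i, wgt C F (p i) (s i) (m i) (q i) := by
    refine hT.trans (Finset.prod_le_prod ?_ ?_)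
    · intro i _
      split_ifs
      · exact Nat.cast_nonneg _
      · exact Real.rpow_nonneg (mul_nonneg (hKpos i).le (hBpos i).le) _
    · intro i _
      unfold wgt
      split_ifs
      · exact hVcard i
      · exact le_refl _
  -- the fibres
  have hfib : ∀ t ∈ 𝒳.image v, (𝒳.filter (fun x => v x = t)).card ≤
      ⌊Real.exp (C * ((j : ℝ) + 1))⌋₊ := by
    intro t _
    apply Nat.le_floor
    obtain ⟨hfin, hcard⟩ := hS (Finset.univ.image t)
    have hsub : ((𝒳.filter (fun x => v x = t) : Finset K) : Set K) ⊆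
        {x : K | x ≠ 0 ∧ x ≠ 1 ∧
          supp x = ((Finset.univ.image t : Finset (HeightOneSpectrum (𝓞 K))) :
            Set (HeightOneSpectrum (𝓞 K)))} := by
      intro x hx
      rw [Finset.mem_coe, Finset.mem_filter] at hx
      obtain ⟨hx1, hx2⟩ := hx
      have hD := (hv x hx1).1
      refine ⟨hD.x0, hD.x1, ?_⟩
      rw [Finset.coe_image, Finset.coe_univ, Set.image_univ, ← hD.lst.2, hx2]
    have h1 : (𝒳.filter (fun x => v x = t)).card ≤ {x : K | x ≠ 0 ∧ x ≠ 1 ∧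
          supp x = ((Finset.univ.image t : Finset (HeightOneSpectrum (𝓞 K))) :
            Set (HeightOneSpectrum (𝓞 K)))}.ncard := by
      rw [← Set.ncard_coe_finset]
      exact Set.ncard_le_ncard hsub hfin
    have h2 : (((Finset.univ.image t).card : ℕ) : ℝ) ≤ (j : ℝ) := by
      have := Finset.card_image_le (s := (Finset.univ : Finset (Fin j))) (f := t)
      rw [Finset.card_univ, Fintype.card_fin] at this
      exact_mod_cast this
    calc ((𝒳.filter (fun x => v x = t)).card : ℝ) ≤ _ := by exact_mod_cast h1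
      _ ≤ _ := hcard
      _ ≤ Real.exp (C * ((j : ℝ) + 1)) := by
        apply Real.exp_le_exp.2
        have hj : (0 : ℝ) ≤ (j : ℝ) := Nat.cast_nonneg _
        have h3 : CS * ((((Finset.univ.image t).card : ℕ) : ℝ) + 1) ≤ CS * ((j : ℝ) + 1) :=
          mul_le_mul_of_nonneg_left (by linarith) hCS.le
        have h4 : CS * ((j : ℝ) + 1) ≤ C * ((j : ℝ) + 1) :=
          mul_le_mul_of_nonneg_right (by linarith) (by linarith)
        linarith
  have hcard := Finset.card_le_mul_card_image 𝒳 _ hfib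
  calc (𝒳.card : ℝ) ≤ ((⌊Real.exp (C * ((j : ℝ) + 1))⌋₊ * (𝒳.image v).card : ℕ) : ℝ) := by
        exact_mod_cast hcard
    _ = (⌊Real.exp (C * ((j : ℝ) + 1))⌋₊ : ℝ) * ((𝒳.image v).card : ℝ) := by push_cast; ring
    _ ≤ Real.exp (C * ((j : ℝ) + 1)) * ∏ i, wgt C F (p i) (s i) (m i) (q i) :=
        mul_le_mul (Nat.floor_le (Real.exp_pos _).le) hT2 (Nat.cast_nonneg _) (Real.exp_pos _).le

end Pool.Agent.TM2
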