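import Mathlib
import Pool.Agent.TM2.Defs

/-!
# ResG (size 4)

The residue group: `G = ∀ l : F, Additive (𝓞 K ⧸ l.asIdeal)ˣ` (finite: `𝓞 K ⧸ l.asIdeal` is finite of cardinality
`Ideal.absNorm l.asIdeal` and a field, the unit group has `Ideal.absNorm l.asIdeal - 1` elements and is cyclic).
For `s ≠ 0` with `ord l s = 0` choose `a, b ∈ 𝓞 K` outside `l.asIdeal` with `s = a / b` (e.g. from
`IsLocalization.AtPrime`/the valuation ring: `IsDedekindDomain.HeightOneSpectrum.valuation` of `s` is `1`; or: write `s = a / b` with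
`a, b ∈ 𝓞 K`, `n = ord l a = ord l b`; choose `c ∈ 𝓞 K` and `ϖ` with ... so that `a c / ϖ ^ n`, `b c / ϖ ^ n` are integral and
outside `l`; or use Mathlib's residue field of the completion/of the valuation subring; any construction is fine).
Let `r s l = [a] * [b]⁻¹` and `0` if `s` is not a unit at `l`. It does not depend on the choice: if `a / b = a' / b'` then
`a b' = a' b`. Multiplicative: clear. `r s = r t` iff for all `l ∈ F`: `a b' - a' b ∈ l.asIdeal`, i.e. `|a b' - a' b|_l < 1`, i.e.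
`|s - t|_l < 1` (`|b b'|_l = 1`; `FinitePlace.mk l x < 1` iff `0 < ord l x`, for `x ∈ 𝓞 K` iff `x ∈ l.asIdeal`).
Kernel: `{a : G // n • a = 0}` is the product over `l` of the `n`-torsion of the cyclic group of order `N_l - 1`, which has
`gcd (n, N_l - 1)` elements (`IsCyclic.card_pow_eq_one_le`/`IsCyclic.card_powMonoidHom_range`...; `n = 0`: all; an inequality `≤` is
enough: an element of order dividing `n` and `N_l - 1` has order dividing the gcd, and in a cyclic group (or: in a field) at most `d`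
elements satisfy `x ^ d = 1`). Exponent: `card (𝓞 K ⧸ l)ˣ = N_l - 1 ∣ n` (`pow_card_eq_one'`).
-/

namespace Pool.Agent.TM2

open NumberField IsDedekindDomain Pool.Agent.H7.Abc Pool.Agent.AbcE Pool.Agent.TMS

private theorem ResG_lt_iff {K : Type} [Field K] [NumberField K] (l : HeightOneSpectrum (𝓞 K))
    (x : K) : FinitePlace.mk l x < 1 ↔ l.valuation K x < 1 := by
  by_cases hx : x = 0
  · subst hx
    simp
  · rw [mk_eq_zpow l hx, zpow_lt_one_iff_right₀ (one_lt_norm l)]
    have hv : l.valuation K x ≠ 0 := (Valuation.ne_zero_iff _).2 hx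
    unfold ord
    rw [neg_neg, ← WithZero.log_one (M := ℤ), WithZero.log_lt_log hv one_ne_zero]

private theorem ResG_ord {K : Type} [Field K] [NumberField K] (l : HeightOneSpectrum (𝓞 K))
    {x : K} (hx : x ≠ 0) (h : ord l x = 0) : l.valuation K x = 1 := by
  have hv : l.valuation K x ≠ 0 := (Valuation.ne_zero_iff _).2 hx
  unfold ord at h
  rw [neg_eq_zero] at h
  rw [← WithZero.exp_log hv, h, WithZero.exp_zero]

private theorem ResG_ex {K : Type} [Field K] [NumberField K] (l : HeightOneSpectrum (𝓞 K))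
    (x : K) : ∃ a : 𝓞 K, l.valuation K x ≤ 1 →
      l.valuation K (algebraMap (𝓞 K) K a - x) < 1 := by
  by_cases h : l.valuation K x ≤ 1
  · obtain ⟨a, ha⟩ := l.exists_valuation_sub_lt_of_integer h 1
    exact ⟨a, fun _ => by simpa using ha⟩
  · exact ⟨0, fun h' => absurd h' h⟩

private noncomputable def ResG_a {K : Type} [Field K] [NumberField K]
    (l : HeightOneSpectrum (𝓞 K)) (x : K) : 𝓞 K := (ResG_ex l x).choose

private theorem ResG_a_spec {K : Type} [Field K] [NumberField K]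
    (l : HeightOneSpectrum (𝓞 K)) {x : K} (hx : l.valuation K x ≤ 1) :
    l.valuation K (algebraMap (𝓞 K) K (ResG_a l x) - x) < 1 := (ResG_ex l x).choose_spec hx

/-- the residue class -/
private noncomputable def ResG_p {K : Type} [Field K] [NumberField K]
    (l : HeightOneSpectrum (𝓞 K)) (x : K) : 𝓞 K ⧸ l.asIdeal :=
  Ideal.Quotient.mk l.asIdeal (ResG_a l x)

private theorem ResG_mk_eq {K : Type} [Field K] [NumberField K]
    (l : HeightOneSpectrum (𝓞 K)) (a b : 𝓞 K) :
    Ideal.Quotient.mk l.asIdeal a = Ideal.Quotient.mk l.asIdeal b ↔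
      l.valuation K (algebraMap (𝓞 K) K a - algebraMap (𝓞 K) K b) < 1 := by
  rw [Ideal.Quotient.eq, ← l.valuation_lt_one_iff_mem (K := K)]
  rw [← map_sub]

private theorem ResG_add {K : Type} [Field K] [NumberField K]
    (l : HeightOneSpectrum (𝓞 K)) {x y : K} (hx : l.valuation K x < 1)
    (hy : l.valuation K y < 1) : l.valuation K (x + y) < 1 :=
  lt_of_le_of_lt (Valuation.map_add _ x y) (max_lt hx hy)

private theorem ResG_neg {K : Type} [Field K] [NumberField K]
    (l : HeightOneSpectrum (𝓞 K)) {x : K} (hx : l.valuation K x < 1) :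
    l.valuation K (-x) < 1 := by
  rwa [Valuation.map_neg]

private theorem ResG_mul1 {K : Type} [Field K] [NumberField K]
    (l : HeightOneSpectrum (𝓞 K)) {x y : K} (hx : l.valuation K x ≤ 1)
    (hy : l.valuation K y < 1) : l.valuation K (x * y) < 1 := by
  rw [map_mul]
  exact mul_lt_one_of_nonneg_of_lt_one_right hx zero_le hy

private theorem ResG_p_mul {K : Type} [Field K] [NumberField K]
    (l : HeightOneSpectrum (𝓞 K)) {x y : K} (hx : l.valuation K x ≤ 1)
    (hy : l.valuation K y ≤ 1) : ResG_p l (x * y) = ResG_p l x * ResG_p l y := by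
  unfold ResG_p
  rw [← map_mul, ResG_mk_eq]
  have hxy : l.valuation K (x * y) ≤ 1 := by
    rw [map_mul]
    exact mul_le_one' hx hy
  have h1 := ResG_a_spec l hxy
  have h2 := ResG_a_spec l hx
  have h3 := ResG_a_spec l hy
  have h4 := ResG_mul1 l (l.valuation_le_one (K := K) (ResG_a l x)) h3
  have h5 := ResG_mul1 l hy h2
  have h6 := ResG_add l h1 (ResG_neg l (ResG_add l h4 h5))
  have h7 : (algebraMap (𝓞 K) K (ResG_a l (x * y)) - x * y) +
      -(algebraMap (𝓞 K) K (ResG_a l x) * (algebraMap (𝓞 K) K (ResG_a l y) - y) +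
        y * (algebraMap (𝓞 K) K (ResG_a l x) - x)) =
      algebraMap (𝓞 K) K (ResG_a l (x * y)) -
        algebraMap (𝓞 K) K (ResG_a l x * ResG_a l y) := by
    rw [map_mul]
    ring
  rw [← h7]
  exact h6

private theorem ResG_p_eq {K : Type} [Field K] [NumberField K]
    (l : HeightOneSpectrum (𝓞 K)) {x y : K} (hx : l.valuation K x ≤ 1)
    (hy : l.valuation K y ≤ 1) : ResG_p l x = ResG_p l y ↔ l.valuation K (x - y) < 1 := by
  unfold ResG_p
  rw [ResG_mk_eq]
  have h2 := ResG_a_spec l hx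
  have h3 := ResG_a_spec l hy
  constructor
  · intro h
    have h4 := ResG_add l (ResG_add l h (ResG_neg l h2)) h3
    have h5 : (algebraMap (𝓞 K) K (ResG_a l x) - algebraMap (𝓞 K) K (ResG_a l y)) +
        -(algebraMap (𝓞 K) K (ResG_a l x) - x) + (algebraMap (𝓞 K) K (ResG_a l y) - y) =
        x - y := by ring
    rwa [h5] at h4
  · intro h
    have h4 := ResG_add l (ResG_add l h h2) (ResG_neg l h3)
    have h5 : (x - y) + (algebraMap (𝓞 K) K (ResG_a l x) - x) +
        -(algebraMap (𝓞 K) K (ResG_a l y) - y) =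
        algebraMap (𝓞 K) K (ResG_a l x) - algebraMap (𝓞 K) K (ResG_a l y) := by ring
    rwa [h5] at h4

private theorem ResG_p_one {K : Type} [Field K] [NumberField K]
    (l : HeightOneSpectrum (𝓞 K)) : ResG_p l (1 : K) = 1 := by
  unfold ResG_p
  rw [← map_one (Ideal.Quotient.mk l.asIdeal), ResG_mk_eq, map_one]
  exact ResG_a_spec l (by rw [map_one])

private theorem ResG_unit {K : Type} [Field K] [NumberField K]
    (l : HeightOneSpectrum (𝓞 K)) {x : K} (hx : l.valuation K x = 1) :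
    IsUnit (ResG_p l x) := by
  have hx0 : x ≠ 0 := by
    intro h
    rw [h, map_zero] at hx
    exact zero_ne_one hx
  have hi : l.valuation K x⁻¹ = 1 := by rw [map_inv₀, hx, inv_one]
  have h1 := ResG_p_mul l hx.le hi.le
  rw [mul_inv_cancel₀ hx0, ResG_p_one] at h1
  exact IsUnit.of_mul_eq_one _ h1.symm

private theorem ResG_pow {K : Type} [Field K] [NumberField K]
    (l : HeightOneSpectrum (𝓞 K)) (x : (𝓞 K ⧸ l.asIdeal)ˣ) :
    x ^ (Ideal.absNorm l.asIdeal - 1) = 1 := by
  have hf : Finite (𝓞 K ⧸ l.asIdeal) := Ring.HasFiniteQuotients.finiteQuotient l.ne_bot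
  have hmax : l.asIdeal.IsMaximal := l.isMaximal
  letI : Field (𝓞 K ⧸ l.asIdeal) := Ideal.Quotient.field l.asIdeal
  letI : Fintype (𝓞 K ⧸ l.asIdeal) := Fintype.ofFinite _
  have h1 := FiniteField.pow_card_sub_one_eq_one (x : 𝓞 K ⧸ l.asIdeal) x.ne_zero
  have h2 : Ideal.absNorm l.asIdeal = Fintype.card (𝓞 K ⧸ l.asIdeal) := by
    rw [Ideal.absNorm_apply, Submodule.cardQuot_apply, Nat.card_eq_fintype_card]
  rw [h2]
  apply Units.ext
  rw [Units.val_pow_eq_pow_val, Units.val_one]
  exact h1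

private theorem ResG_card {K : Type} [Field K] [NumberField K]
    (l : HeightOneSpectrum (𝓞 K)) (n : ℕ) :
    Nat.card {x : Additive (𝓞 K ⧸ l.asIdeal)ˣ // n • x = 0} ≤
      Nat.gcd n (Ideal.absNorm l.asIdeal - 1) := by
  classical
  have hf : Finite (𝓞 K ⧸ l.asIdeal) := Ring.HasFiniteQuotients.finiteQuotient l.ne_bot
  have hprime : l.asIdeal.IsPrime := l.isPrime
  have hN : 1 < Ideal.absNorm l.asIdeal := by exact_mod_cast one_lt_norm l
  obtain ⟨d, hd⟩ : ∃ d, d = Nat.gcd n (Ideal.absNorm l.asIdeal - 1) := ⟨_, rfl⟩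
  have hd0 : 0 < d := by
    rw [hd]
    exact Nat.gcd_pos_of_pos_right _ (by omega)
  letI : Fintype (𝓞 K ⧸ l.asIdeal)ˣ := Fintype.ofFinite _
  have h1 := IsCyclic.card_pow_eq_one_le (α := (𝓞 K ⧸ l.asIdeal)ˣ) hd0
  rw [← hd]
  refine le_trans ?_ h1
  let φ : {x : Additive (𝓞 K ⧸ l.asIdeal)ˣ // n • x = 0} →
      {a : (𝓞 K ⧸ l.asIdeal)ˣ // a ∈ ({a | a ^ d = 1} : Finset (𝓞 K ⧸ l.asIdeal)ˣ)} := fun x =>
    ⟨Additive.toMul x.1, by
      rw [Finset.mem_filter]
      refine ⟨Finset.mem_univ _, ?_⟩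
      rw [hd]
      refine pow_gcd_eq_one.2 ⟨?_, ?_⟩
      · have h2 := x.2
        have h3 := congrArg Additive.toMul h2
        exact h3
      · exact ResG_pow l _⟩
  have hφ : Function.Injective φ := by
    intro x y h
    have h2 := congrArg Subtype.val h
    exact Subtype.ext h2
  have h2 := Nat.card_le_card_of_injective φ hφ
  rwa [Nat.card_eq_fintype_card (α := {a : (𝓞 K ⧸ l.asIdeal)ˣ // a ∈
    ({a | a ^ d = 1} : Finset (𝓞 K ⧸ l.asIdeal)ˣ)}), Fintype.card_coe] at h2

theorem exists_res {K : Type} [Field K] [NumberField K]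
    (F : Finset (HeightOneSpectrum (𝓞 K))) :
    ∃ (G : Type) (_ : AddCommGroup G) (_ : Fintype G) (r : K → G), Res F r := by
  classical
  have hfin : ∀ l : F, Finite (𝓞 K ⧸ l.1.asIdeal) := fun l =>
    Ring.HasFiniteQuotients.finiteQuotient l.1.ne_bot
  let r : K → (∀ l : F, Additive (𝓞 K ⧸ l.1.asIdeal)ˣ) := fun s l =>
    if h : IsUnit (ResG_p l.1 s) then Additive.ofMul h.unit else 0
  have hr : ∀ (s : K) (l : F) (h : IsUnit (ResG_p l.1 s)), r s l = Additive.ofMul h.unit := by
    intro s l h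
    simp only [r]
    rw [dif_pos h]
  have hval : ∀ s : K, UnitAt F s → ∀ l : F, l.1.valuation K s = 1 := fun s hs l =>
    ResG_ord l.1 hs.1 (hs.2 l.1 l.2)
  let i2 : Fintype (∀ l : F, Additive (𝓞 K ⧸ l.1.asIdeal)ˣ) := Fintype.ofFinite _
  refine ⟨∀ l : F, Additive (𝓞 K ⧸ l.1.asIdeal)ˣ, inferInstance, i2, r, ?_⟩
  refine ⟨?_, ?_, ?_, ?_⟩
  · intro s t hs ht
    funext l
    have h1 := hval s hs l
    have h2 := hval t ht l
    have h3 : l.1.valuation K (s * t) = 1 := by rw [map_mul, h1, h2, one_mul]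
    rw [Pi.add_apply, hr s l (ResG_unit l.1 h1), hr t l (ResG_unit l.1 h2),
      hr (s * t) l (ResG_unit l.1 h3), ← ofMul_mul]
    congr 1
    apply Units.ext
    rw [Units.val_mul, IsUnit.unit_spec, IsUnit.unit_spec, IsUnit.unit_spec]
    exact ResG_p_mul l.1 h1.le h2.le
  · intro s t hs ht
    constructor
    · intro h l hl
      have h1 := hval s hs ⟨l, hl⟩
      have h2 := hval t ht ⟨l, hl⟩
      have h3 := congrFun h ⟨l, hl⟩
      rw [hr s ⟨l, hl⟩ (ResG_unit l h1), hr t ⟨l, hl⟩ (ResG_unit l h2)] at h3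
      have h4 := congrArg Units.val (Additive.ofMul.injective h3)
      rw [IsUnit.unit_spec, IsUnit.unit_spec] at h4
      rw [ResG_lt_iff]
      exact (ResG_p_eq l h1.le h2.le).1 h4
    · intro h
      funext l
      have h1 := hval s hs l
      have h2 := hval t ht l
      rw [hr s l (ResG_unit l.1 h1), hr t l (ResG_unit l.1 h2)]
      congr 1
      apply Units.ext
      rw [IsUnit.unit_spec, IsUnit.unit_spec]
      exact (ResG_p_eq l.1 h1.le h2.le).2 ((ResG_lt_iff l.1 _).1 (h l.1 l.2))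
  · intro n
    have e1 : {a : ∀ l : F, Additive (𝓞 K ⧸ l.1.asIdeal)ˣ // n • a = 0} ≃
        {a : ∀ l : F, Additive (𝓞 K ⧸ l.1.asIdeal)ˣ // ∀ l, n • a l = 0} :=
      Equiv.subtypeEquivRight fun a => by
        rw [funext_iff]
        rfl
    have e2 : {a : ∀ l : F, Additive (𝓞 K ⧸ l.1.asIdeal)ˣ // ∀ l, n • a l = 0} ≃
        (∀ l : F, {x : Additive (𝓞 K ⧸ l.1.asIdeal)ˣ // n • x = 0}) :=
      Equiv.subtypePiEquivPi (p := fun (l : F) (x : Additive (𝓞 K ⧸ l.1.asIdeal)ˣ) => n • x = 0)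
    rw [Nat.card_congr (e1.trans e2), Nat.card_pi]
    push_cast
    rw [← Finset.prod_coe_sort F (fun l => (Nat.gcd n (Ideal.absNorm l.asIdeal - 1) : ℝ))]
    refine Finset.prod_le_prod (fun l _ => Nat.cast_nonneg _) fun l _ => ?_
    exact_mod_cast ResG_card l.1 n
  · intro n hn a
    funext l
    obtain ⟨m, hm⟩ := hn l.1 l.2
    have h1 := ResG_pow l.1 (Additive.toMul (a l))
    have h2 : (Additive.toMul (a l)) ^ n = 1 := by
      rw [hm, pow_mul, h1, one_pow]
    exact h2

end Pool.Agent.TM2
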