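import Mathlib
import Pool.Agent.TM2.PerT
import Pool.Agent.TM2.ResG
import Pool.Agent.TMS.PowCol

/-!
# PerC (size 4)

Let `(G, r)` be from `exists_res F`, `T = Finset.univ.image (fun i => g.base (c i) (s i))` (at most `j` places, none in `F`), and `f : K → Fin M` the colouring
`pow_col` for `e = L`, `T`: `M ≤ Cp L ^ (T.card + Cp) ≤ Cp L ^ (j + Cp)`. For `x ∈ 𝒳` choose `v x` with `Dat`; let `y1 x = x * bp g (v x) (ex1 p m)`,
`y2 x = (1 - x) * bp g (v x) (ex2 p m)`. For `u ∉ T`: `L ∣ ord u (y1 x) - ord u (y1 x')` (`div_dvd`), so if `f (y1 x) = f (y1 x')`: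
`y1 x = y1 x' * t ^ L`, `t ≠ 0`. `y1 x`, `y1 x'` are `F`-units (`div_units`), so `L * ord l t = 0`, `t` is an `F`-unit (`1 ≤ L`), and
`r (t ^ L) = L • r t = 0` by `Res.exp`; hence `r (y1 x) = r (y1 x')`. The same for `y2`. So on each colour class `{x ∈ 𝒳 | f (y1 x) = a, f (y2 x) = a'}`
the residues are constant, and `per_res` bounds its cardinality. There are `M ^ 2 ≤ (Cp L ^ (j + Cp)) ^ 2 ≤ exp (C' (j + 1) (1 + log L))` classes
(`Finset.card_le_mul_card_image` or `Finset.card_eq_sum_card_fiberwise`). The new constant `C` must be at least the constant of `per_res`; note that `wgt C`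
is monotone in `C`; the hypothesis `q (s + C) + C < ...` for the larger constant implies the one for the smaller (take the
exponential factor `exp (C (j + 1) (1 + log L))` with the large constant, and `wgt` monotone: `Finset.prod_le_prod`, `Real.rpow_le_rpow`).
-/

namespace Pool.Agent.TM2

open NumberField IsDedekindDomain Pool.Agent.H7.Abc Pool.Agent.AbcE Pool.Agent.TMS

section percHelpers

variable {K : Type} [Field K] [NumberField K]

private theorem perc_wgt_nonneg {C : ℝ} (hC : 0 ≤ C) (F : Finset (HeightOneSpectrum (𝓞 K)))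
    (p : Fin 3) (s m q : ℕ) : 0 ≤ wgt C F p s m q := by
  unfold wgt
  split_ifs
  · positivity
  · apply Real.rpow_nonneg
    apply mul_nonneg
    · exact Finset.prod_nonneg fun l _ => Nat.cast_nonneg _
    · positivity

private theorem perc_wgt_mono {C1 C : ℝ} (hC1 : 0 ≤ C1) (h : C1 ≤ C)
    (F : Finset (HeightOneSpectrum (𝓞 K))) (p : Fin 3) (s m q : ℕ) :
    wgt C1 F p s m q ≤ wgt C F p s m q := by
  unfold wgt
  split_ifs
  · exact mul_le_mul_of_nonneg_right h (Real.exp_pos _).le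
  · have hP : (0 : ℝ) ≤ ∏ l ∈ F, (Nat.gcd m (Ideal.absNorm l.asIdeal - 1) : ℝ) :=
      Finset.prod_nonneg fun l _ => Nat.cast_nonneg _
    apply Real.rpow_le_rpow
    · exact mul_nonneg hP (by positivity)
    · apply mul_le_mul_of_nonneg_left _ hP
      apply mul_le_mul_of_nonneg_left _ (Nat.cast_nonneg _)
      apply pow_le_pow_left₀ (by positivity)
      exact mul_le_mul_of_nonneg_right h (Real.exp_pos _).le
    · positivity

private theorem perc_unit_one (F : Finset (HeightOneSpectrum (𝓞 K))) : UnitAt F (1 : K) :=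
  ⟨one_ne_zero, fun l _ => ord_one' l⟩

private theorem perc_unit_mul {F : Finset (HeightOneSpectrum (𝓞 K))} {s t : K}
    (hs : UnitAt F s) (ht : UnitAt F t) : UnitAt F (s * t) :=
  ⟨mul_ne_zero hs.1 ht.1, fun l hl => by rw [ord_mul' l hs.1 ht.1, hs.2 l hl, ht.2 l hl, add_zero]⟩

private theorem perc_unit_pow {F : Finset (HeightOneSpectrum (𝓞 K))} {t : K}
    (ht : UnitAt F t) (n : ℕ) : UnitAt F (t ^ n) :=
  ⟨pow_ne_zero _ ht.1, fun l hl => by rw [ord_pow' l ht.1, ht.2 l hl, mul_zero]⟩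

private theorem perc_r_pow {F : Finset (HeightOneSpectrum (𝓞 K))} {G : Type} [AddCommGroup G]
    [Fintype G] {r : K → G} (hr : Res F r) {t : K} (ht : UnitAt F t) (n : ℕ) :
    r (t ^ n) = n • r t := by
  induction n with
  | zero =>
    have h := hr.mul 1 1 (perc_unit_one F) (perc_unit_one F)
    rw [mul_one] at h
    rw [pow_zero, zero_smul]
    exact left_eq_add.1 h
  | succ n ih =>
    rw [pow_succ, hr.mul _ _ (perc_unit_pow ht n) ht, ih, succ_nsmul]

private theorem perc_res_eq {F : Finset (HeightOneSpectrum (𝓞 K))} {G : Type} [AddCommGroup G]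
    [Fintype G] {r : K → G} (hr : Res F r) {L : ℕ} (hL : 1 ≤ L)
    (hLF : ∀ l ∈ F, (Ideal.absNorm l.asIdeal - 1) ∣ L) {y y' t : K} (hy : UnitAt F y)
    (hy' : UnitAt F y') (ht : t ≠ 0) (h : y = y' * t ^ L) : r y = r y' := by
  have htU : UnitAt F t := by
    refine ⟨ht, fun l hl => ?_⟩
    have h1 := hy.2 l hl
    rw [h, ord_mul' l hy'.1 (pow_ne_zero _ ht), hy'.2 l hl, zero_add, ord_pow' l ht] at h1
    rcases mul_eq_zero.1 h1 with h2 | h2
    · have h3 : L = 0 := by exact_mod_cast h2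
      omega
    · exact h2
  rw [h, hr.mul _ _ hy' (perc_unit_pow htU L), perc_r_pow hr htU, hr.exp L hLF, add_zero]

end percHelpers

theorem per_class {K : Type} [Field K] [NumberField K] (g : Gens K) :
    ∃ C : ℝ, 1 ≤ C ∧ ∀ (F : Finset (HeightOneSpectrum (𝓞 K))) (L j : ℕ) (p : Fin j → Fin 3)
      (c : Fin j → Fin g.Mc) (s m q : Fin j → ℕ), 1 ≤ L →
      (∀ l ∈ F, (Ideal.absNorm l.asIdeal - 1) ∣ L) → (∀ i, g.base (c i) (s i) ∉ F) →
      (∀ i, p i ≠ 2 → 1 ≤ q i ∧ (q i : ℝ) * (s i + C) + C < ∑ l ∈ F, ln l) →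
      (∑ i ∈ Finset.univ.filter (fun i => p i ≠ 2), (1 / (q i : ℝ)) ≤ 1) →
      ∀ 𝒳 : Finset K,
      (∀ x ∈ 𝒳, ∃ v : Fin j → HeightOneSpectrum (𝓞 K), Dat g F L p c s m x v) →
      (𝒳.card : ℝ) ≤ Real.exp (C * (j + 1) * (1 + Real.log L)) *
        ∏ i, wgt C F (p i) (s i) (m i) (q i) := by
  classical
  obtain ⟨C1, hC1, hres⟩ := per_res g
  obtain ⟨Cp, hpow⟩ := pow_col K
  have hCp0 : (0 : ℝ) ≤ Cp := Nat.cast_nonneg _
  have hCC : C1 ≤ C1 + 2 * ((Cp : ℝ) + 1) := by linarith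
  refine ⟨C1 + 2 * ((Cp : ℝ) + 1), by linarith, ?_⟩
  intro F L j p c s m q hL hLF hb hq hqs 𝒳 hX
  have hC0 : (0 : ℝ) ≤ C1 + 2 * ((Cp : ℝ) + 1) := by linarith
  have hlog : 0 ≤ Real.log L := Real.log_natCast_nonneg L
  have hL1 : (1 : ℝ) ≤ L := by exact_mod_cast hL
  obtain ⟨G, hG1, hG2, r, hr⟩ := exists_res F
  rcases 𝒳.eq_empty_or_nonempty with rfl | ⟨x0, hx0⟩
  · rw [Finset.card_empty, Nat.cast_zero]
    exact mul_nonneg (Real.exp_pos _).le
      (Finset.prod_nonneg fun i _ => perc_wgt_nonneg hC0 F _ _ _ _)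
  obtain ⟨v0, -⟩ := hX x0 hx0
  haveI : Nonempty (Fin j → HeightOneSpectrum (𝓞 K)) := ⟨v0⟩
  choose! v hv using hX
  set T : Finset (HeightOneSpectrum (𝓞 K)) := Finset.univ.image (fun i => g.base (c i) (s i))
    with hT
  have hTc : T.card ≤ j := by
    have h := Finset.card_image_le (s := (Finset.univ : Finset (Fin j)))
      (f := fun i => g.base (c i) (s i))
    rwa [Finset.card_univ, Fintype.card_fin] at h
  obtain ⟨M, f, hM, hf⟩ := hpow L hL T
  let y1 : K → K := fun x => x * bp g (v x) (ex1 p m)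
  let y2 : K → K := fun x => (1 - x) * bp g (v x) (ex2 p m)
  have hy1 : ∀ x ∈ 𝒳, UnitAt F (y1 x) := fun x hx => by
    obtain ⟨h1, -, -, h4⟩ := div_units (hv x hx) hb
    exact perc_unit_mul h1 (h4 _)
  have hy2 : ∀ x ∈ 𝒳, UnitAt F (y2 x) := fun x hx => by
    obtain ⟨-, h2, -, h4⟩ := div_units (hv x hx) hb
    exact perc_unit_mul h2 (h4 _)
  have hd : ∀ x ∈ 𝒳, ∀ u, u ∉ T → (L : ℤ) ∣ ord u (y1 x) ∧ (L : ℤ) ∣ ord u (y2 x) := by
    intro x hx u hu
    refine div_dvd (hv x hx) u fun i hi => hu ?_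
    rw [hT, hi]
    exact Finset.mem_image_of_mem _ (Finset.mem_univ i)
  have hr1 : ∀ x ∈ 𝒳, ∀ x' ∈ 𝒳, f (y1 x) = f (y1 x') → r (y1 x) = r (y1 x') := by
    intro x hx x' hx' hff
    obtain ⟨t, ht, hxt⟩ := hf (y1 x) (y1 x') (hy1 x hx).1 (hy1 x' hx').1
      (fun u hu => dvd_sub (hd x hx u hu).1 (hd x' hx' u hu).1) hff
    exact perc_res_eq hr hL hLF (hy1 x hx) (hy1 x' hx') ht hxt
  have hr2 : ∀ x ∈ 𝒳, ∀ x' ∈ 𝒳, f (y2 x) = f (y2 x') → r (y2 x) = r (y2 x') := by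
    intro x hx x' hx' hff
    obtain ⟨t, ht, hxt⟩ := hf (y2 x) (y2 x') (hy2 x hx).1 (hy2 x' hx').1
      (fun u hu => dvd_sub (hd x hx u hu).2 (hd x' hx' u hu).2) hff
    exact perc_res_eq hr hL hLF (hy2 x hx) (hy2 x' hx') ht hxt
  set B : ℝ := Real.exp (C1 * (j + 1)) * ∏ i, wgt C1 F (p i) (s i) (m i) (q i) with hB
  have hB0 : 0 ≤ B := mul_nonneg (Real.exp_pos _).le
      (Finset.prod_nonneg fun i _ => perc_wgt_nonneg (by linarith) F _ _ _ _)
  have hq1 : ∀ i, p i ≠ 2 → 1 ≤ q i ∧ (q i : ℝ) * (s i + C1) + C1 < ∑ l ∈ F, ln l := by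
    intro i hi
    obtain ⟨h1, h2⟩ := hq i hi
    refine ⟨h1, lt_of_le_of_lt ?_ h2⟩
    have h3 : (0 : ℝ) ≤ q i := Nat.cast_nonneg _
    have h4 : (q i : ℝ) * (s i + C1) ≤ (q i : ℝ) * (s i + (C1 + 2 * ((Cp : ℝ) + 1))) :=
      mul_le_mul_of_nonneg_left (by linarith) h3
    linarith
  have hfib : ∀ a : Fin M × Fin M,
      (((𝒳.filter (fun x => (f (y1 x), f (y2 x)) = a)).card : ℕ) : ℝ) ≤ B := by
    intro a
    rcases (𝒳.filter (fun x => (f (y1 x), f (y2 x)) = a)).eq_empty_or_nonempty with h | ⟨z, hz⟩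
    · rw [h, Finset.card_empty, Nat.cast_zero]
      exact hB0
    · rw [Finset.mem_filter] at hz
      refine hres F L j p c s m q hb hq1 hqs G r hr (r (y1 z)) (r (y2 z)) _ ?_
      intro x hx
      rw [Finset.mem_filter] at hx
      have h5 : (f (y1 x), f (y2 x)) = (f (y1 z), f (y2 z)) := hx.2.trans hz.2.symm
      rw [Prod.mk.injEq] at h5
      exact ⟨v x, hv x hx.1, hr1 x hx.1 z hz.1 h5.1, hr2 x hx.1 z hz.1 h5.2⟩
  have hcard : (𝒳.card : ℝ) ≤ (M : ℝ) ^ 2 * B := by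
    have h := Finset.card_eq_sum_card_fiberwise (s := 𝒳) (f := fun x => (f (y1 x), f (y2 x)))
      (t := (Finset.univ : Finset (Fin M × Fin M))) (fun x _ => Finset.mem_coe.2 (Finset.mem_univ _))
    rw [h, Nat.cast_sum]
    calc ∑ a : Fin M × Fin M, (((𝒳.filter (fun x => (f (y1 x), f (y2 x)) = a)).card : ℕ) : ℝ)
        ≤ ∑ _a : Fin M × Fin M, B := Finset.sum_le_sum fun a _ => hfib a
      _ = (M : ℝ) ^ 2 * B := by
          rw [Finset.sum_const, Finset.card_univ, Fintype.card_prod, Fintype.card_fin,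
            nsmul_eq_mul, Nat.cast_mul]
          ring
  have hMr : (M : ℝ) ≤ Real.exp (((Cp : ℝ) + 1) * (j + 1) * (1 + Real.log L)) := by
    have h1 : (M : ℝ) ≤ (Cp : ℝ) * (L : ℝ) ^ (j + Cp) := by
      have h2 : (M : ℝ) ≤ ((Cp * L ^ (T.card + Cp) : ℕ) : ℝ) := by exact_mod_cast hM
      refine h2.trans ?_
      push_cast
      exact mul_le_mul_of_nonneg_left (pow_le_pow_right₀ hL1 (by omega)) hCp0
    have h3 : (Cp : ℝ) ≤ Real.exp Cp := by
      have := Real.add_one_le_exp (Cp : ℝ)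
      linarith
    have h4 : (L : ℝ) ^ (j + Cp) = Real.exp (((j : ℝ) + Cp) * Real.log L) := by
      rw [mul_comm, Real.exp_mul, Real.exp_log (by linarith)]
      rw [← Real.rpow_natCast]
      push_cast
      rfl
    refine h1.trans ?_
    calc (Cp : ℝ) * (L : ℝ) ^ (j + Cp)
        ≤ Real.exp Cp * Real.exp (((j : ℝ) + Cp) * Real.log L) := by
          rw [h4]
          exact mul_le_mul_of_nonneg_right h3 (Real.exp_pos _).le
      _ = Real.exp (Cp + ((j : ℝ) + Cp) * Real.log L) := (Real.exp_add _ _).symm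
      _ ≤ Real.exp (((Cp : ℝ) + 1) * (j + 1) * (1 + Real.log L)) := by
          apply Real.exp_le_exp.2
          have hj : (0 : ℝ) ≤ j := Nat.cast_nonneg _
          nlinarith [mul_nonneg hCp0 hj, mul_nonneg (mul_nonneg hCp0 hj) hlog, mul_nonneg hCp0 hlog,
            mul_nonneg hj hlog]
  have hM2 : (M : ℝ) ^ 2 ≤ Real.exp (2 * ((Cp : ℝ) + 1) * (j + 1) * (1 + Real.log L)) := by
    have h1 : (M : ℝ) ^ 2 ≤ (Real.exp (((Cp : ℝ) + 1) * (j + 1) * (1 + Real.log L))) ^ 2 :=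
      pow_le_pow_left₀ (Nat.cast_nonneg _) hMr 2
    rw [← Real.exp_nat_mul] at h1
    refine h1.trans (le_of_eq ?_)
    congr 1
    push_cast
    ring
  have hBB : B ≤ Real.exp (C1 * (j + 1) * (1 + Real.log L)) *
      ∏ i, wgt (C1 + 2 * ((Cp : ℝ) + 1)) F (p i) (s i) (m i) (q i) := by
    rw [hB]
    apply mul_le_mul
    · apply Real.exp_le_exp.2
      have hj : (0 : ℝ) ≤ j := Nat.cast_nonneg _
      have h1 : 0 ≤ C1 * (j + 1) := by positivity
      nlinarith [mul_nonneg h1 hlog]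
    · exact Finset.prod_le_prod (fun i _ => perc_wgt_nonneg (by linarith) F _ _ _ _)
        (fun i _ => perc_wgt_mono (by linarith) hCC F _ _ _ _)
    · exact Finset.prod_nonneg fun i _ => perc_wgt_nonneg (by linarith) F _ _ _ _
    · exact (Real.exp_pos _).le
  calc (𝒳.card : ℝ) ≤ (M : ℝ) ^ 2 * B := hcard
    _ ≤ Real.exp (2 * ((Cp : ℝ) + 1) * (j + 1) * (1 + Real.log L)) *
        (Real.exp (C1 * (j + 1) * (1 + Real.log L)) *
          ∏ i, wgt (C1 + 2 * ((Cp : ℝ) + 1)) F (p i) (s i) (m i) (q i)) :=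
        mul_le_mul hM2 hBB hB0 (Real.exp_pos _).le
    _ = Real.exp ((C1 + 2 * ((Cp : ℝ) + 1)) * (j + 1) * (1 + Real.log L)) *
          ∏ i, wgt (C1 + 2 * ((Cp : ℝ) + 1)) F (p i) (s i) (m i) (q i) := by
        rw [← mul_assoc, ← Real.exp_add]
        congr 2
        ring

end Pool.Agent.TM2
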