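import Mathlib
import Pool.Agent.TM2.Defs
import Pool.Agent.TMS.IdAsym
import Pool.Agent.TMS.CorU

/-!
# SetC (size 2)

`T ↦ ∏_{v ∈ T} v.asIdeal` is injective (distinct primes: the prime divisors of the product are the elements of `T`; see `prod_ne_zero'`,
AbcF/Balanced, and TMS/CorB, TMS/CorU for similar arguments), the product is a nonzero ideal of norm `exp (∑_{v ∈ T} ln v) ≤ exp r`.
The number of nonzero ideals of norm `≤ X`, `X ≥ 1`, is `≤ C X` (TMS/IdAsym: see `idl`, the statement used by `plc_card_le`; `mem_idl`).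
-/

namespace Pool.Agent.TM2

open NumberField IsDedekindDomain Pool.Agent.H7.Abc Pool.Agent.AbcE Pool.Agent.TMS

private theorem setC_sub {K : Type} [Field K] [NumberField K]
    {S T : Finset (HeightOneSpectrum (𝓞 K))}
    (h : ∏ v ∈ S, v.asIdeal = ∏ v ∈ T, v.asIdeal) : S ⊆ T := by
  intro v hv
  have h1 : v.asIdeal ∣ ∏ u ∈ T, u.asIdeal := by
    rw [← h]
    exact Finset.dvd_prod_of_mem _ hv
  have hp : Prime v.asIdeal := (Ideal.prime_iff_isPrime v.ne_bot).2 v.isPrime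
  obtain ⟨u, hu, hd⟩ := (Prime.dvd_finsetProd_iff hp _).1 h1
  have h2 : u.asIdeal ≤ v.asIdeal := Ideal.dvd_iff_le.1 hd
  have h3 : u.asIdeal = v.asIdeal := (u.isMaximal.eq_of_le v.isPrime.ne_top h2)
  have h4 : u = v := HeightOneSpectrum.ext h3
  rwa [← h4]

theorem sets_card (K : Type) [Field K] [NumberField K] :
    ∃ C : ℝ, 1 ≤ C ∧ ∀ r : ℝ, 0 ≤ r →
      {T : Finset (HeightOneSpectrum (𝓞 K)) | ∑ v ∈ T, ln v ≤ r}.Finite ∧
      ({T : Finset (HeightOneSpectrum (𝓞 K)) | ∑ v ∈ T, ln v ≤ r}.ncard : ℝ) ≤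
        C * Real.exp r := by
  obtain ⟨C, hC, hcard⟩ := idl_le K
  refine ⟨max C 1, le_max_right _ _, fun r _ => ?_⟩
  refine corU_fin _ _ fun F hF => ?_
  have h1 : F.card ≤ (idl K (Real.exp r)).card := by
    refine Finset.card_le_card_of_injOn (fun T => ∏ v ∈ T, v.asIdeal) ?_ ?_
    · intro T hT
      have hT' : ∑ v ∈ T, ln v ≤ r := hF hT
      refine mem_idl.2 ⟨corU_ne T, ?_⟩
      rw [corU_norm]
      exact Real.exp_le_exp.2 hT'
    · intro S _ T _ hST
      exact Finset.Subset.antisymm (setC_sub hST) (setC_sub hST.symm)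
  calc (F.card : ℝ) ≤ ((idl K (Real.exp r)).card : ℝ) := by exact_mod_cast h1
    _ ≤ C * Real.exp r := hcard _ (Real.exp_pos r).le
    _ ≤ max C 1 * Real.exp r :=
        mul_le_mul_of_nonneg_right (le_max_left _ _) (Real.exp_pos r).le

end Pool.Agent.TM2
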