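import Mathlib
import Pool.Agent.TM2.Defs
import Pool.Agent.TMS.PowCol
import Pool.Agent.TMS.LocCol
import Pool.Agent.TMS.VecCol
import Pool.Agent.TMS.HgtPow

/-!
# Color (size 5)

Let `r` = number of infinite places, `N = T.card + r ≥ 1`, `d = [K:ℚ]`. Colour of `x ∈ XX2 K e T` with
`h = hgt x ≥ C (e (1 + log e))`:
(1) the colour of `pow_col` (`e ∣ ord v x - ord v y` outside `T`). For every colour choose a base element
    `x0 ∈ XX2 K e T` with this colour (if there is one); then `x = x0 t ^ e`; choose `t = t(x) ≠ 0`.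
(2) for `v ∈ T`: the bit `b_v = [mk v (x - 1) < mk v e ^ e]` and the colour `loc_col e v x0 (t(x))`.
(3) for `w` infinite: the bit `b_w = [w (x - 1) ≤ 1 / 4]` and `⌊arg (w.embedding t(x)) * 4 e / π⌋ ∈ [-4e, 4e]`.
(4) the vector `k : T ⊕ {w} → ℕ` (`vec_col`, sum `≤ 40 N`): `k_v = ⌊20 N ord v (x - 1) ln v / h⌋` if `b_v`, else `0`;
    `k_w = ⌊20 N mult_w (-log w (x - 1)) / h⌋` if `b_w`, else `0`. The sum of the masses is at most
    `hgt (x - 1) ≤ h + d log 2 ≤ 2 h` (`mass`, `hgt_sub_one`).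
The number of colours is at most `C e ^ (T.card + C) * (2 e) ^ T.card * (2 (8 e + 1)) ^ r * 2 ^ (41 N)`.
If `f x1 = f x2`: `ρ = t(x2) / t(x1)`, `ρ ^ e x1 = x2`; `Vf` = places of `T` with bit 1, `Vi` = infinite places
with bit 1. `mk v e ^ e ≤ mk v e ^ 2`. `mk v (ρ - 1) < mk v e` by `loc_col` (`x0 t(xi) ^ e = xi`).
`|arg ρ| ≤ π / (4 e)` since `|arg t(x2) - arg t(x1)| ≤ π / (4 e) < π`.
Masses: `m_v(xi) ≥ k_v hi / (20 N)`, so `min (a m_v(x1)) (m_v(x2)) ≥ k_v / (20 N) min (a h1) h2`; and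
`∑ k ≥ 20 N (∑_{V} m(x1)) / h1 - N`, `∑_V m(x1) ≥ hgt (x1 - 1) - e d log e - d log 4 ≥ h1 - C'(1 + e log e)`:
indeed for `v ∈ T` with bit 0: `ord v (x1 - 1) ln v = -log mk v (x1 - 1) ≤ -e log mk v e`, sum `≤ e d log e`
(`log_e`), and `-log w (x1 - 1) ≤ log 4` if bit 0. With `h1 ≥ 20 C'(1 + e log e)`: `∑ k / (20 N) ≥ 1 - 1/20 - 1/20`.
-/

namespace Pool.Agent.TM2

open NumberField IsDedekindDomain Pool.Agent.H7.Abc Pool.Agent.AbcE Pool.Agent.TMS


private theorem Color2_log {a : ℝ} (ha : 0 < a) :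
    Real.log (max 1 a⁻¹) = max 0 (-Real.log a) := by
  rw [← Real.log_inv]
  rcases le_total 1 a⁻¹ with h | h
  · rw [max_eq_right h, max_eq_right (Real.log_nonneg h)]
  · rw [max_eq_left h, Real.log_one, max_eq_left (Real.log_nonpos (inv_pos.2 ha).le h)]

/-- the full mass -/
theorem mass2 {K : Type*} [Field K] [NumberField K] {x : K} (hx : x ≠ 1)
    (T : Finset (HeightOneSpectrum (𝓞 K)))
    (hT : ∀ v, v ∉ T → ord v (x - 1) ≤ 0) :
    ∑ v ∈ T, max 0 ((ord v (x - 1) : ℝ) * ln v) +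
      ∑ w : InfinitePlace K, (w.mult : ℝ) * max 0 (-Real.log (w (x - 1))) = hgt (x - 1) := by
  have hy : x - 1 ≠ 0 := sub_ne_zero.2 hx
  rw [← hgt_inv (x - 1)]
  unfold hgt
  rw [add_comm]
  congr 1
  · refine Finset.sum_congr rfl fun w _ => ?_
    rw [map_inv₀, Color2_log (InfinitePlace.pos_iff.2 hy)]
  · rw [finsum_eq_sum_of_support_subset (s := T)]
    · refine Finset.sum_congr rfl fun v _ => ?_
      rw [mk_inv, Color2_log (FinitePlace.pos_iff.2 hy), log_mk v hy]
      congr 1
      unfold ln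
      ring
    · intro v hv
      by_contra hvT
      apply hv
      have h1 : 0 ≤ Real.log (FinitePlace.mk v (x - 1)) := by
        rw [log_mk v hy]
        have h2 : (ord v (x - 1) : ℝ) ≤ 0 := by exact_mod_cast hT v hvT
        have h3 : 0 < Real.log (Ideal.absNorm v.asIdeal) := log_norm_pos v
        nlinarith
      simp only [mk_inv]
      rw [Color2_log (FinitePlace.pos_iff.2 hy), max_eq_left (by linarith)]

section

variable {K : Type*} [Field K] [NumberField K]

private theorem color_floor (a : ℝ) : ((⌊a⌋₊ : ℕ) : ℝ) ≤ max 0 a := by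
  rcases le_total 0 a with h | h
  · exact (Nat.floor_le h).trans (le_max_right _ _)
  · rw [Nat.floor_of_nonpos h, Nat.cast_zero]
    exact le_max_left _ _

/-- the cell of the argument -/
private noncomputable def colorCell (e : ℕ) (z : ℂ) : Fin (8 * e + 1) :=
  ⟨(⌊Complex.arg z * (4 * e) / Real.pi⌋ + 4 * e).toNat, by
    have hpi := Real.pi_pos
    have h1 : Complex.arg z * (4 * e) / Real.pi ≤ 4 * e := by
      rw [div_le_iff₀ hpi, mul_comm]
      exact mul_le_mul_of_nonneg_left (Complex.arg_le_pi z) (by positivity)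
    have h2 : ⌊Complex.arg z * (4 * e) / Real.pi⌋ ≤ 4 * (e : ℤ) := by
      have h3 : (⌊Complex.arg z * (4 * e) / Real.pi⌋ : ℝ) ≤ 4 * e := (Int.floor_le _).trans h1
      exact_mod_cast h3
    omega⟩

private theorem color_cell {e : ℕ} (he : 1 ≤ e) {z1 z2 : ℂ} (h1 : z1 ≠ 0) (h2 : z2 ≠ 0)
    (h : colorCell e z1 = colorCell e z2) : |Complex.arg (z2 / z1)| ≤ Real.pi / (4 * e) := by
  have hpi := Real.pi_pos
  have he' : (1 : ℝ) ≤ e := by exact_mod_cast he
  have h4e : (0 : ℝ) < 4 * e := by positivity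
  have hlow : ∀ z : ℂ, 0 ≤ ⌊Complex.arg z * (4 * e) / Real.pi⌋ + 4 * (e : ℤ) := by
    intro z
    have h3 : (-(4 * (e : ℤ)) : ℤ) ≤ ⌊Complex.arg z * (4 * e) / Real.pi⌋ := by
      rw [Int.le_floor]
      push_cast
      rw [le_div_iff₀ hpi]
      have := (Complex.neg_pi_lt_arg z).le
      nlinarith
    omega
  have h3 : ⌊Complex.arg z1 * (4 * e) / Real.pi⌋ = ⌊Complex.arg z2 * (4 * e) / Real.pi⌋ := by
    have h4 := congrArg Fin.val h
    simp only [colorCell] at h4
    have h5 := hlow z1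
    have h6 := hlow z2
    omega
  have h4 := Int.abs_sub_lt_one_of_floor_eq_floor h3
  have h5 : Complex.arg z1 * (4 * e) / Real.pi - Complex.arg z2 * (4 * e) / Real.pi =
      (Complex.arg z1 - Complex.arg z2) * ((4 * e) / Real.pi) := by ring
  rw [h5, abs_mul, abs_of_pos (div_pos h4e hpi)] at h4
  have h6 : |Complex.arg z1 - Complex.arg z2| < Real.pi / (4 * e) := by
    rw [lt_div_iff₀ h4e]
    have h7 := mul_lt_mul_of_pos_right h4 hpi
    rw [one_mul] at h7
    calc |Complex.arg z1 - Complex.arg z2| * (4 * e)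
        = |Complex.arg z1 - Complex.arg z2| * (4 * e / Real.pi) * Real.pi := by
          field_simp
      _ < Real.pi := h7
  have h7 : Real.pi / (4 * e) < Real.pi := by
    rw [div_lt_iff₀ h4e]
    nlinarith
  set θ : ℝ := Complex.arg z2 - Complex.arg z1 with hθ
  have h8 : |θ| < Real.pi / (4 * e) := by rwa [hθ, abs_sub_comm]
  have h9 : θ ∈ Set.Ioc (-Real.pi) Real.pi := by
    have h10 := abs_lt.mp (h8.trans h7)
    exact ⟨h10.1, h10.2.le⟩
  have hn1 : 0 < ‖z1‖ := norm_pos_iff.mpr h1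
  have hn2 : 0 < ‖z2‖ := norm_pos_iff.mpr h2
  have h10 : z2 / z1 = ((‖z2‖ / ‖z1‖ : ℝ) : ℂ) * (Complex.cos θ + Complex.sin θ * Complex.I) := by
    have e1 : Complex.exp ((θ : ℂ) * Complex.I) =
        Complex.exp ((Complex.arg z2 : ℂ) * Complex.I) / Complex.exp ((Complex.arg z1 : ℂ) * Complex.I) := by
      rw [← Complex.exp_sub]
      congr 1
      rw [hθ]
      push_cast
      ring
    rw [← Complex.exp_mul_I, e1]
    conv_lhs => rw [← Complex.norm_mul_exp_arg_mul_I z2, ← Complex.norm_mul_exp_arg_mul_I z1]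
    push_cast
    rw [mul_div_mul_comm]
  rw [h10, Complex.arg_mul_cos_add_sin_mul_I (div_pos hn2 hn1) h9]
  exact h8.le

private theorem color_mk_pos (v : HeightOneSpectrum (𝓞 K)) {x : K} (hx : x ≠ 0) :
    0 < FinitePlace.mk v x := by
  rw [mk_eq_zpow v hx]
  have := one_lt_norm v
  positivity

private theorem color_mf {v : HeightOneSpectrum (𝓞 K)} {x : K} (hx : x ≠ 1) :
    (ord v (x - 1) : ℝ) * ln v = -Real.log (FinitePlace.mk v (x - 1)) := by
  rw [log_mk v (sub_ne_zero.mpr hx)]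
  unfold ln
  ring

/-- the bit of a finite place -/
private def colorBf (e : ℕ) (v : HeightOneSpectrum (𝓞 K)) (x : K) : Prop :=
  FinitePlace.mk v (x - 1) < FinitePlace.mk v (e : K) ^ e

/-- the bit of an infinite place -/
private def colorBi (w : InfinitePlace K) (x : K) : Prop := w (x - 1) ≤ 1 / 4

private theorem color_mf_nonneg {e : ℕ} {v : HeightOneSpectrum (𝓞 K)} {x : K}
    (hx : x ≠ 1) (h : colorBf e v x) : 0 ≤ (ord v (x - 1) : ℝ) * ln v := by
  rw [color_mf hx]
  have h1 : FinitePlace.mk v (x - 1) ≤ 1 := by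
    refine h.le.trans ?_
    exact pow_le_one₀ (apply_nonneg _ _) (mk_nat_le_one v e)
  have := Real.log_nonpos (color_mk_pos v (sub_ne_zero.mpr hx)).le h1
  linarith

private theorem color_mi_nonneg {w : InfinitePlace K} {x : K}
    (h : colorBi w x) : 0 ≤ (w.mult : ℝ) * (-Real.log (w (x - 1))) := by
  apply mul_nonneg (Nat.cast_nonneg _)
  have h1 : w (x - 1) ≤ 1 := le_trans h (by norm_num)
  have := Real.log_nonpos (apply_nonneg w (x - 1)) h1
  linarith

open Classical in
/-- the vector of masses -/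
private noncomputable def colorVec (e : ℕ) (T : Finset (HeightOneSpectrum (𝓞 K))) (N : ℕ) (x : K) :
    (T ⊕ InfinitePlace K) → ℕ
  | Sum.inl v => if colorBf e v.1 x then
      ⌊20 * N * ((ord v.1 (x - 1) : ℝ) * ln v.1) / hgt x⌋₊ else 0
  | Sum.inr w => if colorBi w x then
      ⌊20 * N * ((w.mult : ℝ) * (-Real.log (w (x - 1)))) / hgt x⌋₊ else 0

private theorem color_vec_sum {e : ℕ} {T : Finset (HeightOneSpectrum (𝓞 K))} {N : ℕ} {x : K}
    (hx : x ∈ XX2 K e T) (hh : 0 < hgt x) (h2 : hgt (x - 1) ≤ 2 * hgt x) :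
    ∑ i, colorVec e T N x i ≤ 40 * N := by
  classical
  have hmass := mass2 hx.2.1 T (fun v hv => (hx.2.2 v hv).1)
  have hN : (0 : ℝ) ≤ 20 * N / hgt x := by positivity
  have h3 : (∑ i, (colorVec e T N x i : ℝ)) ≤ 20 * N / hgt x * hgt (x - 1) := by
    rw [Fintype.sum_sum_type, ← hmass, mul_add, Finset.mul_sum, Finset.mul_sum,
      ← Finset.sum_coe_sort T]
    refine add_le_add (Finset.sum_le_sum fun v _ => ?_) (Finset.sum_le_sum fun w _ => ?_)
    · have h0 : 0 ≤ 20 * N / hgt x * max 0 ((ord v.1 (x - 1) : ℝ) * ln v.1) :=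
        mul_nonneg hN (le_max_left _ _)
      simp only [colorVec]
      split_ifs
      · refine (color_floor _).trans (max_le h0 ?_)
        rw [mul_div_right_comm]
        exact mul_le_mul_of_nonneg_left (le_max_right _ _) hN
      · rw [Nat.cast_zero]
        exact h0
    · have h0 : 0 ≤ 20 * N / hgt x * ((w.mult : ℝ) * max 0 (-Real.log (w (x - 1)))) :=
        mul_nonneg hN (mul_nonneg (Nat.cast_nonneg _) (le_max_left _ _))
      simp only [colorVec]
      split_ifs
      · refine (color_floor _).trans (max_le h0 ?_)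
        rw [mul_div_right_comm]
        exact mul_le_mul_of_nonneg_left
          (mul_le_mul_of_nonneg_left (le_max_right _ _) (Nat.cast_nonneg _)) hN
      · rw [Nat.cast_zero]
        exact h0
  have h4 : 20 * N / hgt x * hgt (x - 1) ≤ 40 * N := by
    calc 20 * N / hgt x * hgt (x - 1) ≤ 20 * N / hgt x * (2 * hgt x) :=
          mul_le_mul_of_nonneg_left h2 hN
      _ = 40 * N := by field_simp; ring
  have h5 : ((∑ i, colorVec e T N x i : ℕ) : ℝ) ≤ ((40 * N : ℕ) : ℝ) := by
    push_cast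
    exact h3.trans h4
  exact_mod_cast h5

open Classical in
/-- the base element of a colour -/
private noncomputable def colorBase (e : ℕ) (T : Finset (HeightOneSpectrum (𝓞 K))) {M : ℕ}
    (fp : K → Fin M) (c : Fin M) : K :=
  if h : ∃ y ∈ XX2 K e T, fp y = c then h.choose else 1

private theorem color_base {e : ℕ} {T : Finset (HeightOneSpectrum (𝓞 K))} {M : ℕ}
    {fp : K → Fin M} {x : K} (hx : x ∈ XX2 K e T) :
    colorBase e T fp (fp x) ∈ XX2 K e T ∧ fp (colorBase e T fp (fp x)) = fp x := by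
  have h : ∃ y ∈ XX2 K e T, fp y = fp x := ⟨x, hx, rfl⟩
  unfold colorBase
  rw [dif_pos h]
  exact h.choose_spec

open Classical in
/-- the root -/
private noncomputable def colorT (e : ℕ) (T : Finset (HeightOneSpectrum (𝓞 K))) {M : ℕ}
    (fp : K → Fin M) (x : K) : K :=
  if h : ∃ t : K, t ≠ 0 ∧ x = colorBase e T fp (fp x) * t ^ e then h.choose else 1

private theorem color_T {e : ℕ} {T : Finset (HeightOneSpectrum (𝓞 K))} {M : ℕ}
    {fp : K → Fin M} (hfp : ∀ x y : K, x ≠ 0 → y ≠ 0 →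
        (∀ v : HeightOneSpectrum (𝓞 K), v ∉ T → (e : ℤ) ∣ ord v x - ord v y) → fp x = fp y →
          ∃ t : K, t ≠ 0 ∧ x = y * t ^ e) {x : K} (hx : x ∈ XX2 K e T) :
    colorT e T fp x ≠ 0 ∧ x = colorBase e T fp (fp x) * colorT e T fp x ^ e := by
  obtain ⟨h1, h2⟩ := color_base (fp := fp) hx
  have h : ∃ t : K, t ≠ 0 ∧ x = colorBase e T fp (fp x) * t ^ e :=
    hfp _ _ hx.1 h1.1 (fun v hv => dvd_sub (hx.2.2 v hv).2 (h1.2.2 v hv).2) h2.symm
  unfold colorT
  rw [dif_pos h]
  exact h.choose_spec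

open Classical in
/-- the colour -/
private noncomputable def colorMap {e : ℕ} (he : 2 ≤ e) (T : Finset (HeightOneSpectrum (𝓞 K)))
    {M : ℕ} (fp : K → Fin M) (N : ℕ) {Q : ℕ} (g : ((T ⊕ InfinitePlace K) → ℕ) → Fin Q) (x : K) :
    Fin M × (T → Bool) × (T → Fin e) × (InfinitePlace K → Bool) ×
      (InfinitePlace K → Fin (8 * e + 1)) × Fin Q :=
  (fp x, (fun v => decide (colorBf e v.1 x)),
    (fun v => (loc_col e he v.1 (colorBase e T fp (fp x))).choose (colorT e T fp x)),
    (fun w => decide (colorBi w x)),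
    (fun w => colorCell e (w.embedding (colorT e T fp x))),
    g (colorVec e T N x))

/-- the mass on the chosen places -/
private theorem color_mass {e : ℕ} (he : 2 ≤ e) {T : Finset (HeightOneSpectrum (𝓞 K))} {x : K}
    (hx : x ∈ XX2 K e T)
    (hh : 20 * (Module.finrank ℚ K * (e * Real.log e) + 3 * (Module.finrank ℚ K * Real.log 2)) ≤
      hgt x) (Vf : Finset (HeightOneSpectrum (𝓞 K))) (Vi : Finset (InfinitePlace K))
    (hVf : ∀ v, v ∈ Vf ↔ v ∈ T ∧ colorBf e v x) (hVi : ∀ w, w ∈ Vi ↔ colorBi w x) :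
    19 / 20 * hgt x ≤ ∑ v ∈ Vf, (ord v (x - 1) : ℝ) * ln v +
      ∑ w ∈ Vi, (w.mult : ℝ) * (-Real.log (w (x - 1))) := by
  classical
  have hmass := mass2 hx.2.1 T (fun v hv => (hx.2.2 v hv).1)
  have hsub : Vf ⊆ T := fun v hv => ((hVf v).mp hv).1
  have hx1 : x - 1 ≠ 0 := sub_ne_zero.mpr hx.2.1
  have he0 : (e : K) ≠ 0 := by
    have : e ≠ 0 := by omega
    exact_mod_cast this
  have h1 : ∑ v ∈ T, max 0 ((ord v (x - 1) : ℝ) * ln v) ≤
      ∑ v ∈ Vf, (ord v (x - 1) : ℝ) * ln v + e * (Module.finrank ℚ K * Real.log e) := by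
    rw [← Finset.sum_sdiff hsub, add_comm]
    refine add_le_add (le_of_eq (Finset.sum_congr rfl fun v hv => ?_)) ?_
    · exact max_eq_right (color_mf_nonneg hx.2.1 ((hVf v).mp hv).2)
    · have h2 := log_e (K := K) (e := e) (by omega) (T \ Vf)
      have h3 : ∑ v ∈ T \ Vf, max 0 ((ord v (x - 1) : ℝ) * ln v) ≤
          ∑ v ∈ T \ Vf, (e : ℝ) * -Real.log (FinitePlace.mk v (e : K)) := by
        refine Finset.sum_le_sum fun v hv => ?_
        rw [Finset.mem_sdiff] at hv
        have h4 : ¬ colorBf e v x := fun h5 => hv.2 ((hVf v).mpr ⟨hv.1, h5⟩)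
        unfold colorBf at h4
        rw [not_lt] at h4
        have h5 := Real.log_le_log (pow_pos (color_mk_pos v he0) e) h4
        rw [Real.log_pow] at h5
        have h6 := Real.log_nonpos (color_mk_pos v he0).le (mk_nat_le_one v e)
        apply max_le
        · exact mul_nonneg (Nat.cast_nonneg _) (by linarith)
        · rw [color_mf hx.2.1]
          linarith
      refine h3.trans ?_
      rw [← Finset.mul_sum]
      exact mul_le_mul_of_nonneg_left h2 (Nat.cast_nonneg _)
  have h2 : ∑ w : InfinitePlace K, (w.mult : ℝ) * max 0 (-Real.log (w (x - 1))) ≤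
      ∑ w ∈ Vi, (w.mult : ℝ) * (-Real.log (w (x - 1))) +
        Module.finrank ℚ K * (2 * Real.log 2) := by
    rw [← Finset.sum_sdiff (Finset.subset_univ Vi), add_comm]
    refine add_le_add (le_of_eq (Finset.sum_congr rfl fun w hw => ?_)) ?_
    · have h3 : w (x - 1) ≤ 1 := le_trans ((hVi w).mp hw) (by norm_num)
      have h4 := Real.log_nonpos (apply_nonneg w (x - 1)) h3
      rw [max_eq_right (by linarith)]
    · have hl2 : 0 ≤ 2 * Real.log 2 := by
        have := Real.log_pos (show (1 : ℝ) < 2 by norm_num)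
        linarith
      have h3 : ∑ w ∈ Finset.univ \ Vi, (w.mult : ℝ) * max 0 (-Real.log (w (x - 1))) ≤
          ∑ w ∈ Finset.univ \ Vi, (w.mult : ℝ) * (2 * Real.log 2) := by
        refine Finset.sum_le_sum fun w hw => ?_
        rw [Finset.mem_sdiff] at hw
        have h4 : ¬ colorBi w x := fun h5 => hw.2 ((hVi w).mpr h5)
        unfold colorBi at h4
        rw [not_le] at h4
        have h5 := Real.log_le_log (by norm_num) h4.le
        have h6 : Real.log (1 / 4) = -(2 * Real.log 2) := by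
          rw [one_div, Real.log_inv, show (4 : ℝ) = 2 ^ 2 by norm_num, Real.log_pow]
          norm_num
        rw [h6] at h5
        apply mul_le_mul_of_nonneg_left _ (Nat.cast_nonneg _)
        exact max_le hl2 (by linarith)
      refine h3.trans ?_
      rw [← Finset.sum_mul]
      apply mul_le_mul_of_nonneg_right _ hl2
      have h7 : ∑ w ∈ Finset.univ \ Vi, (w.mult : ℝ) ≤ ∑ w : InfinitePlace K, (w.mult : ℝ) :=
        Finset.sum_le_sum_of_subset_of_nonneg (Finset.subset_univ _)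
          (fun w _ _ => Nat.cast_nonneg _)
      refine h7.trans (le_of_eq ?_)
      have h8 := InfinitePlace.sum_mult_eq (K := K)
      exact_mod_cast h8
  have h3 := Pool.Agent.TMS.hgt_le_sub_one x
  rw [← hmass] at h3
  have h4 : (e : ℝ) * (Module.finrank ℚ K * Real.log e) = Module.finrank ℚ K * (e * Real.log e) := by
    ring
  rw [h4] at h1
  linarith

end

private theorem color_key {N H1 H2 a : ℝ} (hN : 0 < N) (h1 : 0 < H1) (h2 : 0 < H2) (ha : 0 ≤ a)
    {k : ℕ} {A1 A2 : ℝ} (hA1 : 0 ≤ A1) (hA2 : 0 ≤ A2) (hk1 : k = ⌊20 * N * A1 / H1⌋₊)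
    (hk2 : k = ⌊20 * N * A2 / H2⌋₊) :
    (k : ℝ) / (20 * N) * min (a * H1) H2 ≤ min (a * A1) A2 := by
  have u1 : (k : ℝ) ≤ 20 * N * A1 / H1 := by
    rw [hk1]; exact Nat.floor_le (by positivity)
  have u2 : (k : ℝ) ≤ 20 * N * A2 / H2 := by
    rw [hk2]; exact Nat.floor_le (by positivity)
  have hk0 : (0 : ℝ) ≤ (k : ℝ) / (20 * N) := by positivity
  apply le_min
  · calc (k : ℝ) / (20 * N) * min (a * H1) H2 ≤ (k : ℝ) / (20 * N) * (a * H1) :=
          mul_le_mul_of_nonneg_left (min_le_left _ _) hk0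
      _ = a * ((k : ℝ) * H1 / (20 * N)) := by ring
      _ ≤ a * A1 := by
          apply mul_le_mul_of_nonneg_left _ ha
          rw [div_le_iff₀ (by positivity)]
          rw [le_div_iff₀ h1] at u1
          linarith
  · calc (k : ℝ) / (20 * N) * min (a * H1) H2 ≤ (k : ℝ) / (20 * N) * H2 :=
          mul_le_mul_of_nonneg_left (min_le_right _ _) hk0
      _ = (k : ℝ) * H2 / (20 * N) := by ring
      _ ≤ A2 := by
          rw [div_le_iff₀ (by positivity)]
          rw [le_div_iff₀ h2] at u2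
          linarith

theorem color2 (K : Type*) [Field K] [NumberField K] :
    ∃ C : ℝ, 0 < C ∧ ∀ (e : ℕ) (T : Finset (HeightOneSpectrum (𝓞 K))), 2 ≤ e →
      ∃ (M : ℕ) (f : K → Fin M), (M : ℝ) ≤ Real.exp (C * (T.card + 1) * (1 + Real.log e)) ∧
        ∀ x1 ∈ XX2 K e T, ∀ x2 ∈ XX2 K e T,
          C * (e * (1 + Real.log e)) ≤ hgt x1 → C * (e * (1 + Real.log e)) ≤ hgt x2 →
          f x1 = f x2 → Rel e x1 x2 := by
  classical
  obtain ⟨Cp, hCp⟩ := pow_col K
  set r : ℕ := Fintype.card (InfinitePlace K) with hr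
  set dd : ℕ := Module.finrank ℚ K with hdd
  have hr1 : 1 ≤ r := Fintype.card_pos
  refine ⟨2 * Cp + 44 + 52 * r + 40 * dd, by positivity, fun e T he => ?_⟩
  obtain ⟨M1, fp, hM1, hfp⟩ := hCp e (by omega) T
  set N : ℕ := T.card + r with hN
  have hN1 : 1 ≤ N := by omega
  have hcard : Fintype.card (T ⊕ InfinitePlace K) = N := by
    rw [Fintype.card_sum, Fintype.card_coe]
  obtain ⟨g, hg⟩ := vec_col (T ⊕ InfinitePlace K) (40 * N)
  have he' : (2 : ℝ) ≤ e := by exact_mod_cast he
  have he0 : (0 : ℝ) < e := by linarith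
  have hL : 0 ≤ Real.log e := Real.log_nonneg (by linarith)
  set L := Real.log e with hLdef
  have heL : (e : ℝ) = Real.exp L := by rw [hLdef, Real.exp_log he0]
  let Γ := Fin M1 × (T → Bool) × (T → Fin e) × (InfinitePlace K → Bool) ×
      (InfinitePlace K → Fin (8 * e + 1)) × Fin (2 ^ (40 * N + Fintype.card (T ⊕ InfinitePlace K)))
  refine ⟨Fintype.card Γ, fun x => Fintype.equivFin Γ (colorMap he T fp N g x), ?_, ?_⟩
  · -- the number of colours
    have h1 : Fintype.card Γ = M1 * (2 ^ T.card * (e ^ T.card * (2 ^ r * ((8 * e + 1) ^ r *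
        2 ^ (40 * N + N))))) := by
      simp only [Γ, Fintype.card_prod, Fintype.card_fun, Fintype.card_fin, Fintype.card_bool,
        Fintype.card_coe, hcard, hr]
    rw [h1]
    push_cast
    have a1 : (M1 : ℝ) ≤ Real.exp (Cp + (T.card + Cp) * L) := by
      have b1 : (M1 : ℝ) ≤ Cp * (e : ℝ) ^ (T.card + Cp) := by exact_mod_cast hM1
      have b2 : (Cp : ℝ) ≤ Real.exp Cp := by
        have := Real.add_one_le_exp (Cp : ℝ)
        linarith
      have b3 : (e : ℝ) ^ (T.card + Cp) = Real.exp ((T.card + Cp) * L) := by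
        rw [heL, ← Real.exp_nat_mul]
        push_cast
        rfl
      rw [Real.exp_add, ← b3]
      exact b1.trans (mul_le_mul_of_nonneg_right b2 (by positivity))
    have h2e : (2 : ℝ) ≤ Real.exp 1 := by
      have := Real.add_one_le_exp (1 : ℝ)
      linarith
    have a2 : ∀ m : ℕ, (2 : ℝ) ^ m ≤ Real.exp m := by
      intro m
      calc (2 : ℝ) ^ m ≤ (Real.exp 1) ^ m := pow_le_pow_left₀ (by norm_num) h2e m
        _ = Real.exp m := by rw [← Real.exp_nat_mul, mul_one]
    have a3 : (e : ℝ) ^ T.card = Real.exp (T.card * L) := by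
      rw [heL, ← Real.exp_nat_mul]
    have a4 : (8 * (e : ℝ) + 1) ^ r ≤ Real.exp (r * (9 + L)) := by
      have b1 : 8 * (e : ℝ) + 1 ≤ Real.exp (9 + L) := by
        rw [Real.exp_add, ← heL]
        have := Real.add_one_le_exp (9 : ℝ)
        nlinarith
      calc (8 * (e : ℝ) + 1) ^ r ≤ (Real.exp (9 + L)) ^ r :=
            pow_le_pow_left₀ (by positivity) b1 r
        _ = _ := by rw [← Real.exp_nat_mul]
    have a5 : (2 : ℝ) ^ (40 * N + N) ≤ Real.exp (41 * N) := by
      refine (a2 _).trans (le_of_eq ?_)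
      push_cast
      congr 1
      ring
    calc (M1 : ℝ) * (2 ^ T.card * ((e : ℝ) ^ T.card * (2 ^ r * ((8 * (e : ℝ) + 1) ^ r *
          2 ^ (40 * N + N)))))
        ≤ Real.exp (Cp + (T.card + Cp) * L) * (Real.exp T.card * (Real.exp (T.card * L) *
          (Real.exp r * (Real.exp (r * (9 + L)) * Real.exp (41 * N))))) := by
          rw [a3]
          gcongr
          · exact a2 _
          · exact a2 _
      _ = Real.exp (Cp + (T.card + Cp) * L + (T.card + (T.card * L +
          (r + (r * (9 + L) + 41 * N))))) := by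
          rw [← Real.exp_add, ← Real.exp_add, ← Real.exp_add, ← Real.exp_add, ← Real.exp_add]
      _ ≤ _ := by
          apply Real.exp_le_exp.mpr
          rw [hN]
          push_cast
          have t0 : (0 : ℝ) ≤ T.card := Nat.cast_nonneg _
          have c0 : (0 : ℝ) ≤ Cp := Nat.cast_nonneg _
          have r0 : (1 : ℝ) ≤ r := by exact_mod_cast hr1
          have d0 : (0 : ℝ) ≤ dd := Nat.cast_nonneg _
          have p1 : (0 : ℝ) ≤ T.card * L := mul_nonneg t0 hL
          have p2 : (0 : ℝ) ≤ Cp * L := mul_nonneg c0 hL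
          have p3 : (0 : ℝ) ≤ r * L := mul_nonneg (by linarith) hL
          have p4 : (0 : ℝ) ≤ (2 * Cp + 44 + 52 * r + 40 * dd) * (T.card * L) :=
            mul_nonneg (by linarith) p1
          have p5 : (0 : ℝ) ≤ (2 * Cp + 52 * r + 40 * dd) * T.card :=
            mul_nonneg (by linarith) t0
          have p6 : (0 : ℝ) ≤ (dd : ℝ) * L := mul_nonneg d0 hL
          have p7 : (2 * (Cp : ℝ) + 44 + 52 * r + 40 * dd) * (T.card + 1) * (1 + L) =
            (2 * Cp + 44 + 52 * r + 40 * dd) * (T.card * L) +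
            ((2 * Cp + 52 * r + 40 * dd) * T.card + 44 * T.card) +
            (2 * (Cp * L) + 44 * L + 52 * (r * L) + 40 * (dd * L)) +
            (2 * Cp + 44 + 52 * r + 40 * dd) := by ring
          have p8 : 44 * (T.card * L) ≤ (2 * (Cp : ℝ) + 44 + 52 * r + 40 * dd) * (T.card * L) := by
            apply mul_le_mul_of_nonneg_right _ p1
            linarith
          rw [p7]
          nlinarith
  · -- the relation
    intro x1 hx1 x2 hx2 hh1 hh2 hf
    have hcol : colorMap he T fp N g x1 = colorMap he T fp N g x2 :=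
      (Fintype.equivFin Γ).injective hf
    unfold colorMap at hcol
    simp only [Prod.mk.injEq] at hcol
    obtain ⟨c1, c2, c3, c4, c5, c6⟩ := hcol
    have hd1 : (1 : ℝ) ≤ dd := by
      have : 0 < dd := Module.finrank_pos
      exact_mod_cast this
    have hlog2 : Real.log 2 ≤ 0.7 := by
      have := Real.log_two_lt_d9
      linarith
    have hlog2' : 0 < Real.log 2 := Real.log_pos (by norm_num)
    have heL0 : 0 ≤ (e : ℝ) * L := mul_nonneg he0.le hL
    have hbig : ∀ x : K, (2 * (Cp : ℝ) + 44 + 52 * r + 40 * dd) * (e * (1 + L)) ≤ hgt x →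
        20 * ((dd : ℝ) * (e * L) + 3 * (dd * Real.log 2)) ≤ hgt x ∧ 0 < hgt x ∧
        hgt (x - 1) ≤ 2 * hgt x := by
      intro x hx
      have q1 : 40 * (dd : ℝ) * (e * (1 + L)) ≤
          (2 * (Cp : ℝ) + 44 + 52 * r + 40 * dd) * (e * (1 + L)) := by
        apply mul_le_mul_of_nonneg_right _ (by positivity)
        have : (0 : ℝ) ≤ 2 * (Cp : ℝ) + 44 + 52 * r := by positivity
        linarith
      have q2 : (dd : ℝ) * Real.log 2 ≤ dd * 0.7 := mul_le_mul_of_nonneg_left hlog2 (by linarith)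
      have q3 : (dd : ℝ) * 2 ≤ dd * e := mul_le_mul_of_nonneg_left he' (by linarith)
      have q4 : 0 ≤ (dd : ℝ) * (e * L) := mul_nonneg (by linarith) heL0
      have q5 : 20 * ((dd : ℝ) * (e * L) + 3 * (dd * Real.log 2)) ≤ hgt x := by nlinarith
      have q6 : 0 < (dd : ℝ) * Real.log 2 := by positivity
      refine ⟨q5, by linarith, ?_⟩
      have q7 := hgt_sub_one x
      rw [← hdd] at q7
      linarith
    obtain ⟨hb1, hp1, hs1⟩ := hbig x1 hh1
    obtain ⟨hb2, hp2, hs2⟩ := hbig x2 hh2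
    have hvec : colorVec e T N x1 = colorVec e T N x2 :=
      hg _ _ (color_vec_sum hx1 hp1 hs1) (color_vec_sum hx2 hp2 hs2) c6
    obtain ⟨ht1, hxt1⟩ := color_T hfp hx1
    obtain ⟨ht2, hxt2⟩ := color_T hfp hx2
    set t1 := colorT e T fp x1 with ht1def
    set t2 := colorT e T fp x2 with ht2def
    rw [← c1] at hxt2
    set b := colorBase e T fp (fp x1) with hb
    have hbf : ∀ v ∈ T, (colorBf e v x1 ↔ colorBf e v x2) := by
      intro v hv
      have := congrFun c2 ⟨v, hv⟩
      exact decide_eq_decide.mp this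
    have hbi : ∀ w, (colorBi w x1 ↔ colorBi w x2) := by
      intro w
      have := congrFun c4 w
      exact decide_eq_decide.mp this
    set Vf : Finset (HeightOneSpectrum (𝓞 K)) := T.filter (fun v => colorBf e v x1) with hVf
    set Vi : Finset (InfinitePlace K) := Finset.univ.filter (fun w => colorBi w x1) with hVi
    have mVf : ∀ v, v ∈ Vf ↔ v ∈ T ∧ colorBf e v x1 := by
      intro v; rw [hVf, Finset.mem_filter]
    have mVi : ∀ w, w ∈ Vi ↔ colorBi w x1 := by
      intro w; rw [hVi, Finset.mem_filter]; simp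
    have hsq : ∀ v : HeightOneSpectrum (𝓞 K),
        FinitePlace.mk v (e : K) ^ e ≤ FinitePlace.mk v (e : K) ^ 2 := fun v =>
      pow_le_pow_of_le_one (apply_nonneg _ _) (mk_nat_le_one v e) he
    refine ⟨t2 / t1, Vf, Vi, div_ne_zero ht2 ht1, ?_, ?_, ?_, ?_, ?_, ?_, ?_, ?_⟩
    · have q1 : x1 = b * t1 ^ e := hxt1
      have q2 : x2 = b * t2 ^ e := hxt2
      clear_value t1 t2 b
      have q3 : t1 ^ e ≠ 0 := pow_ne_zero e ht1
      rw [q1, q2, div_pow]
      field_simp
    · intro v hv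
      exact lt_of_lt_of_le ((mVf v).mp hv).2 (hsq v)
    · intro v hv
      have h1 := (mVf v).mp hv
      exact lt_of_lt_of_le ((hbf v h1.1).mp h1.2) (hsq v)
    · intro v hv
      have h1 := (mVf v).mp hv
      have h2 := (hbf v h1.1).mp h1.2
      have h3 := (loc_col e he v b).choose_spec t1 t2 ht1 ht2
        (by have := h1.2; unfold colorBf at this; rwa [hxt1] at this)
        (by have := h2; unfold colorBf at this; rwa [hxt2] at this)
      apply h3
      have h4 := congrFun c3 ⟨v, h1.1⟩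
      have hcol : ∀ c, c = b → (loc_col e he v c).choose t2 = (loc_col e he v b).choose t2 := by
        intro c hc
        rw [hc]
      exact h4.trans (hcol _ (by rw [hb, c1]))
    · intro w hw
      exact (mVi w).mp hw
    · intro w hw
      exact (hbi w).mp ((mVi w).mp hw)
    · intro w _
      rw [map_div₀]
      apply color_cell (by omega)
      · exact (map_ne_zero _).mpr ht1
      · exact (map_ne_zero _).mpr ht2
      · exact congrFun c5 w
    · intro a ha
      have hN0 : (0 : ℝ) < N := by exact_mod_cast hN1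
      set μ := min (a * hgt x1) (hgt x2) with hμ
      have hμ0 : 0 ≤ μ := le_min (by positivity) hp2.le
      have key : ∀ (k : ℕ) (A1 A2 : ℝ), 0 ≤ A1 → 0 ≤ A2 → k = ⌊20 * N * A1 / hgt x1⌋₊ →
          k = ⌊20 * N * A2 / hgt x2⌋₊ → (k : ℝ) / (20 * N) * μ ≤ min (a * A1) A2 :=
        fun k A1 A2 hA1 hA2 hk1 hk2 => color_key hN0 hp1 hp2 (by linarith) hA1 hA2 hk1 hk2
      -- the entries of the vector
      have kf : ∀ v (hv : v ∈ T), colorBf e v x1 → colorVec e T N x1 (Sum.inl ⟨v, hv⟩) =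
          ⌊20 * N * ((ord v (x1 - 1) : ℝ) * ln v) / hgt x1⌋₊ ∧
          colorVec e T N x1 (Sum.inl ⟨v, hv⟩) =
          ⌊20 * N * ((ord v (x2 - 1) : ℝ) * ln v) / hgt x2⌋₊ := by
        intro v hv h
        constructor
        · simp only [colorVec, if_pos h]
        · rw [hvec]
          simp only [colorVec, if_pos ((hbf v hv).mp h)]
      have ki : ∀ w, colorBi w x1 → colorVec e T N x1 (Sum.inr w) =
          ⌊20 * N * ((w.mult : ℝ) * (-Real.log (w (x1 - 1)))) / hgt x1⌋₊ ∧
          colorVec e T N x1 (Sum.inr w) =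
          ⌊20 * N * ((w.mult : ℝ) * (-Real.log (w (x2 - 1)))) / hgt x2⌋₊ := by
        intro w h
        constructor
        · simp only [colorVec, if_pos h]
        · rw [hvec]
          simp only [colorVec, if_pos ((hbi w).mp h)]
      let kk : HeightOneSpectrum (𝓞 K) → ℝ := fun v =>
        ((⌊20 * N * ((ord v (x1 - 1) : ℝ) * ln v) / hgt x1⌋₊ : ℕ) : ℝ)
      let kw : InfinitePlace K → ℝ := fun w =>
        ((⌊20 * N * ((w.mult : ℝ) * (-Real.log (w (x1 - 1)))) / hgt x1⌋₊ : ℕ) : ℝ)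
      have s1 : ∑ v ∈ Vf, kk v / (20 * N) * μ ≤
          ∑ v ∈ Vf, min (a * ((ord v (x1 - 1) : ℝ) * ln v)) ((ord v (x2 - 1) : ℝ) * ln v) := by
        refine Finset.sum_le_sum fun v hv => ?_
        obtain ⟨h1, h2⟩ := (mVf v).mp hv
        obtain ⟨h3, h4⟩ := kf v h1 h2
        exact key _ _ _ (color_mf_nonneg hx1.2.1 h2) (color_mf_nonneg hx2.2.1 ((hbf v h1).mp h2))
          rfl (h3.symm.trans h4)
      have s2 : ∑ w ∈ Vi, kw w / (20 * N) * μ ≤
          ∑ w ∈ Vi, (w.mult : ℝ) * min (a * (-Real.log (w (x1 - 1)))) (-Real.log (w (x2 - 1))) := by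
        refine Finset.sum_le_sum fun w hw => ?_
        have h1 := (mVi w).mp hw
        obtain ⟨h3, h4⟩ := ki w h1
        have h5 := key _ _ _ (color_mi_nonneg h1) (color_mi_nonneg ((hbi w).mp h1))
          rfl (h3.symm.trans h4)
        refine h5.trans (le_of_eq ?_)
        rw [mul_min_of_nonneg _ _ (Nat.cast_nonneg _)]
        congr 1
        ring
      have s3 : 18 * (N : ℝ) ≤ ∑ v ∈ Vf, kk v + ∑ w ∈ Vi, kw w := by
        have hm := color_mass he hx1 hb1 Vf Vi mVf mVi
        have v1 : 20 * N / hgt x1 * ∑ v ∈ Vf, ((ord v (x1 - 1) : ℝ) * ln v) - T.card ≤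
            ∑ v ∈ Vf, kk v := by
          have w1 : ∑ v ∈ Vf, (20 * N * ((ord v (x1 - 1) : ℝ) * ln v) / hgt x1 - 1) ≤
              ∑ v ∈ Vf, kk v := by
            refine Finset.sum_le_sum fun v _ => ?_
            exact (Nat.sub_one_lt_floor _).le
          refine le_trans ?_ w1
          rw [Finset.sum_sub_distrib, Finset.sum_const, nsmul_eq_mul, mul_one, Finset.mul_sum]
          have w2 : (Vf.card : ℝ) ≤ T.card := by
            exact_mod_cast Finset.card_le_card (Finset.filter_subset _ _)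
          have w3 : ∑ v ∈ Vf, 20 * N / hgt x1 * ((ord v (x1 - 1) : ℝ) * ln v) =
              ∑ v ∈ Vf, 20 * N * ((ord v (x1 - 1) : ℝ) * ln v) / hgt x1 :=
            Finset.sum_congr rfl fun v _ => by ring
          rw [w3]
          linarith
        have v2 : 20 * N / hgt x1 * ∑ w ∈ Vi, ((w.mult : ℝ) * (-Real.log (w (x1 - 1)))) - r ≤
            ∑ w ∈ Vi, kw w := by
          have w1 : ∑ w ∈ Vi, (20 * N * ((w.mult : ℝ) * (-Real.log (w (x1 - 1)))) / hgt x1 - 1) ≤
              ∑ w ∈ Vi, kw w := by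
            refine Finset.sum_le_sum fun w _ => ?_
            exact (Nat.sub_one_lt_floor _).le
          refine le_trans ?_ w1
          rw [Finset.sum_sub_distrib, Finset.sum_const, nsmul_eq_mul, mul_one, Finset.mul_sum]
          have w2 : (Vi.card : ℝ) ≤ r := by
            rw [hr]
            exact_mod_cast Finset.card_le_univ _
          have w3 : ∑ w ∈ Vi, 20 * N / hgt x1 * ((w.mult : ℝ) * (-Real.log (w (x1 - 1)))) =
              ∑ w ∈ Vi, 20 * N * ((w.mult : ℝ) * (-Real.log (w (x1 - 1)))) / hgt x1 :=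
            Finset.sum_congr rfl fun v _ => by ring
          rw [w3]
          linarith
        have v3 : 20 * N / hgt x1 * (19 / 20 * hgt x1) ≤ 20 * N / hgt x1 *
            (∑ v ∈ Vf, ((ord v (x1 - 1) : ℝ) * ln v) +
              ∑ w ∈ Vi, ((w.mult : ℝ) * (-Real.log (w (x1 - 1))))) :=
          mul_le_mul_of_nonneg_left hm (div_pos (by linarith) hp1).le
        have v4 : 20 * N / hgt x1 * (19 / 20 * hgt x1) = 19 * N := by
          have : hgt x1 ≠ 0 := hp1.ne'
          field_simp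
          try ring
        have v5 : (N : ℝ) = T.card + r := by rw [hN]; push_cast; ring
        rw [v4, mul_add] at v3
        linarith
      calc 9 / 10 * μ = 18 * (N : ℝ) * (μ / (20 * N)) := by field_simp; ring
        _ ≤ (∑ v ∈ Vf, kk v + ∑ w ∈ Vi, kw w) * (μ / (20 * N)) :=
            mul_le_mul_of_nonneg_right s3 (div_nonneg hμ0 (by linarith))
        _ = ∑ v ∈ Vf, kk v / (20 * N) * μ + ∑ w ∈ Vi, kw w / (20 * N) * μ := by
            rw [add_mul, Finset.sum_mul, Finset.sum_mul]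
            congr 1 <;> exact Finset.sum_congr rfl fun _ _ => by ring
        _ ≤ _ := add_le_add s1 s2

end Pool.Agent.TM2
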