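import Mathlib
import Pool.Agent.TM2.Thue2
import Pool.Agent.TM2.SetC

/-!
# PtA (size 3)

For `x ∈ S` choose `e ∈ ee` as in the hypothesis, `W = {v ∈ fs x | prt x v ≠ 2, e ∣ mlt x v}`, `T = fs x \ W`: `∑_{v ∈ T} ln v ≤ R - 2/9 R = 7/9 R`
(`rad_fs`), `T.card ≤ k`. Then `y = x / (x - 1) ∈ XX2 K e T`: `y ≠ 0, 1`; `y - 1 = 1 / (x - 1)`. For `v ∉ T`: if `v ∉ fs x` all exponents are `0`; if
`v ∈ W`, `prt x v = 0`: `ord v y = ord v x = mlt x v`, `ord v (y - 1) = 0`; `prt x v = 1`: `ord v x = 0`, `ord v y = -ord v (x - 1) = -mlt x v`,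
`ord v (y - 1) = -ord v (x - 1) ≤ 0` (`mlt_zero`, `mlt_one`, `ord_div`, `ord_inv'`). `x ↦ x / (x - 1)` is injective on `x ≠ 1`. So
`S.card ≤ ∑_{e ∈ ee} ∑_T (XX2 K e T).ncard`, `T` in the finite set of `sets_card` (`r = 7/9 R`) with `T.card ≤ k`, and by `thue_mahler2`
`(XX2 K e T).ncard ≤ exp (C (e (1 + log e) + (T.card + 1) (1 + log e))) ≤ exp (C E)`. (The constant of `sets_card` goes into `exp (C (E + 1))`: `C' ≤ exp C'`;
`E ≥ 0` follows from the hypothesis if `ee` is nonempty; if `ee` is empty then `S` is empty.)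
-/

namespace Pool.Agent.TM2

open NumberField IsDedekindDomain Pool.Agent.H7.Abc Pool.Agent.AbcE Pool.Agent.TMS

/-- the element of the Thue-Mahler set -/
private theorem ptA_mem (K : Type) [Field K] [NumberField K] {x : K} (hx : x ≠ 0) (hx1 : x ≠ 1)
    (e : ℕ) (T : Finset (HeightOneSpectrum (𝓞 K)))
    (hT : ∀ v, v ∉ T → v ∈ fs x → prt x v ≠ 2 ∧ e ∣ mlt x v) :
    x / (x - 1) ∈ XX2 K e T := by
  have hx1' : x - 1 ≠ 0 := sub_ne_zero.2 hx1
  have hy1 : x / (x - 1) - 1 = (x - 1)⁻¹ := by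
    field_simp
    ring
  refine ⟨div_ne_zero hx hx1', ?_, ?_⟩
  · intro h
    rw [← sub_eq_zero, hy1] at h
    exact inv_ne_zero hx1' h
  · intro v hv
    rw [hy1, ord_inv' v hx1', ord_div v hx hx1']
    by_cases hf : v ∈ fs x
    · obtain ⟨h2, hd⟩ := hT v hv hf
      have hd' : (e : ℤ) ∣ (mlt x v : ℤ) := Int.natCast_dvd_natCast.2 hd
      have h3 : prt x v = 0 ∨ prt x v = 1 := by
        have : ∀ p : Fin 3, p ≠ 2 → p = 0 ∨ p = 1 := by decide
        exact this _ h2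
      rcases h3 with h3 | h3
      · obtain ⟨h4, h5⟩ := mlt_zero hx hx1 h3
        rw [h5, ← h4]
        refine ⟨by simp, ?_⟩
        rw [sub_zero]
        exact hd'
      · obtain ⟨h4, h5⟩ := mlt_one hx hx1 h3
        rw [h5, ← h4]
        refine ⟨by simp, ?_⟩
        rw [zero_sub]
        exact (dvd_neg).2 hd'
    · rw [mem_fs hx hx1] at hf
      push Not at hf
      rw [hf.1, hf.2]
      simp

private theorem ptA_inj (K : Type) [Field K] {x y : K} (hx : x ≠ 1) (hy : y ≠ 1)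
    (h : x / (x - 1) = y / (y - 1)) : x = y := by
  have hx1 : x - 1 ≠ 0 := sub_ne_zero.2 hx
  have hy1 : y - 1 ≠ 0 := sub_ne_zero.2 hy
  rw [div_eq_div_iff hx1 hy1] at h
  linear_combination -h

theorem part_one (K : Type) [Field K] [NumberField K] :
    ∃ C : ℝ, 1 ≤ C ∧ ∀ (R k E : ℝ) (ee : Finset ℕ), 0 ≤ R → 0 ≤ k →
      (∀ e ∈ ee, 3 ≤ e ∧ (e : ℝ) * (1 + Real.log e) + (k + 1) * (1 + Real.log e) ≤ E) →
      ∀ S : Finset K, (∀ x ∈ S, x ≠ 0 ∧ x ≠ 1 ∧ rad x ≤ R ∧ ((fs x).card : ℝ) ≤ k ∧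
        ∃ e ∈ ee, 2 / 9 * R ≤
          ∑ v ∈ (fs x).filter (fun v => prt x v ≠ 2 ∧ e ∣ mlt x v), ln v) →
      (S.card : ℝ) ≤ ee.card * Real.exp (C * (E + 1)) * Real.exp (7 / 9 * R) := by
  classical
  obtain ⟨C1, hC1, htm⟩ := thue_mahler2 K
  obtain ⟨C2, hC2, hsets⟩ := sets_card K
  refine ⟨C1 + C2, by linarith, ?_⟩
  intro R k E ee hR hk hee S hS
  rcases ee.eq_empty_or_nonempty with rfl | hne
  · have hS0 : S = ∅ := by
      rw [Finset.eq_empty_iff_forall_notMem]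
      intro x hx
      obtain ⟨-, -, -, -, e, he, -⟩ := hS x hx
      simp at he
    rw [hS0]
    simp
  have hE : 0 ≤ E := by
    obtain ⟨e, he⟩ := hne
    obtain ⟨h3, h4⟩ := hee e he
    have h5 : (3 : ℝ) ≤ e := by exact_mod_cast h3
    have h6 : 0 ≤ Real.log e := Real.log_nonneg (by linarith)
    have h7 : 0 ≤ (e : ℝ) * (1 + Real.log e) := by positivity
    have h8 : 0 ≤ (k + 1) * (1 + Real.log e) := by positivity
    linarith
  have h79 : 0 ≤ 7 / 9 * R := by positivity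
  obtain ⟨hfin, hcard⟩ := hsets (7 / 9 * R) h79
  set TT : Finset (Finset (HeightOneSpectrum (𝓞 K))) :=
    hfin.toFinset.filter (fun T => (T.card : ℝ) ≤ k) with hTT
  have hTTc : (TT.card : ℝ) ≤ C2 * Real.exp (7 / 9 * R) := by
    refine le_trans ?_ hcard
    rw [Set.ncard_eq_toFinset_card _ hfin]
    exact_mod_cast Finset.card_filter_le _ _
  have hcov : S ⊆ ee.biUnion (fun e => TT.biUnion (fun T =>
      S.filter (fun x => x / (x - 1) ∈ XX2 K e T))) := by
    intro x hx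
    obtain ⟨hx0, hx1, hr, hc, e, he, hsum⟩ := hS x hx
    rw [Finset.mem_biUnion]
    refine ⟨e, he, ?_⟩
    rw [Finset.mem_biUnion]
    refine ⟨fs x \ (fs x).filter (fun v => prt x v ≠ 2 ∧ e ∣ mlt x v), ?_, ?_⟩
    · rw [hTT, Finset.mem_filter, Set.Finite.mem_toFinset]
      constructor
      · show ∑ v ∈ fs x \ (fs x).filter (fun v => prt x v ≠ 2 ∧ e ∣ mlt x v), ln v ≤ 7 / 9 * R
        have h3 := Finset.sum_sdiff (f := fun v => ln v)
          (Finset.filter_subset (fun v => prt x v ≠ 2 ∧ e ∣ mlt x v) (fs x))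
        rw [rad_fs hx0 hx1] at hr
        linarith
      · refine le_trans ?_ hc
        exact_mod_cast Finset.card_le_card Finset.sdiff_subset
    · rw [Finset.mem_filter]
      refine ⟨hx, ptA_mem K hx0 hx1 e _ fun v hv hvf => ?_⟩
      by_contra hcon
      apply hv
      rw [Finset.mem_sdiff, Finset.mem_filter]
      exact ⟨hvf, fun h => hcon h.2⟩
  have hone : ∀ e ∈ ee, ∀ T ∈ TT, ((S.filter (fun x => x / (x - 1) ∈ XX2 K e T)).card : ℝ) ≤
      Real.exp (C1 * E) := by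
    intro e he T hT
    obtain ⟨h3, h4⟩ := hee e he
    obtain ⟨hf, hb⟩ := htm e T h3
    have hTk : (T.card : ℝ) ≤ k := (Finset.mem_filter.1 hT).2
    have h5 : (3 : ℝ) ≤ e := by exact_mod_cast h3
    have h6 : 0 ≤ Real.log e := Real.log_nonneg (by linarith)
    have h7 : ((S.filter (fun x => x / (x - 1) ∈ XX2 K e T)).card : ℝ) ≤
        ((XX2 K e T).ncard : ℕ) := by
      rw [Set.ncard_eq_toFinset_card _ hf]
      have h8 : ((S.filter (fun x => x / (x - 1) ∈ XX2 K e T)).image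
          (fun x => x / (x - 1))).card = (S.filter (fun x => x / (x - 1) ∈ XX2 K e T)).card := by
        refine Finset.card_image_of_injOn ?_
        intro x hx y hy hxy
        exact ptA_inj K (hS x (Finset.mem_filter.1 hx).1).2.1
          (hS y (Finset.mem_filter.1 hy).1).2.1 hxy
      rw [← h8]
      norm_cast
      refine Finset.card_le_card ?_
      intro y hy
      obtain ⟨x, hx, rfl⟩ := Finset.mem_image.1 hy
      rw [Set.Finite.mem_toFinset]
      exact (Finset.mem_filter.1 hx).2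
    refine h7.trans (hb.trans (Real.exp_le_exp.2 ?_))
    refine mul_le_mul_of_nonneg_left (le_trans ?_ h4) hC1.le
    have h9 : ((T.card : ℝ) + 1) * (1 + Real.log e) ≤ (k + 1) * (1 + Real.log e) := by gcongr
    linarith
  have hmain : (S.card : ℝ) ≤ ee.card * (TT.card * Real.exp (C1 * E)) := by
    have h3 : S.card ≤ ∑ e ∈ ee, ∑ T ∈ TT,
        (S.filter (fun x => x / (x - 1) ∈ XX2 K e T)).card := by
      refine (Finset.card_le_card hcov).trans (Finset.card_biUnion_le.trans ?_)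
      exact Finset.sum_le_sum fun e _ => Finset.card_biUnion_le
    calc (S.card : ℝ) ≤ ((∑ e ∈ ee, ∑ T ∈ TT,
        (S.filter (fun x => x / (x - 1) ∈ XX2 K e T)).card : ℕ) : ℝ) := by exact_mod_cast h3
      _ = ∑ e ∈ ee, ∑ T ∈ TT,
          ((S.filter (fun x => x / (x - 1) ∈ XX2 K e T)).card : ℝ) := by push_cast; rfl
      _ ≤ ∑ e ∈ ee, ∑ T ∈ TT, Real.exp (C1 * E) :=
          Finset.sum_le_sum fun e he => Finset.sum_le_sum fun T hT => hone e he T hT
      _ = ee.card * (TT.card * Real.exp (C1 * E)) := by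
          rw [Finset.sum_const, Finset.sum_const, nsmul_eq_mul, nsmul_eq_mul]
  refine hmain.trans ?_
  have h10 : C2 ≤ Real.exp C2 := by
    have := Real.add_one_le_exp C2
    linarith
  have h11 : (TT.card : ℝ) * Real.exp (C1 * E) ≤
      Real.exp ((C1 + C2) * (E + 1)) * Real.exp (7 / 9 * R) := by
    calc (TT.card : ℝ) * Real.exp (C1 * E)
        ≤ (C2 * Real.exp (7 / 9 * R)) * Real.exp (C1 * E) := by gcongr
      _ ≤ (Real.exp C2 * Real.exp (7 / 9 * R)) * Real.exp (C1 * E) := by gcongr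
      _ = Real.exp (C2 + C1 * E) * Real.exp (7 / 9 * R) := by
          rw [Real.exp_add]; ring
      _ ≤ Real.exp ((C1 + C2) * (E + 1)) * Real.exp (7 / 9 * R) := by
          refine mul_le_mul_of_nonneg_right (Real.exp_le_exp.2 ?_) (Real.exp_pos _).le
          have : 0 ≤ C2 * E := by positivity
          nlinarith
  calc (ee.card : ℝ) * (TT.card * Real.exp (C1 * E))
      ≤ ee.card * (Real.exp ((C1 + C2) * (E + 1)) * Real.exp (7 / 9 * R)) := by gcongr
    _ = ee.card * Real.exp ((C1 + C2) * (E + 1)) * Real.exp (7 / 9 * R) := by ring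

end Pool.Agent.TM2
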