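import Mathlib
import Pool.Agent.TM2.Defs
import Pool.Agent.TMS.Smooth
import Pool.Agent.TMS.ThetaK
import Pool.Agent.TMS.IdAsym

/-!
# Sm2 (size 4)

Let `δ1, Z0` be from `smooth_places K`, `δ = δ1 / 2`. Given `A, η` and `R` large let `Z = 4 A R`, `F0, L` from `smooth_places` and `F = {l ∈ F0 | 1 ≤ η ln l}`.
The removed places have norm `≤ exp (1 / η)`: their sum is at most `C exp (1 / η)` (`theta_le`). For `D.card ≤ 2 R ^ δ`:
`∑_{F \ D} ln ≥ Z - C exp (1 / η) - 2 R ^ δ * 2 log Z ≥ A R` for `R ≥ R0`.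
`log L ≤ Z ^ (1 - δ1)`; `F ⊆ plc K (Z ^ 2)` (`ln l ≤ 2 log Z`), so `F.card ≤ C Z ^ 2` (`plc_card_le`) and `∑_F ln ≤ C Z ^ 2` (`theta_le`): the logarithms
`log (F.card + 1)`, `log (∑_F ln)`, `log (R + 1)` are `O(log R)` (note `log 0 = 0` in Lean), and `(R ^ δ + 1) (4 A R) ^ (1 - δ1) = O(R ^ (1 - δ1 / 2))`.
A prime `e ∣ L` has `e ≤ Z ^ (1 - δ1)`; so for `e = 4` or `e` prime: `e (1 + log e) + (R ^ δ + 1) (1 + log e) ≤ η R` for `R` large.
(All the asymptotic facts: `isLittleO_log_rpow_atTop`, `tendsto_rpow_atTop`, eventually `log R ≤ R ^ (δ1 / 8)`...; collect the finitely many for all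
large `R` conditions with `Filter.eventually_atTop`.)
-/

namespace Pool.Agent.TM2

open NumberField IsDedekindDomain Pool.Agent.H7.Abc Pool.Agent.AbcE Pool.Agent.TMS

private theorem sm2_log {x s : ℝ} (hx : 1 ≤ x) (hs : 0 < s) : Real.log x ≤ x ^ s / s :=
  Real.log_le_rpow_div (by linarith) hs

/-- the first asymptotic inequality -/
private theorem sm2_a {δ1 A R : ℝ} (h1 : 0 < δ1) (h2 : δ1 < 1 / 2) (hA : 1 ≤ A) (hR : 1 ≤ R)
    (hM : 16 / (δ1 / 2) ≤ R ^ (δ1 / 2)) : 4 * R ^ (δ1 / 2) * Real.log (4 * A * R) ≤ A * R := by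
  set s : ℝ := δ1 / 2 with hs
  have hs0 : 0 < s := by rw [hs]; linarith
  have hR0 : 0 < R := by linarith
  have hlog : Real.log (4 * A * R) ≤ 4 * A * R ^ s / s := by
    have h3 := sm2_log (x := 4 * A * R) (s := s) (by nlinarith) hs0
    refine h3.trans ?_
    rw [Real.mul_rpow (by linarith) hR0.le]
    have h4 : (4 * A) ^ s ≤ 4 * A := by
      calc (4 * A) ^ s ≤ (4 * A) ^ (1 : ℝ) :=
            Real.rpow_le_rpow_of_exponent_le (by linarith) (by rw [hs]; linarith)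
        _ = 4 * A := Real.rpow_one _
    have h5 : 0 ≤ R ^ s := Real.rpow_nonneg hR0.le _
    gcongr
  have hRs : 0 < R ^ s := Real.rpow_pos_of_pos hR0 _
  have h6 : 4 * R ^ s * Real.log (4 * A * R) ≤ 4 * R ^ s * (4 * A * R ^ s / s) := by gcongr
  refine h6.trans ?_
  have h7 : 4 * R ^ s * (4 * A * R ^ s / s) = A * ((16 / s) * (R ^ s * R ^ s)) := by
    field_simp
    ring
  rw [h7]
  have h8 : (16 / s) * (R ^ s * R ^ s) ≤ R := by
    calc (16 / s) * (R ^ s * R ^ s) ≤ R ^ s * (R ^ s * R ^ s) := by gcongr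
      _ = R ^ (s + (s + s)) := by
          rw [Real.rpow_add hR0, Real.rpow_add hR0]
      _ ≤ R ^ (1 : ℝ) := Real.rpow_le_rpow_of_exponent_le hR (by rw [hs]; linarith)
      _ = R := Real.rpow_one R
  have hA0 : 0 ≤ A := by linarith
  exact mul_le_mul_of_nonneg_left h8 hA0

/-- the last step of the second and third inequalities -/
private theorem sm2_b {δ1 η R C : ℝ} (hR : 1 ≤ R) (hη : 0 < η)
    (hM : C / η ≤ R ^ (δ1 / 2)) : C * R ^ (1 - δ1 / 2) ≤ η * R := by
  have hR0 : 0 < R := by linarith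
  have h1 : C ≤ η * R ^ (δ1 / 2) := by
    rw [div_le_iff₀ hη] at hM
    linarith
  have h2 : 0 ≤ R ^ (1 - δ1 / 2) := Real.rpow_nonneg hR0.le _
  calc C * R ^ (1 - δ1 / 2) ≤ η * R ^ (δ1 / 2) * R ^ (1 - δ1 / 2) := by gcongr
    _ = η * R ^ (δ1 / 2 + (1 - δ1 / 2)) := by rw [Real.rpow_add hR0]; ring
    _ = η * R := by rw [add_sub_cancel, Real.rpow_one]

private theorem sm2_c {δ1 c R : ℝ} (h2 : δ1 < 1 / 2) (hc : 1 ≤ c) (hR : 1 ≤ R) :
    Real.log (c * R ^ 2) ≤ (Real.log c + 4) * R ^ (1 - δ1) := by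
  have hR0 : 0 < R := by linarith
  have h1 : Real.log (c * R ^ 2) = Real.log c + 2 * Real.log R := by
    rw [Real.log_mul (by linarith) (by positivity), Real.log_pow]
    norm_num
  have h3 : 1 ≤ R ^ (1 - δ1) := Real.one_le_rpow hR (by linarith)
  have h4 : Real.log R ≤ 2 * R ^ (1 - δ1) := by
    have h5 := sm2_log (x := R) (s := 1 - δ1) hR (by linarith)
    refine h5.trans ?_
    rw [div_le_iff₀ (by linarith)]
    nlinarith
  have h6 : 0 ≤ Real.log c := Real.log_nonneg hc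
  rw [h1]
  nlinarith

private theorem sm2_d {δ1 R : ℝ} (h1 : 0 < δ1) (hR : 1 ≤ R) :
    (R ^ (δ1 / 2) + 1) * R ^ (1 - δ1) ≤ 2 * R ^ (1 - δ1 / 2) := by
  have hR0 : 0 < R := by linarith
  have h3 : 1 ≤ R ^ (δ1 / 2) := Real.one_le_rpow hR (by linarith)
  have h4 : 0 ≤ R ^ (1 - δ1) := Real.rpow_nonneg hR0.le _
  calc (R ^ (δ1 / 2) + 1) * R ^ (1 - δ1) ≤ (2 * R ^ (δ1 / 2)) * R ^ (1 - δ1) := by
        gcongr
        linarith
    _ = 2 * R ^ (δ1 / 2 + (1 - δ1)) := by rw [Real.rpow_add hR0]; ring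
    _ = 2 * R ^ (1 - δ1 / 2) := by congr 2; ring

/-- the third inequality -/
private theorem sm2_e {δ1 A η R : ℝ} (h1 : 0 < δ1) (h2 : δ1 < 1 / 2) (hA : 1 ≤ A) (hR : 1 ≤ R)
    (hη : 0 < η) (hM : (8 * A + 2) * (1 + 8 * A / (δ1 / 2)) / η ≤ R ^ (δ1 / 2)) {e : ℝ}
    (he1 : 1 ≤ e) (he : e ≤ 8 * A * R ^ (1 - δ1)) :
    e * (1 + Real.log e) + (R ^ (δ1 / 2) + 1) * (1 + Real.log e) ≤ η * R := by
  set s : ℝ := δ1 / 2 with hs
  have hs0 : 0 < s := by rw [hs]; linarith
  have hR0 : 0 < R := by linarith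
  have hRs : 1 ≤ R ^ s := Real.one_le_rpow hR hs0.le
  have hR1 : 0 ≤ R ^ (1 - δ1) := Real.rpow_nonneg hR0.le _
  have hRle : R ^ s ≤ R ^ (1 - δ1) :=
    Real.rpow_le_rpow_of_exponent_le hR (by rw [hs]; linarith)
  have hlog : Real.log e ≤ 8 * A / s * R ^ s := by
    have h3 := sm2_log (x := e) (s := s) he1 hs0
    have h4 : e ≤ 8 * A * R := by
      refine he.trans ?_
      have : R ^ (1 - δ1) ≤ R := by
        calc R ^ (1 - δ1) ≤ R ^ (1 : ℝ) := Real.rpow_le_rpow_of_exponent_le hR (by linarith)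
          _ = R := Real.rpow_one R
      have hA0 : 0 ≤ 8 * A := by linarith
      exact mul_le_mul_of_nonneg_left this hA0
    have h5 : e ^ s ≤ (8 * A * R) ^ s := Real.rpow_le_rpow (by linarith) h4 hs0.le
    rw [Real.mul_rpow (by linarith) hR0.le] at h5
    have h6 : (8 * A) ^ s ≤ 8 * A := by
      calc (8 * A) ^ s ≤ (8 * A) ^ (1 : ℝ) :=
            Real.rpow_le_rpow_of_exponent_le (by linarith) (by rw [hs]; linarith)
        _ = 8 * A := Real.rpow_one _
    have h7 : e ^ s ≤ 8 * A * R ^ s := h5.trans (by gcongr)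
    calc Real.log e ≤ e ^ s / s := h3
      _ ≤ 8 * A * R ^ s / s := by gcongr
      _ = 8 * A / s * R ^ s := by ring
  have hlog0 : 0 ≤ Real.log e := Real.log_nonneg he1
  have h8 : 1 + Real.log e ≤ (1 + 8 * A / s) * R ^ s := by nlinarith
  have h9 : e + (R ^ s + 1) ≤ (8 * A + 2) * R ^ (1 - δ1) := by nlinarith
  have h10 : 0 ≤ 8 * A / s := by positivity
  calc e * (1 + Real.log e) + (R ^ s + 1) * (1 + Real.log e)
      = (e + (R ^ s + 1)) * (1 + Real.log e) := by ring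
    _ ≤ ((8 * A + 2) * R ^ (1 - δ1)) * ((1 + 8 * A / s) * R ^ s) := by
        apply mul_le_mul h9 h8 (by linarith) (by positivity)
    _ = (8 * A + 2) * (1 + 8 * A / s) * R ^ ((1 - δ1) + s) := by
        rw [Real.rpow_add hR0]; ring
    _ = (8 * A + 2) * (1 + 8 * A / s) * R ^ (1 - δ1 / 2) := by
        rw [hs]; congr 2; ring
    _ ≤ η * R := sm2_b hR hη (by rw [← hs]; exact hM)

open Classical in
theorem smooth2 (K : Type) [Field K] [NumberField K] :
    ∃ δ : ℝ, 0 < δ ∧ δ < 1 ∧ ∀ A η : ℝ, 1 ≤ A → 0 < η → ∃ R0 : ℝ, 1 ≤ R0 ∧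
      ∀ R : ℝ, R0 ≤ R → ∃ (F : Finset (HeightOneSpectrum (𝓞 K))) (L : ℕ), 1 ≤ L ∧
        (∀ l ∈ F, (Ideal.absNorm l.asIdeal - 1) ∣ L ∧ 1 ≤ η * ln l) ∧
        (∀ D : Finset (HeightOneSpectrum (𝓞 K)), (D.card : ℝ) ≤ 2 * R ^ δ →
          A * R ≤ ∑ l ∈ F \ D, ln l) ∧
        (R ^ δ + 1) * (1 + Real.log L + Real.log (F.card + 1) + Real.log (∑ l ∈ F, ln l) +
          Real.log (R + 1)) ≤ η * R ∧
        ∀ e : ℕ, (e = 4 ∨ (e.Prime ∧ e ≠ 2)) → e ∣ L →
          (e : ℝ) * (1 + Real.log e) + (R ^ δ + 1) * (1 + Real.log e) ≤ η * R := by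
  classical
  obtain ⟨δ1, Z0, h1, h2, hZ0, hs⟩ := smooth_places K
  obtain ⟨Ct, hCt, hth⟩ := theta_le K
  obtain ⟨Cn, hCn, hn⟩ := plc_card_le K
  refine ⟨δ1 / 2, by linarith, by linarith, fun A η hA hη => ?_⟩
  have hA0 : 0 < A := by linarith
  set c1 : ℝ := 16 * A ^ 2 * Cn + 1 with hc1
  set c2 : ℝ := 16 * A ^ 2 * Ct + 1 with hc2
  have hc1' : 1 ≤ c1 := by rw [hc1]; have : 0 ≤ 16 * A ^ 2 * Cn := by positivity
                           linarith
  have hc2' : 1 ≤ c2 := by rw [hc2]; have : 0 ≤ 16 * A ^ 2 * Ct := by positivity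
                           linarith
  set C4 : ℝ := 1 + 4 * A + (Real.log c1 + 4) + (Real.log c2 + 4) + (Real.log 2 + 2) with hC4
  set C6 : ℝ := (8 * A + 2) * (1 + 8 * A / (δ1 / 2)) with hC6
  have hC4' : 0 < C4 := by
    have := Real.log_nonneg hc1'
    have := Real.log_nonneg hc2'
    have := Real.log_nonneg (show (1 : ℝ) ≤ 2 by norm_num)
    rw [hC4]; linarith
  have hC6' : 0 < C6 := by rw [hC6]; positivity
  set M : ℝ := 16 / (δ1 / 2) + 2 * C4 / η + C6 / η with hM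
  have hM0 : 0 < M := by rw [hM]; positivity
  refine ⟨max (max 1 Z0) (max (Ct * Real.exp (1 / η)) (M ^ (1 / (δ1 / 2)))),
    le_max_of_le_left (le_max_left _ _), fun R hR => ?_⟩
  have hR1 : 1 ≤ R := le_trans (le_trans (le_max_left _ _) (le_max_left _ _)) hR
  have hRZ : Z0 ≤ R := le_trans (le_trans (le_max_right _ _) (le_max_left _ _)) hR
  have hRt : Ct * Real.exp (1 / η) ≤ R :=
    le_trans (le_trans (le_max_left _ _) (le_max_right _ _)) hR
  have hRM' : M ^ (1 / (δ1 / 2)) ≤ R :=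
    le_trans (le_trans (le_max_right _ _) (le_max_right _ _)) hR
  have hR0 : 0 < R := by linarith
  have hRM : M ≤ R ^ (δ1 / 2) := by
    have h3 := Real.rpow_le_rpow (Real.rpow_nonneg hM0.le _) hRM'
      (show (0 : ℝ) ≤ δ1 / 2 by linarith)
    rw [← Real.rpow_mul hM0.le, one_div_mul_cancel (by linarith), Real.rpow_one] at h3
    exact h3
  have hMa : 16 / (δ1 / 2) ≤ R ^ (δ1 / 2) := by
    have : 0 ≤ 2 * C4 / η := by positivity
    have : 0 ≤ C6 / η := by positivity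
    linarith
  have hMb : 2 * C4 / η ≤ R ^ (δ1 / 2) := by
    have : 0 ≤ 16 / (δ1 / 2) := by positivity
    have : 0 ≤ C6 / η := by positivity
    linarith
  have hMc : C6 / η ≤ R ^ (δ1 / 2) := by
    have : 0 ≤ 16 / (δ1 / 2) := by positivity
    have : 0 ≤ 2 * C4 / η := by positivity
    linarith
  have hAR : R ≤ A * R := by nlinarith
  have hZ : Z0 ≤ 4 * A * R := by nlinarith
  have hZ1 : 1 ≤ 4 * A * R := by nlinarith
  obtain ⟨F0, L, hL, hsum, hF0, hlogL, hp⟩ := hs (4 * A * R) hZ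
  have hZp : (4 * A * R) ^ (1 - δ1) ≤ 4 * A * R ^ (1 - δ1) := by
    rw [Real.mul_rpow (by linarith) hR0.le]
    have h4 : (4 * A) ^ (1 - δ1) ≤ 4 * A := by
      calc (4 * A) ^ (1 - δ1) ≤ (4 * A) ^ (1 : ℝ) :=
            Real.rpow_le_rpow_of_exponent_le (by linarith) (by linarith)
        _ = 4 * A := Real.rpow_one _
    gcongr
  have hone : 1 ≤ R ^ (1 - δ1) := Real.one_le_rpow hR1 (by linarith)
  have hsub : F0.filter (fun l => 1 ≤ η * ln l) ⊆ plc K ((4 * A * R) ^ 2) := by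
    intro l hl
    rw [Finset.mem_filter] at hl
    rw [mem_plc]
    have h3 := (hF0 l hl.1).2
    have h4 : ln l = Real.log (Ideal.absNorm l.asIdeal : ℝ) := rfl
    rw [h4, ← Real.log_rpow (by linarith)] at h3
    have h5 := (Real.log_le_log_iff (by linarith [two_le_norm l])
      (Real.rpow_pos_of_pos (by linarith) _)).1 h3
    rwa [show ((2 : ℝ)) = ((2 : ℕ) : ℝ) by norm_num, Real.rpow_natCast] at h5
  refine ⟨F0.filter (fun l => 1 ≤ η * ln l), L, hL, ?_, ?_, ?_, ?_⟩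
  · intro l hl
    rw [Finset.mem_filter] at hl
    exact ⟨(hF0 l hl.1).1, hl.2⟩
  · intro D hD
    have hsplit : ∑ l ∈ F0, ln l ≤ ∑ l ∈ F0.filter (fun l => 1 ≤ η * ln l) \ D, ln l +
        (∑ l ∈ plc K (Real.exp (1 / η)), ln l + ∑ l ∈ D ∩ F0, ln l) := by
      have hcov : F0 ⊆ (F0.filter (fun l => 1 ≤ η * ln l) \ D) ∪
          (plc K (Real.exp (1 / η)) ∪ (D ∩ F0)) := by
        intro l hl
        rw [Finset.mem_union, Finset.mem_union, Finset.mem_sdiff, Finset.mem_filter,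
          Finset.mem_inter, mem_plc]
        by_cases hD' : l ∈ D
        · exact Or.inr (Or.inr ⟨hD', hl⟩)
        · by_cases hη' : 1 ≤ η * ln l
          · exact Or.inl ⟨⟨hl, hη'⟩, hD'⟩
          · right; left
            push Not at hη'
            have h5 : ln l < 1 / η := by
              rw [lt_div_iff₀ hη]
              linarith
            have h6 : (Ideal.absNorm l.asIdeal : ℝ) = Real.exp (ln l) := by
              unfold ln
              rw [Real.exp_log (by linarith [two_le_norm l])]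
            rw [h6]
            exact Real.exp_le_exp.2 h5.le
      have hnn : ∀ s : Finset (HeightOneSpectrum (𝓞 K)), 0 ≤ ∑ l ∈ s, ln l :=
        fun s => Finset.sum_nonneg fun l _ => (ln_pos l).le
      calc ∑ l ∈ F0, ln l ≤ ∑ l ∈ (F0.filter (fun l => 1 ≤ η * ln l) \ D) ∪
            (plc K (Real.exp (1 / η)) ∪ (D ∩ F0)), ln l :=
            Finset.sum_le_sum_of_subset_of_nonneg hcov fun l _ _ => (ln_pos l).le
        _ ≤ ∑ l ∈ F0.filter (fun l => 1 ≤ η * ln l) \ D, ln l +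
            ∑ l ∈ (plc K (Real.exp (1 / η)) ∪ (D ∩ F0)), ln l := by
            have := Finset.sum_union_inter (s₁ := F0.filter (fun l => 1 ≤ η * ln l) \ D)
              (s₂ := plc K (Real.exp (1 / η)) ∪ (D ∩ F0)) (f := fun l => ln l)
            have h7 := hnn ((F0.filter (fun l => 1 ≤ η * ln l) \ D) ∩
              (plc K (Real.exp (1 / η)) ∪ (D ∩ F0)))
            linarith
        _ ≤ _ := by
            have := Finset.sum_union_inter (s₁ := plc K (Real.exp (1 / η)))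
              (s₂ := D ∩ F0) (f := fun l => ln l)
            have h7 := hnn (plc K (Real.exp (1 / η)) ∩ (D ∩ F0))
            linarith
    have h8 : ∑ l ∈ plc K (Real.exp (1 / η)), ln l ≤ Ct * Real.exp (1 / η) :=
      hth _ (Real.exp_pos _).le
    have hlogZ : 0 ≤ Real.log (4 * A * R) := Real.log_nonneg hZ1
    have h9 : ∑ l ∈ D ∩ F0, ln l ≤ 4 * R ^ (δ1 / 2) * Real.log (4 * A * R) := by
      calc ∑ l ∈ D ∩ F0, ln l ≤ ∑ l ∈ D ∩ F0, 2 * Real.log (4 * A * R) :=
            Finset.sum_le_sum fun l hl => (hF0 l (Finset.mem_inter.1 hl).2).2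
        _ = (D ∩ F0).card * (2 * Real.log (4 * A * R)) := by
            rw [Finset.sum_const, nsmul_eq_mul]
        _ ≤ (2 * R ^ (δ1 / 2)) * (2 * Real.log (4 * A * R)) := by
            have h10 : ((D ∩ F0).card : ℝ) ≤ D.card := by
              exact_mod_cast Finset.card_le_card Finset.inter_subset_left
            have h11 : ((D ∩ F0).card : ℝ) ≤ 2 * R ^ (δ1 / 2) := h10.trans hD
            gcongr
        _ = 4 * R ^ (δ1 / 2) * Real.log (4 * A * R) := by ring
    have h12 := sm2_a h1 h2 hA hR1 hMa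
    nlinarith
  · have hlogF : Real.log (((F0.filter (fun l => 1 ≤ η * ln l)).card : ℝ) + 1) ≤
        (Real.log c1 + 4) * R ^ (1 - δ1) := by
      refine le_trans ?_ (sm2_c h2 hc1' hR1)
      refine Real.log_le_log (by positivity) ?_
      have h3 : ((F0.filter (fun l => 1 ≤ η * ln l)).card : ℝ) ≤
          (plc K ((4 * A * R) ^ 2)).card := by
        exact_mod_cast Finset.card_le_card hsub
      have h4 := hn ((4 * A * R) ^ 2) (by positivity)
      have h5 : 1 ≤ R ^ 2 := by nlinarith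
      rw [hc1]
      nlinarith
    have hlogS : Real.log (∑ l ∈ F0.filter (fun l => 1 ≤ η * ln l), ln l) ≤
        (Real.log c2 + 4) * R ^ (1 - δ1) := by
      refine le_trans ?_ (sm2_c h2 hc2' hR1)
      have h3 : ∑ l ∈ F0.filter (fun l => 1 ≤ η * ln l), ln l ≤ c2 * R ^ 2 := by
        have h6 : ∑ l ∈ F0.filter (fun l => 1 ≤ η * ln l), ln l ≤
            ∑ l ∈ plc K ((4 * A * R) ^ 2), ln l :=
          Finset.sum_le_sum_of_subset_of_nonneg hsub fun l _ _ => (ln_pos l).le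
        have h4 := hth ((4 * A * R) ^ 2) (by positivity)
        have h5 : 1 ≤ R ^ 2 := by nlinarith
        rw [hc2]
        nlinarith
      rcases (Finset.sum_nonneg (s := F0.filter (fun l => 1 ≤ η * ln l)) (f := fun l => ln l)
        fun l _ => (ln_pos l).le).eq_or_lt with h0 | h0
      · rw [← h0, Real.log_zero]
        refine Real.log_nonneg ?_
        have h5 : 1 ≤ R ^ 2 := by nlinarith
        nlinarith
      · exact Real.log_le_log h0 h3
    have hlogR : Real.log (R + 1) ≤ (Real.log 2 + 2) * R ^ (1 - δ1) := by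
      have h3 : Real.log (R + 1) ≤ Real.log 2 + Real.log R := by
        rw [← Real.log_mul (by norm_num) hR0.ne']
        exact Real.log_le_log (by linarith) (by linarith)
      have h5 := sm2_log (x := R) (s := 1 - δ1) hR1 (by linarith)
      have h6 : R ^ (1 - δ1) / (1 - δ1) ≤ 2 * R ^ (1 - δ1) := by
        rw [div_le_iff₀ (by linarith)]
        nlinarith
      have h7 := Real.log_nonneg (show (1 : ℝ) ≤ 2 by norm_num)
      nlinarith
    have htot : 1 + Real.log L + Real.log (((F0.filter (fun l => 1 ≤ η * ln l)).card : ℝ) + 1) +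
        Real.log (∑ l ∈ F0.filter (fun l => 1 ≤ η * ln l), ln l) + Real.log (R + 1) ≤
        C4 * R ^ (1 - δ1) := by
      have h3 := hlogL.trans hZp
      rw [hC4]
      linarith
    have h3 : 0 ≤ R ^ (δ1 / 2) + 1 := by positivity
    calc (R ^ (δ1 / 2) + 1) * (1 + Real.log L +
          Real.log (((F0.filter (fun l => 1 ≤ η * ln l)).card : ℝ) + 1) +
          Real.log (∑ l ∈ F0.filter (fun l => 1 ≤ η * ln l), ln l) + Real.log (R + 1))
        ≤ (R ^ (δ1 / 2) + 1) * (C4 * R ^ (1 - δ1)) := mul_le_mul_of_nonneg_left htot h3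
      _ = C4 * ((R ^ (δ1 / 2) + 1) * R ^ (1 - δ1)) := by ring
      _ ≤ C4 * (2 * R ^ (1 - δ1 / 2)) := mul_le_mul_of_nonneg_left (sm2_d h1 hR1) hC4'.le
      _ = 2 * C4 * R ^ (1 - δ1 / 2) := by ring
      _ ≤ η * R := sm2_b hR1 hη hMb
  · intro e he hed
    refine sm2_e h1 h2 hA hR1 hη hMc ?_ ?_
    · have h3 : 1 ≤ e := by
        rcases he with rfl | ⟨he, -⟩
        · norm_num
        · exact he.one_le
      exact_mod_cast h3
    · rcases he with rfl | ⟨he, -⟩
      · push_cast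
        nlinarith
      · have h3 := (hp e he hed).trans hZp
        nlinarith

end Pool.Agent.TM2
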