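import Mathlib
import Pool.Agent.TM2.PerC
import Pool.Agent.TM2.NumP
import Pool.Agent.TM2.Sm2
import Pool.Agent.TM2.PtA
import Pool.Agent.TM2.ColC
import Pool.Agent.TM2.Bet

/-!
# Main2 (size 4)

Let `g` from `exists_gens`, `C` larger than the constants of `per_class` and `part_one`; `δ` from `smooth2`. Given `ε`: `A, η1, R1` from `num_pure C (ε / 4)`, and
`η ≤ η1` small (`η ≤ ε / (100 C)`, `η ≤ 1`); `R0` from `smooth2 A η`, larger than `R1` and so that the elementary inequalities below hold. Let `R ≥ R0`, `F, L` from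
`smooth2`, `ee = L.divisors.filter (e = 4 ∨ (e.Prime ∧ e ≠ 2))`: all `e ∈ ee` have `e ≤ η R`, so `ee.card ≤ η R + 1`.
`S1` = the `x ∈ S` such that for some `e ∈ ee` the weight of `{prt ≠ 2, e ∣ mlt}` is `≥ 2/9 R`: `part_one` with `k = R ^ δ`, `E = η R`:
`S1.card ≤ (η R + 1) exp (C (η R + 1)) exp (7/9 R) ≤ (1/2) exp ((7/9 + ε) R)`.
`S2 = S \ S1`. For each `j ≤ R ^ δ` let `S2 j` = the `x ∈ S2` with `(fs x).card = j`. Apply `col_card` to `S2 j` with
`B = exp (C (R ^ δ + 1) (1 + log L)) exp ((7/9 + ε / 4) R)`. For a class `X` (nonempty, contained in `S2 j`) with data `p, c, s, m, D` put `F' = F \ D`: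
`A R ≤ ∑_{F'} ln` (`D.card ≤ 2 j ≤ 2 R ^ δ`), `1 ≤ η ln l ≤ η1 ln l`, `log ∑_{F'} ln ≤ log ∑_F ln`. For an `x ∈ X` with its `v`: `∑ s i ≤ ∑ ln (v i) = rad x ≤ R`
(`⌊ln v⌋₊ ≤ ln v`, `Lst.sum_eq`, `rad_fs`), the sum over `p i = 2` is at most the weight of the poles `≤ R / 3`, and for `e` with `e ∣ N_l - 1 ∣ L`, `e ∈ ee`:
`e ∣ m i` iff `e ∣ mlt x (v i)` (`Dat.hm`, `e ∣ L`), so the sum over `p i ≠ 2, e ∣ m i` of `s i` is `< 2/9 R` as `x ∉ S1`
(sums over filtered `fs x` as sums over `Fin j`: `Lst.sum_eq` applied to `f v = if ... then ln v else 0`, `Finset.sum_filter`). `num_pure` gives `q`, `per_class`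
gives `X.card ≤ exp (C (j + 1) (1 + log L)) exp ((7/9 + ε / 4) R) ≤ B`. So `(S2 j).card ≤ (3 Mc (R + 1) L (F.card + 1)) ^ j * B` and
`j (log (3 Mc) + log (R + 1) + log L + log (F.card + 1)) ≤ (1 + log (3 Mc)) η R` by `smooth2`. Sum over `j ≤ R ^ δ`.
-/

namespace Pool.Agent.TM2

open NumberField IsDedekindDomain Pool.Agent.H7.Abc Pool.Agent.AbcE Pool.Agent.TMS

private theorem main2_filter {K : Type} [Field K] [NumberField K] {x : K} (hx : x ≠ 0)
    (hx1 : x ≠ 1) {j : ℕ} {v : Fin j → HeightOneSpectrum (𝓞 K)} (hv : Lst x v) (s : Fin j → ℕ)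
    (hs : ∀ i, ⌊ln (v i)⌋₊ = s i) (P : HeightOneSpectrum (𝓞 K) → Prop) [DecidablePred P]
    (Q : Fin j → Prop) [DecidablePred Q] (hPQ : ∀ i, Q i → P (v i)) :
    ∑ i ∈ Finset.univ.filter Q, (s i : ℝ) ≤ ∑ v ∈ (fs x).filter P, ln v := by
  rw [Finset.sum_filter, Finset.sum_filter, hv.sum_eq hx hx1]
  refine Finset.sum_le_sum fun i _ => ?_
  by_cases h : Q i
  · rw [if_pos h, if_pos (hPQ i h), ← hs i]
    exact Nat.floor_le (ln_pos _).le
  · rw [if_neg h]
    split_ifs
    · exact (ln_pos _).le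
    · exact le_rfl

theorem main_two (K : Type) [Field K] [NumberField K] :
    ∃ δ : ℝ, 0 < δ ∧ ∀ ε : ℝ, 0 < ε → ∃ R0 : ℝ, 1 ≤ R0 ∧ ∀ R : ℝ, R0 ≤ R →
      ∀ S : Finset K, (∀ x ∈ S, x ≠ 0 ∧ x ≠ 1 ∧ rad x ≤ R ∧ ((fs x).card : ℝ) ≤ R ^ δ ∧
        ∑ v ∈ (fs x).filter (fun v => prt x v = 2), ln v ≤ R / 3) →
      (S.card : ℝ) ≤ Real.exp ((7 / 9 + ε) * R) := by
  classical
  obtain ⟨g⟩ := exists_gens K
  obtain ⟨C1, hC1, hper⟩ := per_class g
  obtain ⟨C2, hC2, hpart⟩ := part_one K
  obtain ⟨δ, hδ, hδ1, hsm⟩ := smooth2 K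
  refine ⟨δ, hδ, fun ε hε => ?_⟩
  obtain ⟨A, η1, R1, hA, hη1, hη11, hR1, hnum⟩ := num_pure (K := K) C1 (ε / 4) hC1 (by linarith)
  have hMc : (0 : ℝ) ≤ g.Mc := Nat.cast_nonneg _
  set lM : ℝ := Real.log (3 * (g.Mc + 1)) with hlM
  have hlM0 : 0 ≤ lM := Real.log_nonneg (by linarith)
  set W : ℝ := 4 + lM + C1 + C2 with hW
  have hW0 : 0 < W := by linarith
  set η : ℝ := min η1 (ε / (4 * W)) with hη
  have hη0 : 0 < η := lt_min hη1 (by positivity)
  have hηη : η ≤ η1 := min_le_left _ _
  have hηW : η * W ≤ ε / 4 := by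
    have h1 : η ≤ ε / (4 * W) := min_le_right _ _
    calc η * W ≤ ε / (4 * W) * W := mul_le_mul_of_nonneg_right h1 hW0.le
      _ = ε / 4 := by field_simp
  obtain ⟨R2, hR2, hsm2⟩ := hsm A η hA hη0
  refine ⟨max (max R1 R2) (4 * (C2 + 1) / ε), ?_, ?_⟩
  · exact le_max_of_le_left (le_max_of_le_left hR1)
  intro R hR S hS
  have hRR1 : R1 ≤ R := (le_max_left _ _).trans ((le_max_left _ _).trans hR)
  have hRR2 : R2 ≤ R := (le_max_right _ _).trans ((le_max_left _ _).trans hR)
  have hRR3 : C2 + 1 ≤ ε / 4 * R := by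
    have h1 : 4 * (C2 + 1) / ε ≤ R := (le_max_right _ _).trans hR
    rw [div_le_iff₀ hε] at h1
    linarith
  have hRone : 1 ≤ R := hR1.trans hRR1
  have hR0 : 0 < R := by linarith
  obtain ⟨F, L, hL, hF, hD, hP, he⟩ := hsm2 R hRR2
  have hRδ : 0 ≤ R ^ δ := Real.rpow_nonneg hR0.le δ
  have hL1 : (1 : ℝ) ≤ L := by exact_mod_cast hL
  have hlogL : 0 ≤ Real.log L := Real.log_nonneg hL1
  have hlogF : 0 ≤ Real.log (F.card + 1) := Real.log_nonneg (by
    have : (0 : ℝ) ≤ F.card := Nat.cast_nonneg _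
    linarith)
  have hFsum : A * R ≤ ∑ l ∈ F, ln l := by
    have h1 := hD ∅ (by simp; positivity)
    simpa using h1
  have hFone : 1 ≤ ∑ l ∈ F, ln l := by nlinarith
  have hlogS : 0 ≤ Real.log (∑ l ∈ F, ln l) := Real.log_nonneg hFone
  have hlogR : 0 ≤ Real.log (R + 1) := Real.log_nonneg (by linarith)
  set ee : Finset ℕ := L.divisors.filter (fun e => e = 4 ∨ (e.Prime ∧ e ≠ 2)) with hee
  have hmem : ∀ e : ℕ, e ∈ ee ↔ e ∣ L ∧ (e = 4 ∨ (e.Prime ∧ e ≠ 2)) := by
    intro e
    rw [hee, Finset.mem_filter, Nat.mem_divisors]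
    constructor
    · rintro ⟨⟨h1, _⟩, h2⟩; exact ⟨h1, h2⟩
    · rintro ⟨h1, h2⟩; exact ⟨⟨h1, by omega⟩, h2⟩
  have hee3 : ∀ e ∈ ee, 3 ≤ e := by
    intro e h
    rcases ((hmem e).1 h).2 with h1 | ⟨h1, h2⟩
    · omega
    · have := h1.two_le
      omega
  have heeb : ∀ e ∈ ee, (e : ℝ) * (1 + Real.log e) + (R ^ δ + 1) * (1 + Real.log e) ≤ η * R :=
    fun e h => he e ((hmem e).1 h).2 ((hmem e).1 h).1
  have heec : (ee.card : ℝ) ≤ η * R + 1 := by
    have h1 : ee ⊆ Finset.Icc 1 ⌊η * R⌋₊ := by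
      intro e h
      rw [Finset.mem_Icc]
      have h3 := hee3 e h
      refine ⟨by omega, Nat.le_floor ?_⟩
      have h4 := heeb e h
      have h5 : (3 : ℝ) ≤ e := by exact_mod_cast h3
      have h6 : 0 ≤ Real.log e := Real.log_nonneg (by linarith)
      nlinarith [mul_nonneg (by linarith : (0:ℝ) ≤ R ^ δ + 1) (by linarith : (0:ℝ) ≤ 1 + Real.log e),
        mul_nonneg (by linarith : (0:ℝ) ≤ (e:ℝ)) h6]
    have h2 := Finset.card_le_card h1
    rw [Nat.card_Icc] at h2
    have h3 : (ee.card : ℝ) ≤ (⌊η * R⌋₊ : ℝ) := by exact_mod_cast (by omega : ee.card ≤ ⌊η * R⌋₊)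
    have h4 := Nat.floor_le (by positivity : 0 ≤ η * R)
    linarith
  set bad : K → Prop := fun x => ∃ e ∈ ee, 2 / 9 * R ≤
    ∑ v ∈ (fs x).filter (fun v => prt x v ≠ 2 ∧ e ∣ mlt x v), ln v with hbad
  have hexp1 : ∀ t : ℝ, t + 1 ≤ Real.exp t := fun t => Real.add_one_le_exp t
  have h2e : (2 : ℝ) ≤ Real.exp 1 := by
    have := hexp1 1
    linarith
  -- the first part
  have hS1 : ((S.filter bad).card : ℝ) ≤ 1 / 2 * Real.exp ((7 / 9 + ε) * R) := by
    have h1 := hpart R (R ^ δ) (η * R) ee hR0.le hRδ (fun e h => ⟨hee3 e h, heeb e h⟩)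
      (S.filter bad) (by
        intro x hx
        rw [Finset.mem_filter] at hx
        obtain ⟨hxS, hxb⟩ := hx
        obtain ⟨a1, a2, a3, a4, _⟩ := hS x hxS
        exact ⟨a1, a2, a3, a4, hxb⟩)
    refine h1.trans ?_
    have h2 : (ee.card : ℝ) ≤ Real.exp (η * R) := heec.trans (hexp1 _)
    have h3 : η * R * W ≤ ε / 4 * R := by nlinarith
    have h4 : (ee.card : ℝ) * Real.exp (C2 * (η * R + 1)) * Real.exp (7 / 9 * R) ≤
        Real.exp (η * R + C2 * (η * R + 1) + 7 / 9 * R) := by
      rw [Real.exp_add, Real.exp_add]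
      gcongr
    refine h4.trans ?_
    have h5 : 2 * Real.exp (η * R + C2 * (η * R + 1) + 7 / 9 * R) ≤ Real.exp ((7 / 9 + ε) * R) := by
      calc 2 * Real.exp (η * R + C2 * (η * R + 1) + 7 / 9 * R)
          ≤ Real.exp 1 * Real.exp (η * R + C2 * (η * R + 1) + 7 / 9 * R) := by gcongr
        _ = Real.exp (1 + (η * R + C2 * (η * R + 1) + 7 / 9 * R)) := by rw [← Real.exp_add]
        _ ≤ _ := by
          apply Real.exp_le_exp.2
          have h6 : 0 ≤ η * R := by positivity
          have h7 : η * R * (1 + C2) ≤ η * R * W := by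
            apply mul_le_mul_of_nonneg_left _ h6
            linarith
          nlinarith
    linarith
  -- the second part
  have hS2 : ((S.filter (fun x => ¬ bad x)).card : ℝ) ≤ 1 / 2 * Real.exp ((7 / 9 + ε) * R) := by
    set S2 := S.filter (fun x => ¬ bad x) with hS2d
    set B : ℝ := Real.exp (C1 * (R ^ δ + 1) * (1 + Real.log L)) * Real.exp ((7 / 9 + ε / 4) * R)
      with hB
    have hB0 : 0 ≤ B := by positivity
    set Pc : ℝ := (R ^ δ + 1) * (1 + Real.log L + Real.log (F.card + 1) +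
      Real.log (∑ l ∈ F, ln l) + Real.log (R + 1)) with hPc
    have hj : ∀ j : ℕ, (j : ℝ) ≤ R ^ δ → ((S2.filter (fun x => (fs x).card = j)).card : ℝ) ≤
        Real.exp ((1 + lM) * (η * R)) * B := by
      intro j hjR
      have h1 := col_card g F L hL R hRone j B hB0 (S2.filter (fun x => (fs x).card = j))
        (by
          intro x hx
          rw [Finset.mem_filter, hS2d, Finset.mem_filter] at hx
          obtain ⟨⟨hxS, _⟩, hxj⟩ := hx
          obtain ⟨a1, a2, a3, _, _⟩ := hS x hxS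
          exact ⟨a1, a2, a3, hxj⟩)
        (by
          intro p c s m D hDc hbase X hX hdat
          rcases X.eq_empty_or_nonempty with rfl | ⟨x, hx⟩
          · simpa using hB0
          obtain ⟨v, hv⟩ := hdat x hx
          have hxm := hX hx
          rw [Finset.mem_filter, hS2d, Finset.mem_filter] at hxm
          obtain ⟨⟨hxS, hxb⟩, hxj⟩ := hxm
          obtain ⟨a1, a2, a3, a4, a5⟩ := hS x hxS
          have hDc' : (D.card : ℝ) ≤ 2 * R ^ δ := by
            have : (D.card : ℝ) ≤ 2 * j := by exact_mod_cast hDc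
            linarith
          have hsub : ∑ l ∈ F \ D, ln l ≤ ∑ l ∈ F, ln l :=
            Finset.sum_le_sum_of_subset_of_nonneg Finset.sdiff_subset fun l _ _ => (ln_pos l).le
          have hAR := hD D hDc'
          have hF'1 : 1 ≤ ∑ l ∈ F \ D, ln l := by nlinarith
          have hs1 : ∑ i, (s i : ℝ) ≤ R := by
            have h2 := main2_filter a1 a2 hv.lst s hv.hs (fun _ => True) (fun _ => True)
              (fun _ _ => trivial)
            rw [Finset.filter_true, Finset.filter_true, ← rad_fs a1 a2] at h2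
            exact h2.trans a3
          have hs2 : ∑ i ∈ Finset.univ.filter (fun i => p i = 2), (s i : ℝ) ≤ R / 3 := by
            refine le_trans (main2_filter a1 a2 hv.lst s hv.hs (fun v => prt x v = 2)
              (fun i => p i = 2) ?_) a5
            intro i hi
            rw [hv.hp i]
            exact hi
          have hs3 : ∀ e : ℕ, (e = 4 ∨ (e.Prime ∧ e ≠ 2)) →
              (∃ l ∈ F \ D, e ∣ Ideal.absNorm l.asIdeal - 1) →
              ∑ i ∈ Finset.univ.filter (fun i => p i ≠ 2 ∧ e ∣ m i), (s i : ℝ) ≤ 2 / 9 * R := by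
            rintro e he4 ⟨l, hl, hel⟩
            have heL : e ∣ L := hel.trans (hF l (Finset.mem_sdiff.1 hl).1).1
            have heee : e ∈ ee := (hmem e).2 ⟨heL, he4⟩
            have hnb : ¬ (2 / 9 * R ≤
                ∑ v ∈ (fs x).filter (fun v => prt x v ≠ 2 ∧ e ∣ mlt x v), ln v) := by
              intro hcon
              exact hxb ⟨e, heee, hcon⟩
            rw [not_le] at hnb
            refine le_trans (main2_filter a1 a2 hv.lst s hv.hs
              (fun v => prt x v ≠ 2 ∧ e ∣ mlt x v) (fun i => p i ≠ 2 ∧ e ∣ m i) ?_) hnb.le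
            rintro i ⟨hi1, hi2⟩
            refine ⟨by rw [hv.hp i]; exact hi1, ?_⟩
            exact (((hv.hm i).of_dvd heL).dvd_iff (dvd_refl e)).2 hi2
          have hj1 : ((j : ℝ) + 1) * (1 + Real.log (∑ l ∈ F \ D, ln l)) ≤ η1 * R := by
            have h2 : Real.log (∑ l ∈ F \ D, ln l) ≤ Real.log (∑ l ∈ F, ln l) :=
              Real.log_le_log (by linarith) hsub
            have h3 : 0 ≤ Real.log (∑ l ∈ F \ D, ln l) := Real.log_nonneg hF'1
            calc ((j : ℝ) + 1) * (1 + Real.log (∑ l ∈ F \ D, ln l))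
                ≤ (R ^ δ + 1) * (1 + Real.log L + Real.log (F.card + 1) +
                  Real.log (∑ l ∈ F, ln l) + Real.log (R + 1)) := by
                  refine mul_le_mul (by linarith) (by linarith) (by linarith) (by linarith)
              _ ≤ η * R := hP
              _ ≤ η1 * R := mul_le_mul_of_nonneg_right hηη hR0.le
          obtain ⟨q, hq1, hq2, hq3⟩ := hnum R (F \ D) j p s m hRR1 hAR
            (fun l hl => by
              have h2 := (hF l (Finset.mem_sdiff.1 hl).1).2
              have h3 := ln_pos l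
              nlinarith) hj1 hs1 hs2 hs3
          have h2 := hper (F \ D) L j p c s m q hL
            (fun l hl => (hF l (Finset.mem_sdiff.1 hl).1).1) hbase (fun i _ => hq1 i) hq2 X hdat
          refine h2.trans ?_
          have h3 : Real.exp (C1 * (j + 1) * (1 + Real.log L)) ≤
              Real.exp (C1 * (R ^ δ + 1) * (1 + Real.log L)) := by
            apply Real.exp_le_exp.2
            gcongr
          have h4 : 0 ≤ ∏ i, wgt C1 (F \ D) (p i) (s i) (m i) (q i) := by
            apply Finset.prod_nonneg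
            intro i _
            unfold wgt
            split_ifs
            · positivity
            · positivity
          calc _ ≤ Real.exp (C1 * (R ^ δ + 1) * (1 + Real.log L)) *
                ∏ i, wgt C1 (F \ D) (p i) (s i) (m i) (q i) :=
                mul_le_mul_of_nonneg_right h3 h4
            _ ≤ B := by
                rw [hB]
                exact mul_le_mul_of_nonneg_left hq3 (by positivity))
      refine h1.trans ?_
      apply mul_le_mul_of_nonneg_right _ hB0
      have hb1 : (3 * (g.Mc : ℝ) * (R + 1) * L * (F.card + 1)) ^ j ≤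
          (3 * ((g.Mc : ℝ) + 1) * (R + 1) * L * (F.card + 1)) ^ j := by
        apply pow_le_pow_left₀ (by positivity)
        gcongr
        linarith
      refine hb1.trans ?_
      have h2 : (3 * ((g.Mc : ℝ) + 1) * (R + 1) * L * (F.card + 1)) ^ j =
          Real.exp (j * Real.log (3 * ((g.Mc : ℝ) + 1) * (R + 1) * L * (F.card + 1))) := by
        rw [← Real.log_pow, Real.exp_log (by positivity)]
      rw [h2]
      apply Real.exp_le_exp.2
      have h3 : Real.log (3 * ((g.Mc : ℝ) + 1) * (R + 1) * L * (F.card + 1)) =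
          lM + Real.log (R + 1) + Real.log L + Real.log (F.card + 1) := by
        rw [Real.log_mul (by positivity) (by positivity), Real.log_mul (by positivity) (by positivity),
          Real.log_mul (by positivity) (by positivity)]
      rw [h3]
      have h4 : (1 + lM) * Pc ≤ (1 + lM) * (η * R) := mul_le_mul_of_nonneg_left hP (by linarith)
      refine le_trans ?_ h4
      have h5 : (j : ℝ) * (lM + Real.log (R + 1) + Real.log L + Real.log (F.card + 1)) ≤
          (R ^ δ + 1) * (lM + Real.log (R + 1) + Real.log L + Real.log (F.card + 1)) := by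
        apply mul_le_mul_of_nonneg_right (by linarith)
        linarith
      refine h5.trans ?_
      rw [hPc, mul_left_comm]
      apply mul_le_mul_of_nonneg_left _ (by linarith)
      nlinarith [mul_nonneg hlM0 hlogL, mul_nonneg hlM0 hlogF, mul_nonneg hlM0 hlogS,
        mul_nonneg hlM0 hlogR]
    have hsum : (S2.card : ℝ) = ∑ j ∈ Finset.range (⌊R ^ δ⌋₊ + 1),
        ((S2.filter (fun x => (fs x).card = j)).card : ℝ) := by
      have h1 : S2.card = ∑ j ∈ Finset.range (⌊R ^ δ⌋₊ + 1),
          (S2.filter (fun x => (fs x).card = j)).card := by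
        apply Finset.card_eq_sum_card_fiberwise
        intro x hx
        rw [Finset.mem_coe, hS2d, Finset.mem_filter] at hx
        obtain ⟨_, _, _, a4, _⟩ := hS x hx.1
        rw [Finset.mem_coe, Finset.mem_range, Nat.lt_succ_iff]
        exact Nat.le_floor a4
      rw [h1]
      push_cast
      rfl
    have hPc1 : R ^ δ + 1 ≤ η * R := by
      refine le_trans ?_ hP
      have h1 : (R ^ δ + 1) * 1 ≤ (R ^ δ + 1) * (1 + Real.log L + Real.log (F.card + 1) +
          Real.log (∑ l ∈ F, ln l) + Real.log (R + 1)) := by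
        apply mul_le_mul_of_nonneg_left _ (by linarith)
        linarith
      linarith
    have hfl := Nat.floor_le hRδ
    have h1 : (S2.card : ℝ) ≤ (R ^ δ + 1) * (Real.exp ((1 + lM) * (η * R)) * B) := by
      rw [hsum]
      calc ∑ j ∈ Finset.range (⌊R ^ δ⌋₊ + 1), ((S2.filter (fun x => (fs x).card = j)).card : ℝ)
          ≤ ∑ _j ∈ Finset.range (⌊R ^ δ⌋₊ + 1), Real.exp ((1 + lM) * (η * R)) * B := by
            apply Finset.sum_le_sum
            intro j hj'
            apply hj
            rw [Finset.mem_range, Nat.lt_succ_iff] at hj'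
            have : (j : ℝ) ≤ (⌊R ^ δ⌋₊ : ℝ) := by exact_mod_cast hj'
            linarith
        _ = ((⌊R ^ δ⌋₊ : ℝ) + 1) * (Real.exp ((1 + lM) * (η * R)) * B) := by
            rw [Finset.sum_const, Finset.card_range, nsmul_eq_mul]
            push_cast
            rfl
        _ ≤ _ := by
            apply mul_le_mul_of_nonneg_right (by linarith)
            positivity
    refine h1.trans ?_
    have h2 : R ^ δ + 1 ≤ Real.exp (η * R) := by
      have := hexp1 (η * R)
      linarith
    have h3 : Real.exp (C1 * (R ^ δ + 1) * (1 + Real.log L)) ≤ Real.exp (C1 * (η * R)) := by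
      apply Real.exp_le_exp.2
      rw [mul_assoc]
      apply mul_le_mul_of_nonneg_left _ (by linarith)
      refine le_trans ?_ hP
      apply mul_le_mul_of_nonneg_left _ (by linarith)
      linarith
    have h4 : (R ^ δ + 1) * (Real.exp ((1 + lM) * (η * R)) * B) ≤
        Real.exp (η * R + ((1 + lM) * (η * R) + (C1 * (η * R) + (7 / 9 + ε / 4) * R))) := by
      rw [Real.exp_add, Real.exp_add, Real.exp_add, hB]
      gcongr
    refine h4.trans ?_
    have h5 : 2 * Real.exp (η * R + ((1 + lM) * (η * R) + (C1 * (η * R) + (7 / 9 + ε / 4) * R))) ≤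
        Real.exp ((7 / 9 + ε) * R) := by
      calc 2 * Real.exp (η * R + ((1 + lM) * (η * R) + (C1 * (η * R) + (7 / 9 + ε / 4) * R)))
          ≤ Real.exp 1 * Real.exp (η * R + ((1 + lM) * (η * R) +
            (C1 * (η * R) + (7 / 9 + ε / 4) * R))) := by gcongr
        _ = Real.exp (1 + (η * R + ((1 + lM) * (η * R) +
            (C1 * (η * R) + (7 / 9 + ε / 4) * R)))) := by rw [← Real.exp_add]
        _ ≤ _ := by
          apply Real.exp_le_exp.2
          have h6 : 0 ≤ η * R := by positivity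
          have h7 : η * R * (2 + lM + C1) ≤ η * R * W := by
            apply mul_le_mul_of_nonneg_left _ h6
            linarith
          have h8 : η * R * W ≤ ε / 4 * R := by nlinarith
          nlinarith
    linarith
  have htot : (S.card : ℝ) = (S.filter bad).card + (S.filter (fun x => ¬ bad x)).card := by
    exact_mod_cast (Finset.card_filter_add_card_filter_not bad).symm
  rw [htot]
  linarith

end Pool.Agent.TM2
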