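import Mathlib
import Pool.Agent.TM2.Defs

/-!
# Sym (size 3)

The maps `x ↦ x⁻¹` and `x ↦ x / (x - 1)` are involutions of `K \ {0, 1}` which preserve `supp x`:
`x⁻¹ - 1 = -(x - 1) / x`, `x / (x - 1) - 1 = 1 / (x - 1)`. Exponents at `v` (`ord_cases`, `ord_div`, `ord_inv'`, `ord_neg'`):
for `x⁻¹`: `-ord v x`, and `ord v (x - 1) - ord v x`; so zeros and poles are exchanged (parts `0` and `2`), zeros of `x - 1` stay.
for `x / (x - 1)`: `ord v x - ord v (x - 1)` and `-ord v (x - 1)`: zeros of `x` stay, poles of `x` become zeros of `y - 1`, zeros of `x - 1` become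
poles: parts `1` and `2` are exchanged. So `fs`, `rad` are preserved. The weights of the three parts of `x` add up to `rad x ≤ R`, one of them is `≤ R / 3`:
if it is part `2` keep `x`, if part `0` take `x⁻¹`, if part `1` take `x / (x - 1)`. `S = S2 ∪ S0 ∪ S1` accordingly, the images of the three sets under the
(injective) maps satisfy the hypothesis of `hB`.
-/

namespace Pool.Agent.TM2

open NumberField IsDedekindDomain Pool.Agent.H7.Abc Pool.Agent.AbcE Pool.Agent.TMS

private theorem sym_inv {K : Type} [Field K] [NumberField K] {x : K} (hx : x ≠ 0) (hx1 : x ≠ 1) :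
    x⁻¹ ≠ 0 ∧ x⁻¹ ≠ 1 ∧ fs x⁻¹ = fs x ∧
      (fs x⁻¹).filter (fun v => prt x⁻¹ v = 2) = (fs x).filter (fun v => prt x v = 0) := by
  have h0 : x⁻¹ ≠ 0 := inv_ne_zero hx
  have h1 : x⁻¹ ≠ 1 := by
    intro h
    exact hx1 (inv_eq_one.1 h)
  have hx1' : x - 1 ≠ 0 := sub_ne_zero.2 hx1
  have ho : ∀ v, ord v x⁻¹ = -ord v x := fun v => ord_inv' v hx
  have ho1 : ∀ v, ord v (x⁻¹ - 1) = ord v (x - 1) - ord v x := by
    intro v
    have e : x⁻¹ - 1 = -((x - 1) / x) := by
      field_simp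
      ring
    rw [e, ord_neg', ord_div v hx1' hx]
  have hfs : fs x⁻¹ = fs x := by
    ext v
    rw [mem_fs h0 h1, mem_fs hx hx1, ho, ho1]
    have := ord_cases v hx hx1
    omega
  refine ⟨h0, h1, hfs, ?_⟩
  rw [hfs]
  refine Finset.filter_congr fun v _ => ?_
  rw [prt_eq_two, prt_eq_zero, ho]
  omega

private theorem sym_div {K : Type} [Field K] [NumberField K] {x : K} (hx : x ≠ 0) (hx1 : x ≠ 1) :
    x / (x - 1) ≠ 0 ∧ x / (x - 1) ≠ 1 ∧ fs (x / (x - 1)) = fs x ∧
      (fs (x / (x - 1))).filter (fun v => prt (x / (x - 1)) v = 2) =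
        (fs x).filter (fun v => prt x v = 1) := by
  have hx1' : x - 1 ≠ 0 := sub_ne_zero.2 hx1
  have h0 : x / (x - 1) ≠ 0 := div_ne_zero hx hx1'
  have h1 : x / (x - 1) ≠ 1 := by
    intro h
    rw [div_eq_one_iff_eq hx1'] at h
    have : (1 : K) = 0 := by linear_combination h
    exact one_ne_zero this
  have ho : ∀ v, ord v (x / (x - 1)) = ord v x - ord v (x - 1) := fun v => ord_div v hx hx1'
  have ho1 : ∀ v, ord v (x / (x - 1) - 1) = -ord v (x - 1) := by
    intro v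
    have e : x / (x - 1) - 1 = (x - 1)⁻¹ := by
      field_simp
      ring
    rw [e, ord_inv' v hx1']
  have hfs : fs (x / (x - 1)) = fs x := by
    ext v
    rw [mem_fs h0 h1, mem_fs hx hx1, ho, ho1]
    have := ord_cases v hx hx1
    omega
  refine ⟨h0, h1, hfs, ?_⟩
  rw [hfs]
  refine Finset.filter_congr fun v hv => ?_
  rw [mem_fs hx hx1] at hv
  rw [prt_eq_two, prt_eq_one, ho]
  have := ord_cases v hx hx1
  omega

theorem sym_card {K : Type} [Field K] [NumberField K] (R k B : ℝ)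
    (hB : ∀ S : Finset K, (∀ x ∈ S, x ≠ 0 ∧ x ≠ 1 ∧ rad x ≤ R ∧ ((fs x).card : ℝ) ≤ k ∧
      ∑ v ∈ (fs x).filter (fun v => prt x v = 2), ln v ≤ R / 3) → (S.card : ℝ) ≤ B)
    (S : Finset K) (hS : ∀ x ∈ S, x ≠ 0 ∧ x ≠ 1 ∧ rad x ≤ R ∧ ((fs x).card : ℝ) ≤ k) :
    (S.card : ℝ) ≤ 3 * B := by
  classical
  set P : Fin 3 → Finset K := fun p => S.filter fun x =>
    ∑ v ∈ (fs x).filter (fun v => prt x v = p), ln v ≤ R / 3 with hP
  have hcov : S ⊆ (P 2 ∪ P 0) ∪ P 1 := by
    intro x hx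
    obtain ⟨h0, h1, h2, _⟩ := hS x hx
    have hsum : ∑ p : Fin 3, ∑ v ∈ (fs x).filter (fun v => prt x v = p), ln v = rad x := by
      rw [rad_fs h0 h1]
      exact Finset.sum_fiberwise (fs x) (fun v => prt x v) ln
    rw [Fin.sum_univ_three] at hsum
    by_contra hcon
    simp only [hP, Finset.mem_union, Finset.mem_filter, hx, true_and, not_or, not_le] at hcon
    obtain ⟨⟨c2, c0⟩, c1⟩ := hcon
    linarith
  have hc : (S.card : ℝ) ≤ ((P 2).card : ℝ) + (P 0).card + (P 1).card := by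
    have h1 := Finset.card_le_card hcov
    have h2 := Finset.card_union_le (P 2 ∪ P 0) (P 1)
    have h3 := Finset.card_union_le (P 2) (P 0)
    have h4 : S.card ≤ (P 2).card + (P 0).card + (P 1).card := by omega
    exact_mod_cast h4
  have b2 : ((P 2).card : ℝ) ≤ B := by
    refine hB _ fun x hx => ?_
    obtain ⟨hx, hw⟩ := Finset.mem_filter.1 hx
    obtain ⟨h0, h1, h2, h3⟩ := hS x hx
    exact ⟨h0, h1, h2, h3, hw⟩
  have b0 : ((P 0).card : ℝ) ≤ B := by
    have hi : ((P 0).image fun x => x⁻¹).card = (P 0).card :=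
      Finset.card_image_of_injective _ inv_injective
    rw [← hi]
    refine hB _ fun y hy => ?_
    obtain ⟨x, hx, rfl⟩ := Finset.mem_image.1 hy
    obtain ⟨hx, hw⟩ := Finset.mem_filter.1 hx
    obtain ⟨h0, h1, h2, h3⟩ := hS x hx
    obtain ⟨g0, g1, g2, g3⟩ := sym_inv h0 h1
    refine ⟨g0, g1, ?_, ?_, ?_⟩
    · rw [rad_fs g0 g1, g2, ← rad_fs h0 h1]
      exact h2
    · rw [g2]
      exact h3
    · rw [g3]
      exact hw
  have b1 : ((P 1).card : ℝ) ≤ B := by
    have hi : ((P 1).image fun x => x / (x - 1)).card = (P 1).card := by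
      refine Finset.card_image_of_injOn fun x hx y hy hxy => ?_
      have hx' := (hS x (Finset.mem_filter.1 hx).1).2.1
      have hy' := (hS y (Finset.mem_filter.1 hy).1).2.1
      have hx1 : x - 1 ≠ 0 := sub_ne_zero.2 hx'
      have hy1 : y - 1 ≠ 0 := sub_ne_zero.2 hy'
      replace hxy : x / (x - 1) = y / (y - 1) := hxy
      rw [div_eq_div_iff hx1 hy1] at hxy
      linear_combination -hxy
    rw [← hi]
    refine hB _ fun y hy => ?_
    obtain ⟨x, hx, rfl⟩ := Finset.mem_image.1 hy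
    obtain ⟨hx, hw⟩ := Finset.mem_filter.1 hx
    obtain ⟨h0, h1, h2, h3⟩ := hS x hx
    obtain ⟨g0, g1, g2, g3⟩ := sym_div h0 h1
    refine ⟨g0, g1, ?_, ?_, ?_⟩
    · rw [rad_fs g0 g1, g2, ← rad_fs h0 h1]
      exact h2
    · rw [g2]
      exact h3
    · rw [g3]
      exact hw
  linarith

end Pool.Agent.TM2
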