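import Mathlib
import Pool.Agent.TM2.Main2
import Pool.Agent.TM2.Sym
import Pool.Agent.TMS.CorA

/-!
# Main (size 2)

`δ` from `main_two`; given `ε` let `R0` be from `main_two`. `{x | x ≠ 0, 1, rad x ≤ R}` is finite for every `R ≥ 0` (`corA`, TMS/CorA; use `R + 1` if it needs `R > 0`).
For `R ≥ R0`: `sym_card` and `main_two` with `k = R ^ δ`, `B = exp ((7/9 + ε) R)`. For `R < R0` the set is contained in the finite set for `R0`.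
`C = max 3 (cardinality for R0)`. (`(supp x).ncard = (fs x).card`: `coe_fs`, `Set.ncard_coe_finset`.)
-/

namespace Pool.Agent.TM2

open NumberField IsDedekindDomain Pool.Agent.H7.Abc Pool.Agent.AbcE Pool.Agent.TMS

theorem few_places (K : Type) [Field K] [NumberField K] :
    ∃ δ : ℝ, 0 < δ ∧ ∀ ε : ℝ, 0 < ε → ∃ C : ℝ, ∀ R : ℝ, 0 ≤ R →
      {x : K | x ≠ 0 ∧ x ≠ 1 ∧ rad x ≤ R ∧ ((supp x).ncard : ℝ) ≤ R ^ δ}.Finite ∧
      ({x : K | x ≠ 0 ∧ x ≠ 1 ∧ rad x ≤ R ∧ ((supp x).ncard : ℝ) ≤ R ^ δ}.ncard : ℝ) ≤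
        C * Real.exp ((7 / 9 + ε) * R) := by
  obtain ⟨δ, hδ, hmain⟩ := main_two K
  obtain ⟨_, _, _, _, _, hcor⟩ := corA K
  refine ⟨δ, hδ, fun ε hε => ?_⟩
  obtain ⟨R0, hR0, hR⟩ := hmain ε hε
  set N : ℝ := (({x : K | x ≠ 0 ∧ x ≠ 1 ∧ rad x ≤ R0}.ncard : ℕ) : ℝ) with hN
  refine ⟨max 3 N, fun R hRn => ?_⟩
  have hsub : {x : K | x ≠ 0 ∧ x ≠ 1 ∧ rad x ≤ R ∧ ((supp x).ncard : ℝ) ≤ R ^ δ} ⊆
      {x : K | x ≠ 0 ∧ x ≠ 1 ∧ rad x ≤ R} := fun x hx => ⟨hx.1, hx.2.1, hx.2.2.1⟩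
  have hfin : {x : K | x ≠ 0 ∧ x ≠ 1 ∧ rad x ≤ R ∧ ((supp x).ncard : ℝ) ≤ R ^ δ}.Finite :=
    (hcor R hRn).1.subset hsub
  refine ⟨hfin, ?_⟩
  rcases le_or_gt R0 R with h | h
  · have h1 := sym_card (K := K) R (R ^ δ) (Real.exp ((7 / 9 + ε) * R)) (hR R h) hfin.toFinset
      (fun x hx => by
        have hx' := hfin.mem_toFinset.1 hx
        refine ⟨hx'.1, hx'.2.1, hx'.2.2.1, ?_⟩
        have h2 := hx'.2.2.2
        rw [← coe_fs hx'.1 hx'.2.1, Set.ncard_coe_finset] at h2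
        exact h2)
    rw [Set.ncard_eq_toFinset_card _ hfin]
    exact h1.trans (mul_le_mul_of_nonneg_right (le_max_left _ _) (Real.exp_nonneg _))
  · have hsub2 : {x : K | x ≠ 0 ∧ x ≠ 1 ∧ rad x ≤ R ∧ ((supp x).ncard : ℝ) ≤ R ^ δ} ⊆
        {x : K | x ≠ 0 ∧ x ≠ 1 ∧ rad x ≤ R0} := fun x hx => ⟨hx.1, hx.2.1, hx.2.2.1.trans h.le⟩
    have h1 := Set.ncard_le_ncard hsub2 (hcor R0 (by linarith)).1
    have h2 : (1 : ℝ) ≤ Real.exp ((7 / 9 + ε) * R) :=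
      Real.one_le_exp (mul_nonneg (by linarith) hRn)
    calc _ ≤ N := by rw [hN]; exact_mod_cast h1
      _ ≤ max 3 N := le_max_right _ _
      _ = max 3 N * 1 := (mul_one _).symm
      _ ≤ _ := mul_le_mul_of_nonneg_left h2 (by positivity)

end Pool.Agent.TM2
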